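import Pool.Agent.Lib.MP_8f49b0_lc.MM.M.StatAll

/-! # Closed unbounded sets, and names of preorders without a top: definitions -/

namespace Pool.Agent.Lib.MP_8f49b0_lc.MM

namespace Code

variable (K : Code)

/-- `c0` forces that `S` meets every closed unbounded subset of `ω₁` -/
def StatC (c0 : Pre) (S : O → Set Pre) : Prop :=
  ∀ c, K.ex c c0 → ∀ C : O → Set Pre, (∀ δ, K.Reg (C δ)) →
    (∀ γ < w1, ∀ c', K.ex c' c → ∃ c'', K.ex c'' c' ∧ ∃ δ < w1, γ < δ ∧ c'' ∈ C δ) →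
    (∀ δ < w1, δ ≠ 0 → ∀ c', K.ex c' c →
      (∀ γ < δ, ∀ c'', K.ex c'' c' → ∃ d, K.ex d c'' ∧ ∃ ε < δ, γ < ε ∧ d ∈ C ε) → c' ∈ C δ) →
    ∃ c', K.ex c' c ∧ ∃ δ < w1, c' ∈ S δ ∧ c' ∈ C δ

/-- `c0` forces that `q` preserves stationary sets, expressed with names of closed unbounded sets; `C h δ` is the truth value of: `h` forces that `δ` belongs
to the closed unbounded set -/
def SPQc (c0 : Pre) (q : O → O → Set Pre) : Prop :=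
  ∀ S : O → Set Pre, (∀ δ, K.Reg (S δ)) → ∀ C : O → O → Set Pre, (∀ h δ, K.Reg (C h δ)) →
    ∀ c1, K.ex c1 c0 → K.StatC c1 S →
    (∀ h' < w1, ∀ h < w1, ∀ δ < w1, ∀ c, K.ex c c1 → c ∈ q h' h → c ∈ C h δ → c ∈ C h' δ) →
    (∀ h < w1, ∀ δ < w1, ∀ c, K.ex c c1 →
      (∀ c', K.ex c' c → ∀ r < w1, c' ∈ q r h → ∃ c'', K.ex c'' c' ∧ ∃ r' < w1, c'' ∈ q r' r ∧ c'' ∈ C r' δ) →
      c ∈ C h δ) →
    ∀ h0 < w1,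
    (∀ γ < w1, ∀ c, K.ex c c1 → ∀ h < w1, c ∈ q h h0 →
      ∃ c', K.ex c' c ∧ ∃ h' < w1, c' ∈ q h' h ∧ ∃ δ < w1, γ < δ ∧ c' ∈ C h' δ) →
    (∀ δ < w1, δ ≠ 0 → ∀ c, K.ex c c1 → ∀ h < w1, c ∈ q h h0 →
      (∀ γ < δ, ∀ c', K.ex c' c → ∀ r < w1, c' ∈ q r h →
        ∃ c'', K.ex c'' c' ∧ ∃ r' < w1, c'' ∈ q r' r ∧ ∃ ε < δ, γ < ε ∧ c'' ∈ C r' ε) → c ∈ C h δ) →
    ∃ c2, K.ex c2 c1 ∧ ∃ h < w1, c2 ∈ q h h0 ∧ ∃ δ < w1, c2 ∈ S δ ∧ c2 ∈ C h δ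

/-- `c0` forces that `q` is a preorder on `ω₁` -/
structure PreQ0 (c0 : Pre) (q : O → O → Set Pre) : Prop where
  reg : ∀ h' h, K.Reg (q h' h)
  refl : ∀ h < w1, c0 ∈ q h h
  trans : ∀ h'' < w1, ∀ h' < w1, ∀ h < w1, ∀ c, K.ex c c0 → c ∈ q h'' h' → c ∈ q h' h → c ∈ q h'' h

/-- `c1` forces that `G` is a filter on `q` which meets all the `D i` -/
structure FilQ0 (c1 : Pre) (q D : O → O → Set Pre) (G : O → Set Pre) : Prop where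
  reg : ∀ h, K.Reg (G h)
  up : ∀ h < w1, ∀ h' < w1, ∀ c, K.ex c c1 → c ∈ G h → c ∈ q h h' → c ∈ G h'
  dir : ∀ h < w1, ∀ h' < w1, ∀ c, K.ex c c1 → c ∈ G h → c ∈ G h' →
    ∃ c', K.ex c' c ∧ ∃ h'' < w1, c' ∈ G h'' ∧ c' ∈ q h'' h ∧ c' ∈ q h'' h'
  meet : ∀ i < w1, ∀ c, K.ex c c1 → ∃ c', K.ex c' c ∧ ∃ h < w1, c' ∈ G h ∧ c' ∈ D i h

/-- adding a top: the index `0` is the top, `1 + ξ` stands for the old `ξ` -/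
noncomputable def tq (q : O → O → Set Pre) (h' h : O) : Set Pre :=
  {c | K.Ok c ∧ (h = 0 ∨ (h' ≠ 0 ∧ c ∈ q (h' - 1) (h - 1)))}

end Code

end Pool.Agent.Lib.MP_8f49b0_lc.MM
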