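import Pool.Agent.Lib.MP_8f49b0_lc.MM.M.BadDefs

/-! # The bad case: the relation `RR` (module M-BADREL)

`reg_RR`: the generating set is open. `down_RR`: `PreQ.trans`. `total_RR`: let `ξ = ω * ζ + n`. Extend `c` to a condition with a countable node `N` above `lam` with the trace `ζ`, or `RN` holds. In the latter case (or if
`K.en α (enu ..)` is not dense open) take `h' = h`, `β = 0`. Otherwise `(c.res α, h)` has an extension `(g, β)` in the dense set; glue `g` into `c` at the node of height `α` (`exists_glue_fst`), and take `h' = β`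
(`K.CodeQ`: `c' ∈ q β h`; `refl`). -/

namespace Pool.Agent.Lib.MP_8f49b0_lc.MM

namespace Code

variable {K : Code}

/-- the generating set of `RR` -/
def badRel_A (K : Code) (α x0 : O) (q : O → O → Set Pre) (lam x1 : O) (c1 : Pre) (h ξ β : O) : Set Pre :=
  {c | K.ex c c1 ∧ h < w1 ∧ β < w1 ∧ ∀ ζ, ∀ n : ℕ, ξ = Ordinal.omega0 * ζ + n →
    RC K α x0 q lam x1 c h ζ n β ∨ RN K lam x1 c ζ}

theorem badRel_ok0 {c0 : Pre} {q : O → O → Set Pre} (hq : K.PreQ c0 q) : K.Ok c0 :=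
  (hq.reg 0 0).ok c0 (hq.refl 0 (Ordinal.omega_pos 1))

theorem badRel_open {α x0 h0 : O} {c0 : Pre} {q : O → O → Set Pre} {lam x1 : O} {c1 : Pre} {Fs : List O → Set O}
    (hB : BD K α x0 h0 c0 q lam x1 c1 Fs) (h ξ β : O) :
    ∀ c ∈ badRel_A K α x0 q lam x1 c1 h ξ β, ∀ c', K.ex c' c → c' ∈ badRel_A K α x0 q lam x1 c1 h ξ β := by
  rintro c ⟨h1, h2, h3, h4⟩ c' hc'
  refine ⟨ex_trans hB.hc1.1 hc' h1, h2, h3, fun ζ n hn => ?_⟩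
  rcases h4 ζ n hn with h5 | h5
  · left
    obtain ⟨N, hN, k1, k2, k3, k4⟩ := h5
    refine ⟨N, hc'.2.C hN, k1, k2, k3, fun hD => ?_⟩
    obtain ⟨g, hg, l1, l2, l3⟩ := k4 hD
    exact ⟨g, hg, le_trans_of_ok hc'.1 h1.1 (mem_V.1 hg).2 hc'.2 l1, l2, (hB.hq.reg h β).opn c l3 c' hc'⟩
  · right
    exact fun d hd => h5 d (ex_trans h1.1 hd hc')

theorem reg_RR {α x0 h0 : O} {c0 : Pre} {q : O → O → Set Pre} {lam x1 : O} {c1 : Pre} {Fs : List O → Set O}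
    (hB : BD K α x0 h0 c0 q lam x1 c1 Fs) (h ξ β : O) : K.Reg (RR K α x0 q lam x1 c1 h ξ β) :=
  reg_rg (badRel_open hB h ξ β)

theorem down_RR {α x0 h0 : O} {c0 : Pre} {q : O → O → Set Pre} {lam x1 : O} {c1 : Pre} {Fs : List O → Set O}
    (hB : BD K α x0 h0 c0 q lam x1 c1 Fs) : ∀ h' < w1, ∀ h < w1, ∀ ξ < w1, ∀ β < w1, ∀ c, K.ex c c1 → c ∈ q h' h →
      c ∈ RR K α x0 q lam x1 c1 h ξ β → c ∈ RR K α x0 q lam x1 c1 h' ξ β := by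
  intro h' hh' h hh ξ hξ β hβ c hc hq hR
  obtain ⟨hok, hden⟩ := hR
  have hc0ok := badRel_ok0 hB.hq
  refine ⟨hok, fun c' hc' => ?_⟩
  obtain ⟨c'', hc'', h1, h2, h3, h4⟩ := hden c' hc'
  have hc''c : K.ex c'' c := ex_trans hok hc'' hc'
  have hq'' : c'' ∈ q h' h := (hB.hq.reg h' h).opn c hq c'' hc''c
  have hc''0 : K.ex c'' c0 := ex_trans hc0ok h1 hB.hc1
  refine ⟨c'', hc'', h1, hh', h3, fun ζ n hn => ?_⟩
  rcases h4 ζ n hn with h5 | h5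
  · left
    obtain ⟨N, hN, k1, k2, k3, k4⟩ := h5
    refine ⟨N, hN, k1, k2, k3, fun hD => ?_⟩
    obtain ⟨g, hg, l1, l2, l3⟩ := k4 hD
    exact ⟨g, hg, l1, l2, hB.hq.trans h' hh' h hh β hβ c'' hc''0 hq'' l3⟩
  · exact Or.inr h5

theorem badRel_div {ζ ζ' : O} {n n' : ℕ} (h : Ordinal.omega0 * ζ + (n : O) = Ordinal.omega0 * ζ' + (n' : O)) :
    ζ = ζ' ∧ n = n' := by
  have h1 : ζ = ζ' := by
    have e1 := Ordinal.mul_add_div ζ (ne_of_gt Ordinal.omega0_pos) (n : O)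
    have e2 := Ordinal.mul_add_div ζ' (ne_of_gt Ordinal.omega0_pos) (n' : O)
    rw [Ordinal.div_eq_zero_of_lt (Ordinal.natCast_lt_omega0 n), add_zero] at e1
    rw [Ordinal.div_eq_zero_of_lt (Ordinal.natCast_lt_omega0 n'), add_zero] at e2
    rw [← e1, ← e2, h]
  subst h1
  have h2 : (n : O) = n' := add_left_cancel h
  exact ⟨rfl, by exact_mod_cast h2⟩

theorem total_RR {α x0 h0 : O} {c0 : Pre} {q : O → O → Set Pre} {lam x1 : O} {c1 : Pre} {Fs : List O → Set O}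
    (hB : BD K α x0 h0 c0 q lam x1 c1 Fs) : ∀ ξ < w1, ∀ h < w1, ∀ c, K.ex c c1 →
      ∃ c', K.ex c' c ∧ ∃ h' < w1, c' ∈ q h' h ∧ ∃ β < w1, c' ∈ RR K α x0 q lam x1 c1 h' ξ β := by
  intro ξ hξ h hh c hc
  have hc0ok := badRel_ok0 hB.hq
  have hw0 : (0 : O) < w1 := Ordinal.omega_pos 1
  have hrefl : ∀ d, K.ex d c0 → ∀ k < w1, d ∈ q k k := fun d hd k hk =>
    (hB.hq.reg k k).opn c0 (hB.hq.refl k hk) d hd
  have hex0 : ∀ d, K.ex d c1 → K.ex d c0 := fun d hd => ex_trans hc0ok hd hB.hc1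
  have hmem : ∀ k β d, d ∈ badRel_A K α x0 q lam x1 c1 k ξ β → d ∈ RR K α x0 q lam x1 c1 k ξ β :=
    fun k β d hd => subset_rg (fun d hd => hd.1.1) (badRel_open hB k ξ β) hd
  obtain ⟨ζ, n, hn⟩ : ∃ ζ : O, ∃ n : ℕ, ξ = Ordinal.omega0 * ζ + n := by
    have h1 := Ordinal.mod_lt ξ (ne_of_gt Ordinal.omega0_pos)
    obtain ⟨n, hn⟩ := Ordinal.lt_omega0.1 h1
    refine ⟨ξ / Ordinal.omega0, n, ?_⟩
    rw [← hn]
    exact (Ordinal.div_add_mod ξ Ordinal.omega0).symm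
  have huniq : ∀ ζ' : O, ∀ n' : ℕ, ξ = Ordinal.omega0 * ζ' + n' → ζ' = ζ ∧ n' = n := fun ζ' n' h' =>
    badRel_div (h'.symm.trans hn)
  by_cases hRN : RN K lam x1 c ζ
  · refine ⟨c, ex_refl hc.1, h, hh, hrefl c (hex0 c hc) h hh, 0, hw0, ?_⟩
    refine hmem h 0 c ⟨hc, hh, hw0, fun ζ' n' h' => ?_⟩
    obtain ⟨rfl, rfl⟩ := huniq ζ' n' h'
    exact Or.inr hRN
  · unfold RN at hRN
    push Not at hRN
    obtain ⟨c', hc', N, hN, hlam, hx1, htr⟩ := hRN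
    have hc'1 : K.ex c' c1 := ex_trans hB.hc1.1 hc' hc
    by_cases hD : K.DO (K.V α) x0 (K.en α (enu (N ∩ Set.Iio lam) n))
    · obtain ⟨t0, ht0, ht0α⟩ := hB.hα
      obtain ⟨k, hk, -⟩ := hc'1.2.T t0 ht0
      obtain ⟨t, ht, htα⟩ : ∃ t ∈ c'.T, t.1 = α := ⟨_, hk, ht0α⟩
      subst htα
      obtain ⟨d, hd, hdle⟩ := hD.dense (c'.res t.1, h) ⟨hc'.1.res_mem ht, hh⟩
      have hdRS := hD.sub hd
      obtain ⟨c'', k1, k2, k3, k4, k5⟩ := exists_glue_fst hc'.1 ht hdRS.1 hdle.le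
      have hc''1 : K.ex c'' c1 := ex_trans hB.hc1.1 k1 hc'1
      have hq1 : c'' ∈ q d.2 h := mem_of_glue hB.code hdRS.1 hdRS.2 hh hdle.L ⟨k1.1, k4⟩ (hex0 c'' hc''1).2
      refine ⟨c'', ex_trans hc.1 k1 hc', d.2, hdRS.2, hq1, d.2, hdRS.2, ?_⟩
      refine hmem d.2 d.2 c'' ⟨hc''1, hdRS.2, hdRS.2, fun ζ' n' h' => ?_⟩
      obtain ⟨rfl, rfl⟩ := huniq ζ' n' h'
      refine Or.inl ⟨N, k1.2.C hN, hlam, hx1, htr, fun _ => ⟨d.1, hdRS.1, k4, hd, ?_⟩⟩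
      exact hrefl c'' (hex0 c'' hc''1) d.2 hdRS.2
    · refine ⟨c', hc', h, hh, hrefl c' (hex0 c' hc'1) h hh, 0, hw0, ?_⟩
      refine hmem h 0 c' ⟨hc'1, hh, hw0, fun ζ' n' h' => ?_⟩
      obtain ⟨rfl, rfl⟩ := huniq ζ' n' h'
      exact Or.inl ⟨N, hN, hlam, hx1, htr, fun hD' => absurd hD' hD⟩

end Code

end Pool.Agent.Lib.MP_8f49b0_lc.MM
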