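import Pool.Agent.Lib.MP_8f49b0_lc.MM.M.BadStat
import Pool.Agent.Lib.MP_8f49b0_lc.MM.M.BadRel

/-! # The bad case: contradiction (module M-BADFALSE)

Apply `SPQ` to `TT`, `RR`, `c1`, `h0`: this gives `c2`, `δ`, `h`. Extend `c2` (still called `c2`) such that there is `N ∈ c2.C` as in the definition of `TT` for `δ`, with `Bad K α x0 h0 N (c2.res α)`, and (`pos_of_mem`, glue) such that
`c2.res α ∈ q h h0`. Then `(c2.res α, h) ≤ (c2.res α, h0)`, and it is generic for `N` (contradiction): let `y ∈ N`, `K.en α y` dense open, `a' = (g', h') ≤ (c2.res α, h)`. Then `y < K.io α ≤ lam` (`K.en_out`). Glue `g'` into `c2`: `c5 ≤ c2`, `c5.res α = g'`,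
`c5 ∈ q h' h`. By `Fs2` there are `N'`, `K.cn N' ∈ N`, and `c6 ≤ c5` with `N' ∈ c6.C`, `y ∈ N'`; let `ζ` be the trace of `N'` (`Nice.exists_delta`, `ζ < δ` by `Nice.lt_of_mem`), `y = enu (N' ∩ Set.Iio lam) n`. Then
`ω * ζ + n < δ` (`Fs4`), and by the choice of `c2` there are `c7 ≤ c6`, `r'`, `β < δ` with `c7 ∈ q r' h'`, `c7 ∈ RR r' (ω * ζ + n) β`. Extend `c7` into the generating set of `RR`: `RN` is false, as `N' ∈ c7.C`; so there is `N'' ∈ c7.C` as in `RC` with the same trace `ζ`;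
`N'' ∩ Set.Iio lam = N' ∩ Set.Iio lam` (`Chain.inter_eq` for the node `(lam, x1)`), so `enu` gives `y`, and there is `g ∈ K.V α`, `c7 ≤ g`, `(g, β) ∈ K.en α y`, `c7 ∈ q r' β`. By `Fs3` (`β < δ`, so `β ∈ N`) there is `g'' ∈ K.V α` in `N` with `(g'', β) ∈ K.en α y`, and
`c8 ≤ c7, g''`. By `pos_of_mem3` there is `d ∈ K.V α`, `d ≤ c8.res α`, `d ∈ q r' h'`, `d ∈ q r' β`. `(d, r') ≤ (g', h'), (g'', β)`. -/

namespace Pool.Agent.Lib.MP_8f49b0_lc.MM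

namespace Code

variable {K : Code}

private theorem BadFalse_lt {ζ : O} (h : ζ < w1) (n : ℕ) : Ordinal.omega0 * ζ + n < w1 := by
  unfold w1 at h ⊢
  rw [← Cardinal.ord_aleph, Cardinal.lt_ord] at h ⊢
  have h1 : ζ.card ≤ Cardinal.aleph0 := by
    rw [← Order.lt_succ_iff, Cardinal.succ_aleph0]; exact h
  rw [← Cardinal.succ_aleph0, Order.lt_succ_iff, Ordinal.card_add, Ordinal.card_mul,
    Ordinal.card_omega0, Ordinal.card_nat]
  exact Cardinal.add_le_aleph0.2 ⟨(Cardinal.mul_le_max_of_aleph0_le_left le_rfl).trans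
    (max_le le_rfl h1), Cardinal.natCast_le_aleph0⟩

/-- a transitive node of a weaker condition -/
private theorem BadFalse_node {c' c : Pre} (h : K.le c' c) {t : O × O × O} (ht : t ∈ c.T) :
    ∃ h', (t.1, t.2.1, h') ∈ c'.T := by
  obtain ⟨h', h1, -⟩ := h.T t ht
  exact ⟨h', h1⟩

theorem BD_false {α x0 h0 : O} {c0 : Pre} {q : O → O → Set Pre} {lam x1 : O} {c1 : Pre} {Fs : List O → Set O}
    (hB : BD K α x0 h0 c0 q lam x1 c1 Fs) (hS : K.SPQ c0 q) : False := by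
  have hq := hB.hq
  have hcl := hB.cls
  have hx := hB.code
  have hh0 := hB.hh0
  have okc0 : K.Ok c0 := (mem_V.1 hcl.c0).2
  have okc1 : K.Ok c1 := hB.hc1.1
  obtain ⟨c2, hc2, δ, hδ, h, hh, hT, hqh, H⟩ := hS (TT K α x0 h0 lam x1 c1 Fs) (reg_TT hB)
    (RR K α x0 q lam x1 c1) (fun h ζ β => reg_RR hB h ζ β) c1 hB.hc1 (stat_TT hB) (down_RR hB)
    (total_RR hB) h0 hh0
  -- the countable node
  obtain ⟨c3, hc32, hc31, N, hNc3, hNcl, hlN, hxN, hNδ, hbad3⟩ := mem_rg_self hT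
  have ok3 : K.Ok c3 := hc32.1
  have hN : K.Nice N := ok3.chain.nice N hNc3
  -- the transitive node of height `α`
  obtain ⟨t1, ht1, ht1α⟩ := hB.hα
  obtain ⟨k3, hk3⟩ := BadFalse_node hc31.2 ht1
  -- the positive decision of `h ≤ h0`
  have hqh3 : c3 ∈ q h h0 := (hq.reg h h0).opn _ hqh _ hc32
  obtain ⟨d, hd, hdle, hdq⟩ := pos_of_mem hq hcl ok3 hk3 ht1α hh hh0 hqh3
  have hdle' : K.le d (c3.res t1.1) := by rw [ht1α]; exact hdle
  obtain ⟨c4, hc43, hc4res, ht4, -, -⟩ := exists_glue_fst ok3 hk3 (g := d) (by rw [ht1α]; exact hd) hdle'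
  have ok4 : K.Ok c4 := hc43.1
  have hpre : PreR K α x0 := preR_of_codeQ hq hx
  have h3V : c3.res α ∈ K.V α := by
    have := ok3.res_mem hk3
    simpa only [ht1α] using this
  have hbad : Bad K α x0 h0 N d := hbad3.anti hpre h3V hd hh0 hdle
  have okd : K.Ok d := (mem_V.1 hd).2
  have hRd : K.leR x0 (d, h) (d, h0) := ⟨le_refl_of_ok okd, (hx d hd h hh h0 hh0).2 (rq_of_mem hq hdq)⟩
  refine hbad.bad (d, h) ⟨hd, hh⟩ hRd ?_
  -- genericity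
  intro y hyN hDO a' ha' hle'
  obtain ⟨g', h'⟩ := a'
  have hg' : g' ∈ K.V α := ha'.1
  have hh' : h' < w1 := ha'.2
  have okg' : K.Ok g' := (mem_V.1 hg').2
  have hyio : y < K.io α := by
    by_contra hcon
    have hempty := K.en_out α y (not_lt.1 hcon)
    obtain ⟨e, he, -⟩ := hDO.dense (g', h') ha'
    rw [hempty] at he
    exact he
  have hylam : y < lam := hyio.trans_le hB.io
  have hc4res' : c4.res α = d := by
    have := hc4res
    simpa only [ht1α] using this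
  obtain ⟨c5, hc54, hc5res, ht5, hc5g, -⟩ := exists_glue_fst ok4 ht4 (g := g')
    (by simpa only [ht1α] using hg') (by simpa only [ht1α, hc4res'] using hle'.le)
  have ok5 : K.Ok c5 := hc54.1
  have hc5res' : c5.res α = g' := by
    have := hc5res
    simpa only [ht1α] using this
  have hc42 : K.ex c4 c2 := ex_trans hc2.1 hc43 hc32
  have hc52 : K.ex c5 c2 := ex_trans hc2.1 hc54 hc42
  have hc51 : K.ex c5 c1 := ex_trans okc1 hc52 hc2
  have hc50 : K.ex c5 c0 := ex_trans okc0 hc51 hB.hc1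
  have hqc5 : c5 ∈ q h' h := mem_of_glue hx hg' hh' hh hle'.L ⟨ok5, hc5g⟩ hc50.2
  have hNc5 : N ∈ c5.C := hc54.2.C (hc43.2.C hNc3)
  -- the smaller countable node
  obtain ⟨N', hN', hN'N, hlN', hxN', hyN', c6, hc65, hN'c6⟩ :=
    hB.Fs2 N hN hNcl hlN hxN y hyN c5 hc51 hNc5
  have ok6 : K.Ok c6 := hc65.1
  obtain ⟨ζ, hζ, hN'ζ⟩ := hN'.exists_delta
  have hζδ : ζ < δ := Nice.lt_of_mem hN hN' hN'N hζ hδ hN'ζ hNδ
  have hζN : ζ ∈ N := (hNδ ζ hζ).2 hζδ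
  have hrange : Set.range (enu (N' ∩ Set.Iio lam)) = N' ∩ Set.Iio lam :=
    enu_range (hN'.count.mono Set.inter_subset_left) ⟨y, hyN', hylam⟩
  obtain ⟨n, hn⟩ : y ∈ Set.range (enu (N' ∩ Set.Iio lam)) := by
    rw [hrange]; exact ⟨hyN', hylam⟩
  have hξδ : Ordinal.omega0 * ζ + n < δ :=
    (hNδ _ (BadFalse_lt hζ n)).1 (hB.Fs4 N hN hNcl ζ hζN n)
  have hc62 : K.ex c6 c2 := ex_trans hc2.1 hc65 hc52
  have hqc6 : c6 ∈ q h' h := (hq.reg h' h).opn _ hqc5 _ hc65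
  obtain ⟨c7, hc76, r', hr', hqc7, β, hβ, hRR⟩ := H _ hξδ h' hh' c6 hc62 hqc6
  have hβw : β < w1 := hβ.trans hδ
  obtain ⟨c8, hc87, hc81, -, -, hRR8⟩ := mem_rg_self hRR
  have ok8 : K.Ok c8 := hc87.1
  have hc86 : K.ex c8 c6 := ex_trans ok6 hc87 hc76
  have hN'c8 : N' ∈ c8.C := hc86.2.C hN'c6
  rcases hRR8 ζ n rfl with hRC | hRN
  swap
  · exact absurd hN'ζ (hRN c8 (ex_refl ok8) N' hN'c8 hlN' hxN')
  obtain ⟨N'', hN''c8, hlN'', hxN'', hN''ζ, hRC'⟩ := hRC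
  obtain ⟨hl, hl1⟩ := hB.hlam
  obtain ⟨k8, hk8⟩ := BadFalse_node hc81.2 hl1
  have hinter : N'' ∩ Set.Iio lam = N' ∩ Set.Iio lam :=
    ok8.chain.inter_eq hk8 hN''c8 hN'c8 hlN'' hlN' hζ hN''ζ hN'ζ
  rw [hinter, hn] at hRC'
  obtain ⟨g, hg, hc8g, hgβ, hqc8⟩ := hRC' hDO
  -- reflection
  have hc85 : K.ex c8 c5 := ex_trans ok5 hc86 hc65
  have hNc8 : N ∈ c8.C := hc85.2.C hNc5
  have hβN : β ∈ N := (hNδ β hβw).2 hβ
  obtain ⟨g'', hg'', hg''N, hg''β, c9, hc98, hc9g''⟩ :=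
    hB.Fs3 N hN hNcl y hyN β hβN c8 ok8 hNc8 g hg hc8g hgβ
  have ok9 : K.Ok c9 := hc98.1
  have okg'' : K.Ok g'' := (mem_V.1 hg'').2
  have hc95 : K.ex c9 c5 := ex_trans ok5 hc98 hc85
  have hc97 : K.ex c9 c7 := ex_trans hc76.1 hc98 hc87
  obtain ⟨k9, hk9⟩ := BadFalse_node hc95.2 ht5
  obtain ⟨e, he, hele, heq1, heq2, -⟩ := pos_of_mem3 hq hcl ok9 hk9 ht1α hr' hh' hr' hβw hr' hβw
    ((hq.reg r' h').opn _ hqc7 _ hc97) ((hq.reg r' β).opn _ hqc8 _ hc98)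
    ((hq.reg r' β).opn _ hqc8 _ hc98)
  have oke : K.Ok e := (mem_V.1 he).2
  have ok9r : K.Ok (c9.res α) := ok9.res α
  have heg' : K.le e g' := by
    refine le_trans_of_ok oke ok9r okg' hele ?_
    have := hc95.2.res α
    rwa [hc5res'] at this
  have heg'' : K.le e g'' :=
    le_trans_of_ok oke ok9r okg'' hele (res_le_of_le (mem_V.1 hg'').1 hc9g'')
  refine ⟨(e, r'), ⟨he, hr'⟩, ⟨heg', (hx e he r' hr' h' hh').2 (rq_of_mem hq heq1)⟩, (g'', β), hg''β,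
    ⟨hg''N, hβN⟩, ⟨heg'', (hx e he r' hr' β hβw).2 (rq_of_mem hq heq2)⟩⟩

end Code

end Pool.Agent.Lib.MP_8f49b0_lc.MM
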