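import Pool.Agent.Lib.MP_8f49b0_lc.MM.M.Reg
import Pool.Agent.Lib.MP_8f49b0_lc.MM.J.Cls

/-! # Closed levels for names (module M-CLSEX)

`exists_ClsQ`: `exists_cls` for `X = Pre`, `D g' = {c | K.le c g'}` (parameters: `PIn_Iio`), and for `X = O × O`, `D (h', h) = {c | c ∈ q h' h ∨ ∀ c', K.ex c' c → c' ∉ q h' h}`
(`decide_ex`); take the maximum of the two functions (ordinals below `w1` belong to `Set.Iio α`). `exists_ClsD`: `X = O × O`. -/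

namespace Pool.Agent.Lib.MP_8f49b0_lc.MM

namespace Code

variable {K : Code}

theorem exists_ClsQ (c0 : Pre) (q : O → O → Set Pre) :
    ∃ f : O → O, ∀ α, K.Tr α → (∀ β < α, f β < α) → c0 ∈ K.V α → K.ClsQ α c0 q := by
  obtain ⟨f1, h1⟩ := K.exists_cls (X := Pre) (fun g' => {c | K.le c g'})
  obtain ⟨f2, h2⟩ := K.exists_cls (X := O × O)
    (fun p => {c | c ∈ q p.1 p.2 ∨ ∀ c', K.ex c' c → c' ∉ q p.1 p.2})
  refine ⟨fun β => max (f1 β) (f2 β), fun α hα hf hc0 => ⟨hα, hc0, ?_, ?_⟩⟩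
  · rintro g hg g' hg' ⟨c, hc, hc'⟩
    exact h1 α hα (fun β hβ => (le_max_left _ _).trans_lt (hf β hβ)) g' (K.PIn_Iio hα hg') g hg
      ⟨c, hc, hc'⟩
  · intro h' hh' h hh g hg
    obtain ⟨c, hc, hc'⟩ := decide_ex (q h' h) (mem_V.1 hg).2
    exact h2 α hα (fun β hβ => (le_max_right _ _).trans_lt (hf β hβ)) (h', h)
      ⟨hh'.trans hα.w1, hh.trans hα.w1⟩ g hg ⟨c, hc, hc'⟩

theorem exists_ClsD {c0 : Pre} {q D : O → O → Set Pre} (hD : K.DenQ c0 q D) :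
    ∃ f : O → O, ∀ α, K.Tr α → (∀ β < α, f β < α) → K.ClsD α c0 q D := by
  obtain ⟨f, h1⟩ := K.exists_cls (X := O × O)
    (fun p => {c | ∃ h' < w1, c ∈ q h' p.2 ∧ c ∈ D p.1 h'})
  refine ⟨f, fun α hα hf i hi h hh g hg hgc => ?_⟩
  obtain ⟨c, hc, hc'⟩ := hD.dense i hi h hh g ⟨(mem_V.1 hg).2, hgc⟩
  exact h1 α hα hf (i, h) ⟨hi.trans hα.w1, hh.trans hα.w1⟩ g hg ⟨c, hc, hc'⟩

/-- unboundedly many levels are closed under two functions -/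
theorem exists_tr2 (f g : O → O) (γ : O) :
    ∃ α, γ < α ∧ K.Tr α ∧ (∀ β < α, f β < α) ∧ ∀ β < α, g β < α := by
  obtain ⟨α, h1, h2, h3⟩ := K.exists_tr (fun β => max (f β) (g β)) γ
  exact ⟨α, h1, h2, fun β hβ => (le_max_left _ _).trans_lt (h3 β hβ),
    fun β hβ => (le_max_right _ _).trans_lt (h3 β hβ)⟩

end Code

end Pool.Agent.Lib.MP_8f49b0_lc.MM
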