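import Pool.Agent.Lib.MP_8f49b0_lc.MM.M.RQ
import Pool.Agent.Lib.MP_8f49b0_lc.MM.I.GoodBot

/-! # The filter added at a good node (module M-FILGOOD), (5.1) of the paper, last part

`c2`: `add_tr` for `c1`, `(α, x, 0)`. `G h = K.rg {c | K.Ok c ∧ h < w1 ∧ ∃ k, (α, x, k) ∈ c.T ∧ K.L x (c.res α) k h}` (an open set: `Good.mono`, `Good.trans`). For `c ≤ c2`: `c.res α ∈ K.V α` is `≤ c1 ≤ c0`, `(c.res α, k)`.
`up`: `pos_of_mem` for `c ∈ q h h'`, glue, `trans`. `dir`: `h'' = k`; `mem_of_glue`. `meet`: `ClsD` for `c.res α`, `k`, then `exists_glue` for `(d, h')`. -/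

namespace Pool.Agent.Lib.MP_8f49b0_lc.MM

namespace Code

variable {K : Code}

/-- the generating set of the filter -/
private def FGset (K : Code) (α x : O) (h : O) : Set Pre :=
  {c | K.Ok c ∧ h < w1 ∧ ∃ k, (α, x, k) ∈ c.T ∧ K.L x (c.res α) k h}

private theorem FG_res_mem {α x k : O} {c : Pre} (hc : K.Ok c) (h : (α, x, k) ∈ c.T) : c.res α ∈ K.V α :=
  hc.res_mem h

private theorem FG_open {α x : O} (hx : K.Good (K.V α) α x) {h : O} :
    ∀ c ∈ FGset K α x h, ∀ c', K.ex c' c → c' ∈ FGset K α x h := by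
  rintro c ⟨hc, hh, k, hk, hL⟩ c' hc'
  obtain ⟨k', hk', hL'⟩ := hc'.2.T _ hk
  have hkw : k < w1 := (hc.chain.tr _ hk).2
  have hkw' : k' < w1 := (hc'.1.chain.tr _ hk').2
  have h1 : c.res α ∈ K.V α := hc.res_mem hk
  have h2 : c'.res α ∈ K.V α := hc'.1.res_mem hk'
  refine ⟨hc'.1, hh, k', hk', ?_⟩
  exact hx.trans _ h2 h hh k hkw k' hkw' hL' (hx.mono _ h1 _ h2 (hc'.2.res α) k hkw h hh hL)

theorem fil_of_good {α x : O} {c0 : Pre} {q D : O → O → Set Pre} (hq : K.PreQ c0 q) (hcl : K.ClsQ α c0 q)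
    (hD : ∀ i h, K.Reg (D i h)) (hclD : K.ClsD α c0 q D) (hx : K.Good (K.V α) α x) (hL : K.CodeQ α x c0 q)
    {c1 : Pre} (hc1 : c1 ∈ K.V α) (h10 : K.le c1 c0) : ∃ c2, K.ex c2 c1 ∧ ∃ G, K.FilQ c2 q D G := by
  have hok : ∀ {g : Pre}, g ∈ K.V α → K.Ok g := fun {g} hg => (mem_V.1 hg).2
  have h0w : (0 : O) < w1 := Ordinal.omega_pos 1
  obtain ⟨c2, hc21, hn2, -, hr2, hr2V, -, -⟩ := add_tr hc1 hcl.tr hx h0w
  have hc20 : K.ex c2 c0 := ⟨hc21.1, le_trans_of_ok hc21.1 (hok hc1) (hok hcl.c0) hc21.2 h10⟩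
  -- a condition below `c2` has the node
  have hnode : ∀ c, K.ex c c2 → ∃ k, (α, x, k) ∈ c.T := by
    intro c hc
    obtain ⟨k, hk, -⟩ := hc.2.T _ hn2
    exact ⟨k, hk⟩
  have hres0 : ∀ c, K.ex c c2 → K.le (c.res α) c0 := by
    intro c hc
    have e1 : K.le (c.res α) (c2.res α) := hc.2.res α
    have e2 : K.le (c.res α) c1 := le_trans_of_ok (hc.1.res α) (hc21.1.res α) (hok hc1) e1 hr2
    exact le_trans_of_ok (hc.1.res α) (hok hc1) (hok hcl.c0) e2 h10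
  have hlec0 : ∀ c, K.ex c c2 → K.le c c0 := fun c hc => (ex_trans (hok hcl.c0) hc hc20).2
  refine ⟨c2, hc21, fun h => K.rg (FGset K α x h), ?_, ?_, ?_, ?_, ?_⟩
  · intro h
    exact reg_rg (FG_open hx)
  · -- top
    refine subset_rg (fun c hc => hc.1) (FG_open hx) ⟨hc21.1, h0w, 0, hn2, hx.refl _ hr2V 0 h0w⟩
  · -- up
    intro h hh h' hh' c hc hcG hcq
    refine ⟨hc.1, fun c' hc' => ?_⟩
    obtain ⟨c'', hc''c', hc''⟩ := hcG.2 c' hc'
    obtain ⟨hok'', -, k, hk, hLk⟩ := hc''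
    have hc''c : K.ex c'' c := ex_trans hc.1 hc''c' hc'
    have hkw : k < w1 := (hok''.chain.tr _ hk).2
    have hcq'' : c'' ∈ q h h' := (hq.reg h h').opn c hcq c'' hc''c
    obtain ⟨d, hd, hdc, hdq⟩ := pos_of_mem hq hcl hok'' hk rfl hh hh' hcq''
    obtain ⟨e, hec'', her, het, hed, -⟩ := exists_glue_fst hok'' hk (g := d) hd hdc
    refine ⟨e, ex_trans hc'.1 hec'' hc''c', hec''.1, hh', k, het, ?_⟩
    change e.res α = d at her
    rw [her]
    have h1 : K.L x d k h := hx.mono _ (FG_res_mem hok'' hk) _ hd hdc k hkw h hh hLk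
    have h2 : K.L x d h h' := (hL d hd h hh h' hh').2 (rq_of_mem hq hdq)
    exact hx.trans d hd h' hh' h hh k hkw h1 h2
  · -- dir
    intro h hh h' hh' c hc hcG hcG'
    obtain ⟨c', hc'c, hc'1⟩ := mem_rg_self hcG
    have hcG'' : c' ∈ K.rg (FGset K α x h') := (reg_rg (FG_open hx)).opn c hcG' c' hc'c
    obtain ⟨c'', hc''c', hc''2⟩ := mem_rg_self hcG''
    have hc''1 : c'' ∈ FGset K α x h := FG_open hx c' hc'1 c'' hc''c'
    have hc''c : K.ex c'' c := ex_trans hc.1 hc''c' hc'c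
    have hc''2' : K.ex c'' c2 := ex_trans hc21.1 hc''c hc
    obtain ⟨hok'', -, k, hk, hLk⟩ := hc''1
    obtain ⟨-, -, k', hk', hLk'⟩ := hc''2
    have hkk : k' = k := by
      have := hok''.chain.eq _ hk' _ hk rfl
      simpa using this
    subst hkk
    have hkw : k' < w1 := (hok''.chain.tr _ hk).2
    have hV : c''.res α ∈ K.V α := FG_res_mem hok'' hk
    have hexr : K.ex c'' (c''.res α) := ⟨hok'', hok''.le_res α⟩
    refine ⟨c'', hc''c, k', hkw, ?_, ?_, ?_⟩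
    · exact subset_rg (fun c hc => hc.1) (FG_open hx) ⟨hok'', hkw, k', hk, hx.refl _ hV k' hkw⟩
    · exact mem_of_glue hL hV hkw hh hLk hexr (hlec0 c'' hc''2')
    · exact mem_of_glue hL hV hkw hh' hLk' hexr (hlec0 c'' hc''2')
  · -- meet
    intro i hi c hc
    obtain ⟨k, hk⟩ := hnode c hc
    have hkw : k < w1 := (hc.1.chain.tr _ hk).2
    have hV : c.res α ∈ K.V α := FG_res_mem hc.1 hk
    obtain ⟨d, hd, hdc, h', hh', hdq, hdD⟩ := hclD i hi k hkw _ hV (hres0 c hc)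
    have hLd : K.L x d h' k := (hL d hd h' hh' k hkw).2 (rq_of_mem hq hdq)
    obtain ⟨e, hec, her, het, hed, -⟩ := exists_glue hc.1 hk (a := (d, h')) ⟨hd, hh'⟩ ⟨hdc, hLd⟩
    change e.res α = d at her
    refine ⟨e, hec, h', hh', ?_, ?_⟩
    · refine subset_rg (fun c hc => hc.1) (FG_open hx) ⟨hec.1, hh', h', het, ?_⟩
      rw [her]
      exact hx.refl _ hd h' hh'
    · exact (hD i h').opn d hdD e ⟨hec.1, hed⟩

end Code

end Pool.Agent.Lib.MP_8f49b0_lc.MM
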