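import Pool.Agent.Lib.MP_8f49b0_lc.MM.M.RQ
import Pool.Agent.Lib.MP_8f49b0_lc.MM.J.Trivial

/-! # From the iteration with a name to the iteration at a level (module M-INCRQ)

Let `Z`, `a0 = (g0, h0)` be as in `Inc`. Case 1: some `g ∈ K.V α` is `≤ g0, c0`; let `x'` be a trivial good node at `α` (`exists_trivial`) and `c1` the condition with the nodes of `g` and `(α, x', 0)` (`add_tr`). Apply `IncQ` to `c1`, `h0` and the set `Z`
(rearranged): for `c ≤ c1` with `c ∈ q h h0` there is (`pos_of_mem`) `d ≤ c.res α` in `K.V α` with `d ∈ q h h0`, so `(d, h) ≤ (g, h0)`; the hypothesis gives `z ∈ Z` and `(d', h') ≤ (d, h), z.1`; glue `d'` into `c`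
(`exists_glue_fst`, `mem_of_glue`). The result `c'` of `IncQ` is turned back into `d ∈ K.V α` by `pos_of_mem3`; `(c'.res α).u = c'.u`.
Case 2: otherwise the relation coded by `x` is trivial below `g0`: no extension of `g0` is `≤ c0` (`ClsQ.cmp`); apply `inc_PB (some α)` to the first coordinates. -/

namespace Pool.Agent.Lib.MP_8f49b0_lc.MM

namespace Code

variable {K : Code}

theorem inc_RQ {α x : O} {c0 : Pre} {q : O → O → Set Pre} (hq : K.PreQ c0 q) (hcl : K.ClsQ α c0 q) (hi : K.IncQ c0 q)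
    (hx : K.CodeQ α x c0 q) : K.Inc (K.V α) x := by
  intro ι _ Z hZ a0 ha0 h
  have hok : ∀ {g : Pre}, g ∈ K.V α → K.Ok g := fun {g} hg => (mem_V.1 hg).2
  have hbel : ∀ {g : Pre}, g ∈ K.V α → Below α g := fun {g} hg => (mem_V.1 hg).1
  have h0w : (0 : O) < w1 := lt_of_le_of_lt (zero_le) ha0.2
  by_cases hcase : ∃ g ∈ K.V α, K.le g a0.1 ∧ K.le g c0
  · obtain ⟨g, hg, hga, hgc⟩ := hcase
    obtain ⟨x', hx'g, -⟩ := K.exists_trivial hcl.tr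
    obtain ⟨c1, hc1g, hn1, -, hr1, hr1V, -, -⟩ := add_tr hg hcl.tr hx'g h0w
    have hc1c0 : K.ex c1 c0 := ⟨hc1g.1, le_trans_of_ok hc1g.1 (hok hg) (hok hcl.c0) hc1g.2 hgc⟩
    -- extensions of c1 have a node of height α and restriction below a0.1
    have hnode : ∀ c, K.ex c c1 → ∃ k, (α, x', k) ∈ c.T := by
      intro c hc
      obtain ⟨k, hk, -⟩ := hc.2.T _ hn1
      exact ⟨k, hk⟩
    have hresa : ∀ c, K.ex c c1 → ∀ d, K.Ok d → K.le d (c.res α) → K.le d a0.1 := by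
      intro c hc d hd hdc
      have e1 : K.le (c.res α) (c1.res α) := hc.2.res α
      have e2 : K.le d (c1.res α) := le_trans_of_ok hd (hc.1.res α) (hc1g.1.res α) hdc e1
      have e3 : K.le d g := le_trans_of_ok hd (hc1g.1.res α) (hok hg) e2 hr1
      exact le_trans_of_ok hd (hok hg) (hok ha0.1) e3 hga
    obtain ⟨z1, hz1, z2, hz2, c', hc'c1, hc'z1, hc'z2, hLt, h', hh', hq0, hq1, hq2⟩ :=
      hi ι {z | ((z.1, z.2.1), z.2.2) ∈ Z} (fun z hz => ⟨hok (hZ _ hz).1, (hZ _ hz).2⟩) c1 hc1c0 a0.2 ha0.2 (by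
        intro c hc k hk hck γ hγ
        obtain ⟨k1, hk1⟩ := hnode c hc
        obtain ⟨d, hd, hdc, hdq⟩ := pos_of_mem hq hcl hc.1 hk1 rfl hk ha0.2 hck
        have hda : K.leR x (d, k) a0 := ⟨hresa c hc d (hok hd) hdc, (hx d hd k hk a0.2 ha0.2).2 (rq_of_mem hq hdq)⟩
        obtain ⟨z, hz, hzγ, a', ha', ha'd, ha'z⟩ := h (d, k) ⟨hd, hk⟩ hda γ hγ
        refine ⟨(z.1.1, z.1.2, z.2), hz, hzγ, ?_⟩
        have ha'c : K.le a'.1 (c.res α) := le_trans_of_ok (hok ha'.1) (hok hd) (hc.1.res α) ha'd.le hdc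
        obtain ⟨c', hc'c, -, -, hc'a, -⟩ := exists_glue_fst hc.1 hk1 (g := a'.1) ha'.1 ha'c
        have hc'c0 : K.le c' c0 := (ex_trans (hok hcl.c0) (ex_trans hc1c0.1 hc'c hc) hc1c0).2
        refine ⟨c', hc'c, le_trans_of_ok hc'c.1 (hok ha'.1) (hok (hZ z hz).1) hc'a ha'z.le, a'.2, ha'.2, ?_, ?_⟩
        · exact mem_of_glue hx ha'.1 ha'.2 hk ha'd.L ⟨hc'c.1, hc'a⟩ hc'c0
        · exact mem_of_glue hx ha'.1 ha'.2 (hZ z hz).2 ha'z.L ⟨hc'c.1, hc'a⟩ hc'c0)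
    obtain ⟨k1, hk1⟩ := hnode c' hc'c1
    obtain ⟨d, hd, hdc, hd0, hd1, hd2⟩ := pos_of_mem3 hq hcl hc'c1.1 hk1 rfl hh' ha0.2 hh' (hZ _ hz1).2 hh' (hZ _ hz2).2
      hq0 hq1 hq2
    refine ⟨_, hz1, _, hz2, (d, h'), ⟨hd, hh'⟩, ⟨hresa c' hc'c1 d (hok hd) hdc, (hx d hd h' hh' a0.2 ha0.2).2 (rq_of_mem hq hd0)⟩,
      ⟨?_, (hx d hd h' hh' _ (hZ _ hz1).2).2 (rq_of_mem hq hd1)⟩,
      ⟨?_, (hx d hd h' hh' _ (hZ _ hz2).2).2 (rq_of_mem hq hd2)⟩, ?_⟩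
    · exact le_trans_of_ok (hok hd) (hc'c1.1.res α) (hok (hZ _ hz1).1) hdc (res_le_of_le (hbel (hZ _ hz1).1) hc'z1)
    · exact le_trans_of_ok (hok hd) (hc'c1.1.res α) (hok (hZ _ hz2).1) hdc (res_le_of_le (hbel (hZ _ hz2).1) hc'z2)
    · exact hLt.mono (by
        have := hdc.u
        rwa [res_u] at this)
  · push Not at hcase
    have htriv : ∀ g ∈ K.V α, K.le g a0.1 → ∀ h' < w1, ∀ k < w1, K.L x g h' k := by
      intro g hg hga h' hh' k hk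
      refine (hx g hg h' hh' k hk).2 ?_
      intro c hc hcc0
      exfalso
      obtain ⟨d, hd, hdg, hdc0⟩ := hcl.cmp g hg c0 hcl.c0 ⟨c, hc, hcc0⟩
      exact hcase d hd (le_trans_of_ok (hok hd) (hok hg) (hok ha0.1) hdg hga) hdc0
    obtain ⟨z1, hz1, z2, hz2, a', ha', h1, h2, h3, h4⟩ := inc_PB K (some α) (fun β hβ => by
      obtain rfl : α = β := by simpa using hβ
      exact hcl.tr) ι {w | ∃ z ∈ Z, w = (z.1.1, z.2)} (by
        rintro w ⟨z, hz, rfl⟩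
        rw [PB_some]
        exact (hZ z hz).1) a0.1 (by rw [PB_some]; exact ha0.1) (by
        intro a ha haa γ hγ
        rw [PB_some] at ha
        obtain ⟨z, hz, hzγ, a', ha', ha'a, ha'z⟩ := h (a, a0.2) ⟨ha, ha0.2⟩ ⟨haa, htriv a ha haa _ ha0.2 _ ha0.2⟩ γ hγ
        refine ⟨(z.1.1, z.2), ⟨z, hz, rfl⟩, hzγ, a'.1, ?_, ha'a.le, ha'z.le⟩
        rw [PB_some]
        exact ha'.1)
    obtain ⟨y1, hy1, rfl⟩ := hz1
    obtain ⟨y2, hy2, rfl⟩ := hz2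
    rw [PB_some] at ha'
    exact ⟨y1, hy1, y2, hy2, (a', 0), ⟨ha', h0w⟩, ⟨h1, htriv a' ha' h1 0 h0w _ ha0.2⟩,
      ⟨h2, htriv a' ha' h1 0 h0w _ (hZ y1 hy1).2⟩, ⟨h3, htriv a' ha' h1 0 h0w _ (hZ y2 hy2).2⟩, h4⟩

end Code

end Pool.Agent.Lib.MP_8f49b0_lc.MM
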