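import Pool.Agent.Lib.MP_8f49b0_lc.MM.M.BadEx
import Pool.Agent.Lib.MP_8f49b0_lc.MM.M.BadFalse
import Pool.Agent.Lib.MP_8f49b0_lc.MM.M.IncRQ
import Pool.Agent.Lib.MP_8f49b0_lc.MM.M.FilGood
import Pool.Agent.Lib.MP_8f49b0_lc.MM.M.ClsEx

/-! # The theorem on filters for names with `SPQ` and `IncQ` (module M-GM), (5.1) of the paper

`exists_goodQ`: by contradiction and `exists_BD`, `BD_false` the hypothesis of `hp_of_fine` holds; then `mk_good` (`preR_of_codeQ`, `inc_RQ`). `gm`: `exists_ClsQ`, `exists_ClsD`, `exists_tr2` (above a bound of `c0`),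
`exists_codeQ`, `exists_goodQ`, `same_of_codeQ`, `fil_of_good`. -/

namespace Pool.Agent.Lib.MP_8f49b0_lc.MM

namespace Code

variable {K : Code}

theorem exists_goodQ {α : O} {c0 : Pre} {q : O → O → Set Pre} (hc0 : K.Ok c0) (hq : K.PreQ c0 q) (hcl : K.ClsQ α c0 q)
    (hS : K.SPQ c0 q) (hI : K.IncQ c0 q) : ∃ x, K.Good (K.V α) α x ∧ K.CodeQ α x c0 q := by
  obtain ⟨x0, hx0⟩ := exists_codeQ (K := K) α c0 q
  have hpre := preR_of_codeQ hq hx0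
  have hfine : ∀ h < w1, ∀ g ∈ K.V α, ∃ g1 ∈ K.V α, K.le g1 g ∧ Fine K α x0 h g1 := by
    intro h hh g hg
    by_contra hcon
    obtain ⟨lam, x1, c1, Fs, hB⟩ := exists_BD hc0 hq hcl hx0 hh hg
      (fun g1 hg1 hle hf => hcon ⟨g1, hg1, hle, hf⟩)
    exact BD_false hB hS
  obtain ⟨F1, hF1, hp⟩ := hp_of_fine hcl.tr hpre hfine
  obtain ⟨x, hsame, hgood⟩ := K.mk_good hcl.tr hpre (inc_RQ hq hcl hI hx0) F1 hF1 hp
  exact ⟨x, hgood, same_of_codeQ hx0 hsame⟩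

theorem gm {c0 : Pre} {q D : O → O → Set Pre} (hc0 : K.Ok c0) (hq : K.PreQ c0 q) (hS : K.SPQ c0 q) (hI : K.IncQ c0 q)
    (hD : K.DenQ c0 q D) : ∃ c1, K.ex c1 c0 ∧ ∃ G, K.FilQ c1 q D G := by
  obtain ⟨f, hf⟩ := exists_ClsQ (K := K) c0 q
  obtain ⟨f', hf'⟩ := exists_ClsD hD
  obtain ⟨γ, -, hγ⟩ := hc0.exists_below 0
  obtain ⟨α, h1, h2, h3, h4⟩ := exists_tr2 (K := K) f f' γ
  have hc0V : c0 ∈ K.V α := mem_V.2 ⟨hγ.mono h1.le, hc0⟩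
  have hcl := hf α h2 h3 hc0V
  have hclD := hf' α h2 h4
  obtain ⟨x, hx, hL⟩ := exists_goodQ hc0 hq hcl hS hI
  exact fil_of_good hq hcl hD.reg hclD hx hL hc0V (le_refl_of_ok hc0)

end Code

end Pool.Agent.Lib.MP_8f49b0_lc.MM
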