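import Pool.Agent.Lib.MP_8f49b0_lc.MM.M.ClubDefs

/-! # Adding a top (module M-NOTOP)

For `h ≠ 0`, `h < w1`: `h - 1 < w1`, `1 + (h - 1) = h` (`Ordinal.add_sub_cancel_of_le`), `(1 + ξ) - 1 = ξ` (`Ordinal.add_sub_cancel`). `spqc_tq`: given `C` for `K.tq q` use `C' h δ = C (1 + h) δ` for `q`; replace `h0 = 0` by `1`. -/

namespace Pool.Agent.Lib.MP_8f49b0_lc.MM

namespace Code

variable {K : Code}

private theorem notop_lt {h : O} (hh : h < w1) : 1 + h < w1 := by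
  rcases lt_or_ge h Ordinal.omega0 with h1 | h1
  · exact (Ordinal.isPrincipal_add_omega0 Ordinal.one_lt_omega0 h1).trans_le (Ordinal.omega0_le_omega 1)
  · rw [Ordinal.one_add_of_omega0_le h1]
    exact hh

private theorem notop_sub_lt {h : O} (hh : h < w1) : h - 1 < w1 := (Ordinal.sub_le_self h 1).trans_lt hh

private theorem notop_ne (h : O) : 1 + h ≠ 0 := by
  intro h1
  have h2 : (1 : O) ≤ 1 + h := le_add_right le_rfl
  rw [h1] at h2
  exact absurd h2 (not_le.2 zero_lt_one)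

private theorem notop_add_sub (h : O) : 1 + h - 1 = h := Ordinal.add_sub_cancel 1 h

private theorem notop_sub_add {h : O} (hh : h ≠ 0) : 1 + (h - 1) = h :=
  Ordinal.add_sub_cancel_of_le (Order.one_le_iff_pos.2 (pos_iff_ne_zero.2 hh))

private theorem notop_mem {q : O → O → Set Pre} {h' h : O} {c : Pre} :
    c ∈ K.tq q h' (1 + h) ↔ K.Ok c ∧ h' ≠ 0 ∧ c ∈ q (h' - 1) h := by
  unfold tq
  simp only [Set.mem_setOf_eq, notop_add_sub, notop_ne, false_or]

private theorem notop_mem1 {q : O → O → Set Pre} {h' h : O} {c : Pre} (h1 : K.Ok c) (h2 : c ∈ q h' (h - 1)) :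
    c ∈ K.tq q (1 + h') h := by
  refine ⟨h1, Or.inr ⟨notop_ne h', ?_⟩⟩
  rwa [notop_add_sub]

private theorem notop_reg_empty : K.Reg (∅ : Set Pre) := by
  refine ⟨fun c hc => absurd hc (Set.notMem_empty c), fun c hc => absurd hc (Set.notMem_empty c), fun c hc h => ?_⟩
  obtain ⟨c'', -, h2⟩ := h c (ex_refl hc)
  exact h2

theorem preQ_tq {c0 : Pre} {q : O → O → Set Pre} (hc0 : K.Ok c0) (hq : K.PreQ0 c0 q) : K.PreQ c0 (K.tq q) := by
  refine ⟨fun h' h => ?_, fun h hh => ?_, fun h'' hh'' h' hh' h hh c hc h1 h2 => ?_, fun h hh => ⟨hc0, Or.inl rfl⟩⟩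
  · by_cases h0 : h = 0
    · have : K.tq q h' h = {c | K.Ok c} := by
        ext c
        simp [tq, h0]
      rw [this]
      exact reg_all
    · by_cases h0' : h' = 0
      · have : K.tq q h' h = ∅ := by
          ext c
          simp [tq, h0, h0']
        rw [this]
        exact notop_reg_empty
      · have : K.tq q h' h = q (h' - 1) (h - 1) := by
          ext c
          simp only [tq, Set.mem_setOf_eq, h0, false_or, ne_eq, h0', not_false_eq_true, true_and]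
          exact ⟨fun h => h.2, fun h => ⟨(hq.reg _ _).ok c h, h⟩⟩
        rw [this]
        exact hq.reg _ _
  · by_cases h0 : h = 0
    · exact ⟨hc0, Or.inl h0⟩
    · exact ⟨hc0, Or.inr ⟨h0, hq.refl _ (notop_sub_lt hh)⟩⟩
  · refine ⟨hc.1, ?_⟩
    rcases h2.2 with h3 | ⟨h3, h4⟩
    · exact Or.inl h3
    · rcases h1.2 with h5 | ⟨h5, h6⟩
      · exact absurd h5 h3
      · exact Or.inr ⟨h5, hq.trans _ (notop_sub_lt hh'') _ (notop_sub_lt hh') _ (notop_sub_lt hh) c hc h6 h4⟩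

theorem spqc_tq {c0 : Pre} {q : O → O → Set Pre} (hc0 : K.Ok c0) (hq : K.PreQ0 c0 q) (hS : K.SPQc c0 q) :
    K.SPQc c0 (K.tq q) := by
  intro S hSreg C hCreg c1 hc1 hstat hmono hregC h0 hh0 hunb hcl
  have hok : ∀ h' h c, c ∈ q h' h → K.Ok c := fun h' h c hc => (hq.reg h' h).ok c hc
  obtain ⟨c2, hc2, h, hh, hqh, δ, hδ, h1, h2⟩ := hS S hSreg (fun h δ => C (1 + h) δ) (fun h δ => hCreg _ _) c1 hc1 hstat
    (by
      intro h' hh' h hh δ hδ c hc h1 h2
      refine hmono (1 + h') (notop_lt hh') (1 + h) (notop_lt hh) δ hδ c hc ?_ h2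
      exact notop_mem1 hc.1 (by rwa [notop_add_sub]))
    (by
      intro h hh δ hδ c hc hyp
      refine hregC (1 + h) (notop_lt hh) δ hδ c hc ?_
      intro c' hc' r hr hcr
      obtain ⟨h1, h2, h3⟩ := notop_mem.1 hcr
      obtain ⟨c'', hc'', r', hr', h4, h5⟩ := hyp c' hc' (r - 1) (notop_sub_lt hr) h3
      exact ⟨c'', hc'', 1 + r', notop_lt hr', notop_mem1 (hok _ _ _ h4) h4, h5⟩)
    (h0 - 1) (notop_sub_lt hh0)
    (by
      intro γ hγ c hc h hh h1
      obtain ⟨c', hc', h', hh', h2, δ, hδ, h3, h4⟩ := hunb γ hγ c hc (1 + h) (notop_lt hh) (notop_mem1 hc.1 h1)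
      obtain ⟨h5, h6, h7⟩ := notop_mem.1 h2
      refine ⟨c', hc', h' - 1, notop_sub_lt hh', h7, δ, hδ, h3, ?_⟩
      rw [notop_sub_add h6]
      exact h4)
    (by
      intro δ hδ hδ0 c hc h hh h1 hyp
      refine hcl δ hδ hδ0 c hc (1 + h) (notop_lt hh) (notop_mem1 hc.1 h1) ?_
      intro γ hγ c' hc' r hr hcr
      obtain ⟨h1, h2, h3⟩ := notop_mem.1 hcr
      obtain ⟨c'', hc'', r', hr', h4, ε, hε, h5, h6⟩ := hyp γ hγ c' hc' (r - 1) (notop_sub_lt hr) h3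
      exact ⟨c'', hc'', 1 + r', notop_lt hr', notop_mem1 (hok _ _ _ h4) h4, ε, hε, h5, h6⟩)
  exact ⟨c2, hc2, 1 + h, notop_lt hh, notop_mem1 hc2.1 hqh, δ, hδ, h1, h2⟩

theorem denQ_tq {c0 : Pre} {q D : O → O → Set Pre} (hc0 : K.Ok c0) (hq : K.PreQ0 c0 q) (hD : K.DenQ c0 q D) :
    K.DenQ c0 (K.tq q) (fun i h => {c | h ≠ 0 ∧ c ∈ D i (h - 1)}) := by
  refine ⟨fun i h => ?_, fun i hi h hh c hc => ?_⟩
  · by_cases h0 : h = 0
    · have : {c | h ≠ 0 ∧ c ∈ D i (h - 1)} = ∅ := by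
        ext c
        simp [h0]
      show K.Reg {c | h ≠ 0 ∧ c ∈ D i (h - 1)}
      rw [this]
      exact notop_reg_empty
    · have : {c | h ≠ 0 ∧ c ∈ D i (h - 1)} = D i (h - 1) := by
        ext c
        simp [h0]
      show K.Reg {c | h ≠ 0 ∧ c ∈ D i (h - 1)}
      rw [this]
      exact hD.reg _ _
  · obtain ⟨c', hc', h', hh', h1, h2⟩ := hD.dense i hi (h - 1) (notop_sub_lt hh) c hc
    refine ⟨c', hc', 1 + h', notop_lt hh', notop_mem1 hc'.1 h1, notop_ne h', ?_⟩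
    rwa [notop_add_sub]

theorem filQ_tq {c1 : Pre} {q D : O → O → Set Pre} {G : O → Set Pre} (hq : K.PreQ0 c1 q)
    (hG : K.FilQ c1 (K.tq q) (fun i h => {c | h ≠ 0 ∧ c ∈ D i (h - 1)}) G) : K.FilQ0 c1 q D (fun h => G (1 + h)) := by
  refine ⟨fun h => hG.reg _, fun h hh h' hh' c hc h1 h2 => ?_, fun h hh h' hh' c hc h1 h2 => ?_, fun i hi c hc => ?_⟩
  · exact hG.up (1 + h) (notop_lt hh) (1 + h') (notop_lt hh') c hc h1
      (notop_mem1 hc.1 (by rwa [notop_add_sub]))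
  · obtain ⟨c', hc', h'', hh'', h3, h4, h5⟩ := hG.dir (1 + h) (notop_lt hh) (1 + h') (notop_lt hh') c hc h1 h2
    obtain ⟨h6, h7, h8⟩ := notop_mem.1 h4
    obtain ⟨h9, h10, h11⟩ := notop_mem.1 h5
    refine ⟨c', hc', h'' - 1, notop_sub_lt hh'', ?_, h8, h11⟩
    show c' ∈ G (1 + (h'' - 1))
    rw [notop_sub_add h7]
    exact h3
  · obtain ⟨c', hc', h, hh, h1, h2, h3⟩ := hG.meet i hi c hc
    refine ⟨c', hc', h - 1, notop_sub_lt hh, ?_, h3⟩
    show c' ∈ G (1 + (h - 1))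
    rw [notop_sub_add h2]
    exact h1

end Code

end Pool.Agent.Lib.MP_8f49b0_lc.MM
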