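import Pool.Agent.Lib.MP_8f49b0_lc.MM.M.ClubDefs

/-! # Stationary sets and closed unbounded sets (module M-STATC)

`statC_of_statF`: apply `StatF` to `f ζ β = {c ∈ C β | ζ < β}`. `statC_lim`: the same with `stat_gt` for `γ = 0`; the `δ` obtained is a limit ordinal, because for every `ζ < δ` there is `β < δ` with `ζ < β`. -/

namespace Pool.Agent.Lib.MP_8f49b0_lc.MM

namespace Code

variable {K : Code}

private theorem StatC_reg {A : Set Pre} (hA : K.Reg A) (p : Prop) : K.Reg {c | c ∈ A ∧ p} := by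
  refine ⟨fun c hc => hA.ok c hc.1, fun c hc c' hc' => ⟨hA.opn c hc.1 c' hc', hc.2⟩, ?_⟩
  intro c hc h
  refine ⟨hA.reg c hc fun c' hc' => ?_, ?_⟩
  · obtain ⟨c'', h1, h2⟩ := h c' hc'
    exact ⟨c'', h1, h2.1⟩
  · obtain ⟨c'', h1, h2⟩ := h c (ex_refl hc)
    exact h2.2

/-- the common part -/
private theorem StatC_aux {c0 : Pre} {S : O → Set Pre} (h : K.StatF c0 S) {c : Pre} (hc : K.ex c c0)
    {C : O → Set Pre} (hC : ∀ δ, K.Reg (C δ))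
    (hu : ∀ γ < w1, ∀ c', K.ex c' c → ∃ c'', K.ex c'' c' ∧ ∃ δ < w1, γ < δ ∧ c'' ∈ C δ)
    (hcl : ∀ δ < w1, δ ≠ 0 → ∀ c', K.ex c' c →
      (∀ γ < δ, ∀ c'', K.ex c'' c' → ∃ d, K.ex d c'' ∧ ∃ ε < δ, γ < ε ∧ d ∈ C ε) → c' ∈ C δ) :
    ∃ c', K.ex c' c ∧ ∃ δ < w1, δ ≠ 0 ∧ c' ∈ S δ ∧ c' ∈ C δ ∧ ∀ ε < δ, Order.succ ε < δ := by
  obtain ⟨c', h1, δ, h2, h3, h4, h5⟩ := h c hc (fun ζ β => {c | c ∈ C β ∧ ζ < β})
    (fun ζ β => StatC_reg (hC β) _) (by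
      intro ζ hζ c' hc'
      obtain ⟨c'', g1, δ, g2, g3, g4⟩ := hu ζ hζ c' hc'
      exact ⟨c'', g1, δ, g2, g4, g3⟩)
  refine ⟨c', h1, δ, h2, h3, h4, ?_, ?_⟩
  · refine hcl δ h2 h3 c' h1 ?_
    intro γ hγ c'' hc''
    obtain ⟨d, g1, β, g2, g3⟩ := h5 γ hγ c'' hc''
    exact ⟨d, g1, β, g2, g3.2, g3.1⟩
  · intro ε hε
    obtain ⟨d, _, β, g2, g3⟩ := h5 ε hε c' (ex_refl h1.1)
    exact (Order.succ_le_of_lt g3.2).trans_lt g2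

theorem statC_of_statF {c0 : Pre} {S : O → Set Pre} (h : K.StatF c0 S) : K.StatC c0 S := by
  intro c hc C hC hu hcl
  obtain ⟨c', h1, δ, h2, _, h4, h5, _⟩ := StatC_aux h hc hC hu hcl
  exact ⟨c', h1, δ, h2, h4, h5⟩

theorem statC_lim {c0 : Pre} (hc0 : K.Ok c0) : K.StatC c0 (fun δ => {c | K.Ok c ∧ δ ≠ 0 ∧ ∀ ε < δ, Order.succ ε < δ}) := by
  intro c hc C hC hu hcl
  have hw : (0 : O) < w1 := Ordinal.omega_pos 1
  obtain ⟨c', h1, δ, h2, h3, _, h5, h6⟩ := StatC_aux (stat_gt hc0 hw) hc hC hu hcl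
  exact ⟨c', h1, δ, h2, ⟨h1.1, h3, h6⟩, h5⟩

end Code

end Pool.Agent.Lib.MP_8f49b0_lc.MM
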