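import Pool.Agent.Lib.MP_8f49b0_lc.MM.M.SeqB
import Pool.Agent.Lib.MP_8f49b0_lc.MM.M.StatC

/-! # From names of closed unbounded sets to names of functions (module M-SEQC)

`CN_spec`: regularity, downward closure and density of `CN`. `exists_CLo`: otherwise (for `γ`, `c`, `h`) apply `SPQc` (restricted to `c`) to the set of the limit ordinals (`statC_lim`) and `CN K c1 q R γ`, with `h0 = h`: unbounded by `seq_unb` (a condition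
with `Sq .. k σ` is in `CN .. (σ k)` by `Sq.down`), closed by `CN_closed`; the result is a limit ordinal `δ` in the range, but `σ k` is always a successor.
`spq_of_spqc`: given `S`, `R`, `c1`, `h0` (`StatF` gives `StatC`) apply `SPQc` to `S` and `C h δ = {c | K.Ok c ∧ ∀ c', K.ex c' c → ∃ c'', K.ex c'' c' ∧ CLo K c1 q R c'' h δ}`; unbounded by `exists_CLo`, closed: directly from the definition. -/

namespace Pool.Agent.Lib.MP_8f49b0_lc.MM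

namespace Code

variable {K : Code} {c1 : Pre} {q : O → O → Set Pre} {R : O → O → O → Set Pre}

private theorem M_SeqC_refl (hR : RelQ K c1 q R) {c : Pre} (hc : K.ex c c1) {h : O} (hh : h < w1) : c ∈ q h h :=
  (hR.hq.reg h h).opn c1 (hR.hq.refl h hh) c hc

private theorem M_SeqC_CLo_mono (hR : RelQ K c1 q R) {c c' : Pre} (hc : K.ex c' c) {h δ : O}
    (h1 : CLo K c1 q R c h δ) : CLo K c1 q R c' h δ := by
  obtain ⟨h2, h3, h4, h5, h6⟩ := h1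
  exact ⟨ex_trans hR.ok hc h2, h3, h4, h5, fun ζ hζ r hr c'' hc'' hq => h6 ζ hζ r hr c'' (ex_trans h2.1 hc'' hc) hq⟩

theorem reg_CN (hR : RelQ K c1 q R) (γ h δ : O) : K.Reg (CN K c1 q R γ h δ) := by
  refine ⟨fun c hc => hc.1, ?_, ?_⟩
  · intro c hc c' hc'
    exact ⟨hc'.1, fun c'' hc'' r hr hq => hc.2 c'' (ex_trans hc.1 hc'' hc') r hr hq⟩
  · intro c hc H
    refine ⟨hc, fun c' hc' r hr hq => ?_⟩
    obtain ⟨c'', hc'', hCN⟩ := H c' hc'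
    obtain ⟨c3, hc3, r3, hr3, hq3, k, σ, h1⟩ := hCN.2 c'' (ex_refl hc''.1) r hr ((hR.hq.reg r h).opn c' hq c'' hc'')
    exact ⟨c3, ex_trans hc'.1 hc3 hc'', r3, hr3, hq3, k, σ, h1⟩

theorem down_CN (hR : RelQ K c1 q R) (γ : O) : ∀ h' < w1, ∀ h < w1, ∀ δ < w1, ∀ c, K.ex c c1 → c ∈ q h' h →
    c ∈ CN K c1 q R γ h δ → c ∈ CN K c1 q R γ h' δ := by
  intro h' hh' h hh δ _ c hc hq hCN
  refine ⟨hc.1, fun c' hc' r hr hq' => hCN.2 c' hc' r hr ?_⟩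
  exact hR.hq.trans r hr h' hh' h hh c' (ex_trans hR.ok hc' hc) hq' ((hR.hq.reg h' h).opn c hq c' hc')

theorem exists_CLo (hR : RelQ K c1 q R) (hS : K.SPQc c1 q) {γ : O} (hγ : γ < w1) {c : Pre} (hc : K.ex c c1) {h : O}
    (hh : h < w1) : ∃ c', K.ex c' c ∧ ∃ h' < w1, c' ∈ q h' h ∧ ∃ δ, γ < δ ∧ CLo K c1 q R c' h' δ := by
  by_contra hcon
  have hno : ∀ c', K.ex c' c → ∀ h' < w1, c' ∈ q h' h → ∀ δ, γ < δ → ¬ CLo K c1 q R c' h' δ := by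
    intro c' hc' h' hh' hq δ hδ hCL
    exact hcon ⟨c', hc', h', hh', hq, δ, hδ, hCL⟩
  have hmain := hS (fun δ => {c | K.Ok c ∧ δ ≠ 0 ∧ ∀ ε < δ, Order.succ ε < δ}) ?_ (CN K c1 q R γ) (fun h δ => reg_CN hR γ h δ)
    c hc (statC_lim hc.1) ?_ ?_ h hh ?_ ?_
  · obtain ⟨c2, hc2, h2, hh2, hq2, δ, _, hlim, hCN⟩ := hmain
    have hc21 : K.ex c2 c1 := ex_trans hR.ok hc2 hc
    obtain ⟨c3, _, r3, _, _, k, σ, _, hSq, hσ⟩ := hCN.2 c2 (ex_refl hc2.1) h2 hh2 (M_SeqC_refl hR hc21 hh2)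
    have hsucc : ∃ η, δ = Order.succ η := by
      cases k with
      | zero => exact ⟨γ, by rw [← hσ, hSq.zero]⟩
      | succ m =>
        obtain ⟨β, _, h4⟩ := hSq.step m (Nat.lt_succ_self m)
        exact ⟨_, by rw [← hσ, h4]⟩
    obtain ⟨η, hη⟩ := hsucc
    have h5 := hlim.2.2 η (by rw [hη]; exact Order.lt_succ η)
    rw [hη] at h5
    exact absurd h5 (lt_irrefl _)
  · intro δ
    refine ⟨fun c hc => hc.1, fun c hc c' hc' => ⟨hc'.1, hc.2⟩, fun c hc H => ?_⟩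
    obtain ⟨c', _, h1⟩ := H c (ex_refl hc)
    exact ⟨hc, h1.2⟩
  · intro h' hh' h'' hh'' δ hδ c' hc' hq hCN
    exact down_CN hR γ h' hh' h'' hh'' δ hδ c' (ex_trans hR.ok hc' hc) hq hCN
  · intro h' hh' δ _ c' hc' H
    have hc'1 : K.ex c' c1 := ex_trans hR.ok hc' hc
    refine ⟨hc'.1, fun c'' hc'' r hr hq => ?_⟩
    obtain ⟨c3, hc3, r3, hr3, hq3, hCN⟩ := H c'' hc'' r hr hq
    have hc31 : K.ex c3 c1 := ex_trans hR.ok hc3 (ex_trans hR.ok hc'' hc'1)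
    obtain ⟨c4, hc4, r4, hr4, hq4, k, σ, hc41, h4⟩ := hCN.2 c3 (ex_refl hc3.1) r3 hr3 (M_SeqC_refl hR hc31 hr3)
    refine ⟨c4, ex_trans hc''.1 hc4 hc3, r4, hr4, ?_, k, σ, hc41, h4⟩
    exact hR.hq.trans r4 hr4 r3 hr3 r hr c4 hc41 hq4 ((hR.hq.reg r3 r).opn c3 hq3 c4 hc4)
  · intro γ' hγ' c' hc' h' hh' hq
    obtain ⟨c'', hc'', h'', hh'', hq'', k, σ, hSq, hlt⟩ := seq_unb hR hγ hc hh hno γ' hγ' c' hc' h' hh' hq
    have hc''1 : K.ex c'' c1 := ex_trans hR.ok hc'' (ex_trans hR.ok hc' hc)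
    refine ⟨c'', hc'', h'', hh'', hq'', σ k, hSq.lt hγ k le_rfl, hlt, hc''.1, fun c3 hc3 r hr hq3 => ?_⟩
    have hc31 : K.ex c3 c1 := ex_trans hR.ok hc3 hc''1
    exact ⟨c3, ex_refl hc3.1, r, hr, M_SeqC_refl hR hc31 hr, k, σ, hc31, hSq.down hR hc3 hr hq3, rfl⟩
  · intro δ hδ hδ0 c' hc' h' hh' hq H
    exact absurd H (CN_closed hR hγ hc hh hno δ hδ hδ0 c' hc' h' hh' hq)

theorem spq_of_spqc {c0 : Pre} (hc0 : K.Ok c0) (hq : K.PreQ c0 q) (hS : K.SPQc c0 q) : K.SPQ c0 q := by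
  intro S hSreg R hRreg c1 hc1 hstat hdown htot h0 hh0
  have hq1 : K.PreQ c1 q := ⟨hq.reg, fun h hh => (hq.reg h h).opn c0 (hq.refl h hh) c1 hc1,
    fun h'' hh'' h' hh' h hh c hc h1 h2 => hq.trans h'' hh'' h' hh' h hh c (ex_trans hc0 hc hc1) h1 h2,
    fun h hh => (hq.reg h 0).opn c0 (hq.top h hh) c1 hc1⟩
  have hR : RelQ K c1 q R := ⟨hq1, hc1.1, hRreg, hdown, htot⟩
  have hS1 : K.SPQc c1 q := fun S hS' C hC c2 hc2 => hS S hS' C hC c2 (ex_trans hc0 hc2 hc1)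
  have htr := hq1.trans
  have hmain := hS1 S hSreg (fun h δ => {c | K.Ok c ∧ ∀ c', K.ex c' c → ∃ c'', K.ex c'' c' ∧ CLo K c1 q R c'' h δ}) ?_
    c1 (ex_refl hc1.1) (statC_of_statF hstat) ?_ ?_ h0 hh0 ?_ ?_
  · obtain ⟨c2, hc2, h, hh, hq2, δ, hδ, hSδ, hC⟩ := hmain
    obtain ⟨c3, hc3, hCL⟩ := hC.2 c2 (ex_refl hc2.1)
    exact ⟨c3, ex_trans hc1.1 hc3 hc2, δ, hδ, h, hh, (hSreg δ).opn c2 hSδ c3 hc3, (hq.reg h h0).opn c2 hq2 c3 hc3,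
      fun ζ hζ r hr c hc hqc => hCL.2.2.2.2 ζ hζ r hr c hc hqc⟩
  · intro h δ
    refine ⟨fun c hc => hc.1, fun c hc c' hc' => ⟨hc'.1, fun c'' hc'' => hc.2 c'' (ex_trans hc.1 hc'' hc')⟩,
      fun c hc H => ⟨hc, fun c' hc' => ?_⟩⟩
    obtain ⟨c'', hc'', h1⟩ := H c' hc'
    obtain ⟨c3, hc3, h2⟩ := h1.2 c'' (ex_refl hc''.1)
    exact ⟨c3, ex_trans hc'.1 hc3 hc'', h2⟩
  · intro h' hh' h hh δ _ c hc hqc hC
    refine ⟨hc.1, fun c' hc' => ?_⟩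
    obtain ⟨c'', hc'', h1, h2, h3, h4, h5⟩ := hC.2 c' hc'
    have hcc : K.ex c'' c := ex_trans hc.1 hc'' hc'
    refine ⟨c'', hc'', h1, hh', h3, h4, fun ζ hζ r hr c3 hc3 hq3 => h5 ζ hζ r hr c3 hc3 ?_⟩
    have hc31 : K.ex c3 c1 := ex_trans hR.ok hc3 h1
    exact htr r hr h' hh' h hh c3 hc31 hq3 ((hq.reg h' h).opn c hqc c3 (ex_trans hc.1 hc3 hcc))
  · intro h hh δ hδ c hc H
    have key : ∀ c', K.ex c' c → CLo K c1 q R c' h δ := by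
      intro c' hc'
      have hc'1 : K.ex c' c1 := ex_trans hR.ok hc' hc
      refine ⟨hc'1, hh, hδ, ?_, fun ζ hζ r hr c2 hc2 hq2 => ?_⟩
      · obtain ⟨c'', hc'', r', _, _, hC⟩ := H c' hc' h hh (M_SeqC_refl hR hc'1 hh)
        obtain ⟨c3, _, h3⟩ := hC.2 c'' (ex_refl hc''.1)
        exact h3.2.2.2.1
      · have hc21 : K.ex c2 c1 := ex_trans hR.ok hc2 hc'1
        obtain ⟨c3, hc3, r3, hr3, hq3, hC⟩ := H c2 (ex_trans hc.1 hc2 hc') r hr hq2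
        obtain ⟨c4, hc4, h4⟩ := hC.2 c3 (ex_refl hc3.1)
        obtain ⟨c5, hc5, r5, hr5, hq5, β, hβ, h5⟩ := h4.2.2.2.2 ζ hζ r3 hr3 c4 (ex_refl hc4.1) (M_SeqC_refl hR h4.1 hr3)
        have hc53 : K.ex c5 c3 := ex_trans hc3.1 hc5 hc4
        refine ⟨c5, ex_trans hc2.1 hc53 hc3, r5, hr5, ?_, β, hβ, h5⟩
        exact htr r5 hr5 r3 hr3 r hr c5 (ex_trans hR.ok hc5 h4.1) hq5 ((hq.reg r3 r).opn c3 hq3 c5 hc53)
    exact ⟨hc.1, fun c' hc' => ⟨c', ex_refl hc'.1, key c' hc'⟩⟩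
  · intro γ hγ c hc h hh _
    obtain ⟨c', hc', h', hh', hq', δ, hδ, hCL⟩ := exists_CLo hR hS1 hγ hc hh
    exact ⟨c', hc', h', hh', hq', δ, hCL.2.2.1, hδ, hc'.1, fun c'' hc'' => ⟨c'', ex_refl hc''.1, M_SeqC_CLo_mono hR hc'' hCL⟩⟩
  · intro δ hδ hδ0 c hc h hh _ H
    have key : ∀ c', K.ex c' c → CLo K c1 q R c' h δ := by
      intro c' hc'
      have hc'1 : K.ex c' c1 := ex_trans hR.ok hc' hc
      refine ⟨hc'1, hh, hδ, hδ0, fun ζ hζ r hr c2 hc2 hq2 => ?_⟩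
      obtain ⟨c3, hc3, r3, hr3, hq3, ε, hε, hζε, hC⟩ := H ζ hζ c2 (ex_trans hc.1 hc2 hc') r hr hq2
      obtain ⟨c4, hc4, h4⟩ := hC.2 c3 (ex_refl hc3.1)
      obtain ⟨c5, hc5, r5, hr5, hq5, β, hβ, h5⟩ := h4.2.2.2.2 ζ hζε r3 hr3 c4 (ex_refl hc4.1) (M_SeqC_refl hR h4.1 hr3)
      have hc53 : K.ex c5 c3 := ex_trans hc3.1 hc5 hc4
      refine ⟨c5, ex_trans hc2.1 hc53 hc3, r5, hr5, ?_, β, hβ.trans hε, h5⟩
      exact htr r5 hr5 r3 hr3 r hr c5 (ex_trans hR.ok hc5 h4.1) hq5 ((hq.reg r3 r).opn c3 hq3 c5 hc53)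
    exact ⟨hc.1, fun c' hc' => ⟨c', ex_refl hc'.1, key c' hc'⟩⟩

end Code

end Pool.Agent.Lib.MP_8f49b0_lc.MM
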