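import Pool.Agent.Lib.MP_8f49b0_lc.MM.M.IncSP
import Pool.Agent.Lib.MP_8f49b0_lc.MM.M.GM
import Pool.Agent.Lib.MP_8f49b0_lc.MM.M.SeqC
import Pool.Agent.Lib.MP_8f49b0_lc.MM.M.NoTop

/-! # The forcing axiom for names, (5.4) of the paper -/

namespace Pool.Agent.Lib.MP_8f49b0_lc.MM

namespace Code

variable {K : Code}

theorem mm {c0 : Pre} {q D : O → O → Set Pre} (hc0 : K.Ok c0) (hq : K.PreQ c0 q) (hS : K.SPQ c0 q) (hD : K.DenQ c0 q D) :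
    ∃ c1, K.ex c1 c0 ∧ ∃ G, K.FilQ c1 q D G :=
  gm hc0 hq hS (incQ_of_SPQ hc0 hq hS) hD

theorem PreQ0.mono {c0 c1 : Pre} {q : O → O → Set Pre} (hq : K.PreQ0 c0 q) (hc0 : K.Ok c0) (h : K.ex c1 c0) :
    K.PreQ0 c1 q :=
  ⟨hq.reg, fun x hx => (hq.reg _ _).opn _ (hq.refl x hx) _ h,
    fun h'' a h' b x d c hc => hq.trans h'' a h' b x d c (ex_trans hc0 hc h)⟩

/-- Martin's Maximum for preorders on `ω₁`, for names -/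
theorem mm2 {c0 : Pre} {q D : O → O → Set Pre} (hc0 : K.Ok c0) (hq : K.PreQ0 c0 q) (hS : K.SPQc c0 q)
    (hD : K.DenQ c0 q D) : ∃ c1, K.ex c1 c0 ∧ ∃ G, K.FilQ0 c1 q D G := by
  have h1 := preQ_tq hc0 hq
  obtain ⟨c1, h2, G, hG⟩ := mm hc0 h1 (spq_of_spqc hc0 h1 (spqc_tq hc0 hq hS)) (denQ_tq hc0 hq hD)
  exact ⟨c1, h2, _, filQ_tq (hq.mono hc0 h2) hG⟩

end Code

end Pool.Agent.Lib.MP_8f49b0_lc.MM
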