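import Pool.Agent.Lib.MP_8f49b0_lc.MM.M.SeqDefs

/-! # Values of the name of a function, members of the sequence (module M-SEQA)

`FV.total`: take the least `β` such that `c' ∈ R h' ζ β` for some `(c', h') ≤ (c, h)`. `FV.unique`: a common extension. `en1_surj`: countable ordinals are countable. `Sq.unique`, `Sq.total`: induction on `k`
(`(Nat.unpair m).2 ≤ m`: `Nat.unpair_right_le`). -/

namespace Pool.Agent.Lib.MP_8f49b0_lc.MM

namespace Code

variable {K : Code} {c1 : Pre} {q : O → O → Set Pre} {R : O → O → O → Set Pre}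

private theorem seqA_refl (hR : RelQ K c1 q R) {c : Pre} (hc : K.ex c c1) {h : O} (hh : h < w1) : c ∈ q h h :=
  (hR.hq.reg h h).opn c1 (hR.hq.refl h hh) c hc

private theorem seqA_succ_lt {a : O} (h : a < w1) : Order.succ a < w1 :=
  (Cardinal.isSuccLimit_omega 1).succ_lt h

theorem FV.down (hR : RelQ K c1 q R) {c c' : Pre} {h h' ζ β : O} (hF : FV K c1 q R c h ζ β) (hc : K.ex c' c)
    (hh' : h' < w1) (hh : c' ∈ q h' h) : FV K c1 q R c' h' ζ β := by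
  have hok : K.Ok c := hF.ex.1
  have hc1 : K.ex c' c1 := ex_trans hR.ok hc hF.ex
  have key : ∀ c'', K.ex c'' c' → ∀ r < w1, c'' ∈ q r h' → c'' ∈ q r h := by
    intro c'' hc'' r hr hrh
    exact hR.hq.trans r hr h' hh' h hF.h_lt c'' (ex_trans hR.ok hc'' hc1) hrh ((hR.hq.reg h' h).opn c' hh c'' hc'')
  refine ⟨hc1, hh', hF.β_lt, ?_, ?_⟩
  · intro c'' hc'' r hr hrh
    exact hF.dense c'' (ex_trans hok hc'' hc) r hr (key c'' hc'' r hr hrh)
  · intro β' hβ' c'' hc'' r hr hrh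
    exact hF.least β' hβ' c'' (ex_trans hok hc'' hc) r hr (key c'' hc'' r hr hrh)

private theorem seqA_FV_le (hR : RelQ K c1 q R) {c : Pre} {h ζ β β' : O} (h1 : FV K c1 q R c h ζ β)
    (h2 : FV K c1 q R c h ζ β') : β' ≤ β := by
  by_contra hlt
  rw [not_le] at hlt
  obtain ⟨c'', hc'', r', hr', hq', hR'⟩ := h1.dense c (ex_refl h1.ex.1) h h1.h_lt (seqA_refl hR h1.ex h1.h_lt)
  exact h2.least β hlt c'' hc'' r' hr' hq' hR'

theorem FV.unique (hR : RelQ K c1 q R) {c : Pre} {h ζ β β' : O} (h1 : FV K c1 q R c h ζ β) (h2 : FV K c1 q R c h ζ β') :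
    β = β' :=
  le_antisymm (seqA_FV_le hR h2 h1) (seqA_FV_le hR h1 h2)

theorem FV.total (hR : RelQ K c1 q R) {ζ : O} (hζ : ζ < w1) {c : Pre} {h : O} (hc : K.ex c c1) (hh : h < w1) :
    ∃ c', K.ex c' c ∧ ∃ h' < w1, c' ∈ q h' h ∧ ∃ β, FV K c1 q R c' h' ζ β := by
  let P : O → Prop := fun β => ∃ c', K.ex c' c ∧ ∃ h' < w1, c' ∈ q h' h ∧ c' ∈ R h' ζ β
  have hex : ∃ β < w1, P β := by
    obtain ⟨c', hc', h', hh', hq', β, hβ, hβR⟩ := hR.total ζ hζ h hh c hc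
    exact ⟨β, hβ, c', hc', h', hh', hq', hβR⟩
  obtain ⟨β0, hβ0, hPβ0⟩ := hex
  let s : Set O := {β | P β}
  have hs : s.Nonempty := ⟨β0, hPβ0⟩
  have hmin : P (sInf s) := csInf_mem hs
  have hle : sInf s ≤ β0 := csInf_le' hPβ0
  have hlt : sInf s < w1 := lt_of_le_of_lt hle hβ0
  have hleast : ∀ β' < sInf s, ¬ P β' := fun β' hβ' hP => notMem_of_lt_csInf' hβ' hP
  obtain ⟨c', hc', h', hh', hq', hRR⟩ := hmin
  have hok : K.Ok c := hc.1
  have hc1 : K.ex c' c1 := ex_trans hR.ok hc' hc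
  refine ⟨c', hc', h', hh', hq', sInf s, hc1, hh', hlt, ?_, ?_⟩
  · intro c'' hc'' r hr hrh
    have hc''1 : K.ex c'' c1 := ex_trans hR.ok hc'' hc1
    exact ⟨c'', ex_refl hc''.1, r, hr, seqA_refl hR hc''1 hr,
      hR.down r hr h' hh' ζ hζ _ hlt c'' hc''1 hrh ((hR.reg h' ζ _).opn c' hRR c'' hc'')⟩
  · intro β' hβ' c'' hc'' r hr hrh hbad
    have hc''1 : K.ex c'' c1 := ex_trans hR.ok hc'' hc1
    exact hleast β' hβ' ⟨c'', ex_trans hok hc'' hc', r, hr,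
      hR.hq.trans r hr h' hh' h hh c'' hc''1 hrh ((hR.hq.reg h' h).opn c' hq' c'' hc''), hbad⟩

private theorem seqA_countable {α : O} (hα : α < w1) : (Set.Iio α).Countable := by
  rw [← Cardinal.le_aleph0_iff_set_countable, Cardinal.mk_Iio_ordinal]
  have h1 : α.card ≤ Cardinal.aleph0 := by
    have h2 : α.card < Cardinal.aleph 1 := by
      rw [← Cardinal.lt_ord, Cardinal.ord_aleph]
      exact hα
    rw [← Cardinal.succ_aleph0] at h2
    exact Order.lt_succ_iff.mp h2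
  rw [← Cardinal.lift_aleph0.{1, 0}]
  exact Cardinal.lift_le.mpr h1

private theorem seqA_range {α : O} (hα : α < w1) (h0 : 0 < α) : Set.Iio α = Set.range (en1 α) := by
  classical
  have h : ∃ f : ℕ → O, Set.Iio α = Set.range f := (seqA_countable hα).exists_eq_range ⟨0, h0⟩
  have h1 : en1 α = h.choose := by
    funext i
    rw [en1, dif_pos h]
  rw [h1]
  exact h.choose_spec

theorem en1_surj {α ζ : O} (hα : α < w1) (hζ : ζ < α) : ∃ i, en1 α i = ζ := by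
  have h0 : 0 < α := lt_of_le_of_lt (bot_le) hζ
  have h1 : ζ ∈ Set.Iio α := hζ
  rw [seqA_range hα h0] at h1
  exact h1

theorem en1_lt {α : O} (hα : α < w1) (h0 : 0 < α) (i : ℕ) : en1 α i < α := by
  have h1 : en1 α i ∈ Set.range (en1 α) := ⟨i, rfl⟩
  rw [← seqA_range hα h0] at h1
  exact h1

theorem Sq.down (hR : RelQ K c1 q R) {γ : O} {c c' : Pre} {h h' : O} {k : ℕ} {σ : ℕ → O} (hS : Sq K c1 q R γ c h k σ)
    (hc : K.ex c' c) (hh' : h' < w1) (hh : c' ∈ q h' h) : Sq K c1 q R γ c' h' k σ := by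
  refine ⟨hS.zero, fun m hm => ?_⟩
  obtain ⟨β, hβ, hσ⟩ := hS.step m hm
  exact ⟨β, hβ.down hR hc hh' hh, hσ⟩

theorem Sq.unique (hR : RelQ K c1 q R) {γ : O} {c : Pre} {h : O} {k k' : ℕ} {σ σ' : ℕ → O} (h1 : Sq K c1 q R γ c h k σ)
    (h2 : Sq K c1 q R γ c h k' σ') : ∀ m ≤ k, m ≤ k' → σ m = σ' m := by
  intro m
  induction m using Nat.strong_induction_on with
  | _ m ih =>
    intro hm hm'
    rcases m with _ | m
    · rw [h1.zero, h2.zero]
    · obtain ⟨β, hβ, hσ⟩ := h1.step m (by omega)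
      obtain ⟨β', hβ', hσ'⟩ := h2.step m (by omega)
      have h3 : (Nat.unpair m).2 ≤ m := Nat.unpair_right_le m
      have h4 : σ (Nat.unpair m).2 = σ' (Nat.unpair m).2 := ih _ (by omega) (by omega) (by omega)
      rw [h4] at hβ
      rw [hσ, hσ', hβ.unique hR hβ', ih m (by omega) (by omega) (by omega)]

theorem Sq.mono {γ : O} {c : Pre} {h : O} {k : ℕ} {σ : ℕ → O} (h1 : Sq K c1 q R γ c h k σ) :
    ∀ m ≤ k, ∀ m' < m, σ m' < σ m := by
  intro m
  induction m with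
  | zero => intro _ m' hm'; exact absurd hm' (Nat.not_lt_zero _)
  | succ m ih =>
    intro hm m' hm'
    obtain ⟨β, _, hσ⟩ := h1.step m (by omega)
    have h2 : σ m < σ (m + 1) := by
      rw [hσ]
      exact lt_of_le_of_lt (le_max_left _ _) (Order.lt_succ _)
    rcases Nat.lt_succ_iff_lt_or_eq.mp hm' with h3 | h3
    · exact (ih (by omega) m' h3).trans h2
    · rw [h3]
      exact h2

theorem Sq.lt {γ : O} (hγ : γ < w1) {c : Pre} {h : O} {k : ℕ} {σ : ℕ → O} (h1 : Sq K c1 q R γ c h k σ) :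
    ∀ m ≤ k, σ m < w1 := by
  intro m
  induction m with
  | zero =>
    intro _
    rw [h1.zero]
    exact seqA_succ_lt hγ
  | succ m ih =>
    intro hm
    obtain ⟨β, hβ, hσ⟩ := h1.step m (by omega)
    rw [hσ]
    exact seqA_succ_lt (max_lt (ih (by omega)) hβ.β_lt)

private theorem seqA_pos {γ : O} {c : Pre} {h : O} {k : ℕ} {σ : ℕ → O} (h1 : Sq K c1 q R γ c h k σ) :
    ∀ m ≤ k, 0 < σ m := by
  intro m hm
  rcases Nat.eq_zero_or_pos m with h0 | h0
  · rw [h0, h1.zero]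
    exact lt_of_le_of_lt (bot_le) (Order.lt_succ γ)
  · exact lt_of_le_of_lt (bot_le) (h1.mono m hm 0 h0)

private theorem seqA_next (hR : RelQ K c1 q R) {γ : O} (hγ : γ < w1) {c : Pre} {h : O} {k : ℕ} {σ : ℕ → O}
    (hc : K.ex c c1) (hh : h < w1) (h1 : Sq K c1 q R γ c h k σ) :
    ∃ c', K.ex c' c ∧ ∃ h' < w1, c' ∈ q h' h ∧ ∃ σ', Sq K c1 q R γ c' h' (k + 1) σ' ∧ ∀ m ≤ k, σ' m = σ m := by
  have h3 : (Nat.unpair k).2 ≤ k := Nat.unpair_right_le k
  have h4 := h1.lt hγ _ h3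
  have h5 := seqA_pos h1 _ h3
  have h6 : en1 (σ (Nat.unpair k).2) (Nat.unpair k).1 < w1 := (en1_lt h4 h5 _).trans h4
  obtain ⟨c', hc', h', hh', hq', β, hβ⟩ := FV.total hR h6 hc hh
  have h7 := h1.down hR hc' hh' hq'
  refine ⟨c', hc', h', hh', hq', fun m => if m ≤ k then σ m else Order.succ (max (σ k) β), ⟨?_, ?_⟩, ?_⟩
  · simp only [Nat.zero_le, if_true]
    exact h1.zero
  · intro m hm
    have h8 : (Nat.unpair m).2 ≤ m := Nat.unpair_right_le m
    rcases Nat.lt_succ_iff_lt_or_eq.mp hm with h9 | h9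
    · obtain ⟨β', hβ', hσ'⟩ := h7.step m h9
      refine ⟨β', ?_, ?_⟩
      · simp only [if_pos (show (Nat.unpair m).2 ≤ k by omega)]
        exact hβ'
      · simp only [if_pos (show m + 1 ≤ k by omega), if_pos (show m ≤ k by omega)]
        exact hσ'
    · subst h9
      refine ⟨β, ?_, ?_⟩
      · simp only [if_pos h8]
        exact hβ
      · simp only [le_refl, if_true, if_neg (show ¬ m + 1 ≤ m by omega)]
  · intro m hm
    simp only [if_pos hm]

/-- a longer sequence for a stronger condition extends the shorter one -/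
private theorem seqA_extend (hR : RelQ K c1 q R) {γ : O} (hγ : γ < w1) {c : Pre} {h : O} {k : ℕ} {σ : ℕ → O} (hc : K.ex c c1)
    (hh : h < w1) (h1 : Sq K c1 q R γ c h k σ) (k' : ℕ) (hk : k ≤ k') :
    ∃ c', K.ex c' c ∧ ∃ h' < w1, c' ∈ q h' h ∧ ∃ σ', Sq K c1 q R γ c' h' k' σ' ∧ ∀ m ≤ k, σ' m = σ m := by
  induction k', hk using Nat.le_induction with
  | base => exact ⟨c, ex_refl hc.1, h, hh, seqA_refl hR hc hh, σ, h1, fun _ _ => rfl⟩
  | succ k' hk ih =>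
    obtain ⟨c', hc', h', hh', hq', σ', hσ', hm'⟩ := ih
    have hc'1 : K.ex c' c1 := ex_trans hR.ok hc' hc
    obtain ⟨c'', hc'', h'', hh'', hq'', σ'', hσ'', hm''⟩ := seqA_next hR hγ hc'1 hh' hσ'
    have hc''1 : K.ex c'' c1 := ex_trans hR.ok hc'' hc'1
    refine ⟨c'', ex_trans hc.1 hc'' hc', h'', hh'', ?_, σ'', hσ'', fun m hm => ?_⟩
    · exact hR.hq.trans h'' hh'' h' hh' h hh c'' hc''1 hq'' ((hR.hq.reg h' h).opn c' hq' c'' hc'')
    · rw [hm'' m (by omega), hm' m hm]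

theorem Sq.total (hR : RelQ K c1 q R) {γ : O} (hγ : γ < w1) (k : ℕ) {c : Pre} {h : O} (hc : K.ex c c1) (hh : h < w1) :
    ∃ c', K.ex c' c ∧ ∃ h' < w1, c' ∈ q h' h ∧ ∃ σ, Sq K c1 q R γ c' h' k σ := by
  have h0 : Sq K c1 q R γ c h 0 (fun _ => Order.succ γ) :=
    ⟨rfl, fun m hm => absurd hm (Nat.not_lt_zero _)⟩
  obtain ⟨c', hc', h', hh', hq', σ', hσ', _⟩ := seqA_extend hR hγ hc hh h0 k (Nat.zero_le k)
  exact ⟨c', hc', h', hh', hq', σ', hσ'⟩

/-- a longer sequence for a stronger condition extends the shorter one -/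
theorem Sq.extend (hR : RelQ K c1 q R) {γ : O} (hγ : γ < w1) {c : Pre} {h : O} {k : ℕ} {σ : ℕ → O} (hc : K.ex c c1)
    (hh : h < w1) (h1 : Sq K c1 q R γ c h k σ) (k' : ℕ) (hk : k ≤ k') :
    ∃ c', K.ex c' c ∧ ∃ h' < w1, c' ∈ q h' h ∧ ∃ σ', Sq K c1 q R γ c' h' k' σ' ∧ ∀ m ≤ k, σ' m = σ m :=
  seqA_extend hR hγ hc hh h1 k' hk

end Code

end Pool.Agent.Lib.MP_8f49b0_lc.MM
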