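import Pool.Agent.Lib.MP_8f49b0_lc.MM.M.Fine
import Pool.Agent.Lib.MP_8f49b0_lc.MM.J.Trivial

/-! # The bad case: definitions (5.1)

In the bad case there are `g0 ≤ c0` and `h0` such that no `g1 ≤ g0` is `Fine`. The structure `BD` collects the data from which a contradiction to `SPQ` is derived: `c1` extends `g0`, has a transitive node of height `α` and a last
transitive node `(lam, x1)` with `io α ≤ lam`. -/

namespace Pool.Agent.Lib.MP_8f49b0_lc.MM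

namespace Code

/-- `N` has no generic extension below `(g, h0)` -/
structure Bad (K : Code) (α x0 h0 : O) (N : Set O) (g : Pre) : Prop where
  tr : N ∩ Set.Iio α ∈ g.C
  mem_h : h0 ∈ N
  mem_α : α ∈ N
  mem_x : x0 ∈ N
  bad : ∀ a ∈ RS (K.V α), K.leR x0 a (g, h0) → ¬ K.Gen (K.V α) α x0 N a

/-- the data of the bad case -/
structure BD (K : Code) (α x0 h0 : O) (c0 : Pre) (q : O → O → Set Pre) (lam x1 : O) (c1 : Pre)
    (Fs : List O → Set O) : Prop where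
  hq : K.PreQ c0 q
  cls : K.ClsQ α c0 q
  code : K.CodeQ α x0 c0 q
  hh0 : h0 < w1
  hc1 : K.ex c1 c0
  hα : ∃ t ∈ c1.T, t.1 = α
  hlam : ∃ h, (lam, x1, h) ∈ c1.T
  lt : α < lam
  io : K.io α ≤ lam
  bad : ∀ g ∈ K.V α, K.le g (c1.res α) → ∀ F, Fn F → ∃ N, K.Nice N ∧ Cl F N ∧ ∃ g' ∈ K.V α, K.le g' g ∧ Bad K α x0 h0 N g'
  Fs1 : Fn Fs
  /-- in closed nodes every `y` is contained in a smaller countable node above `lam` -/
  Fs2 : ∀ N, K.Nice N → Cl Fs N → lam ∈ N → x1 ∈ N → ∀ y ∈ N, ∀ c, K.ex c c1 → N ∈ c.C →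
    ∃ N', K.Nice N' ∧ K.cn N' ∈ N ∧ lam ∈ N' ∧ x1 ∈ N' ∧ y ∈ N' ∧ ∃ c', K.ex c' c ∧ N' ∈ c'.C
  /-- reflection of the elements of `K.en α y` -/
  Fs3 : ∀ N, K.Nice N → Cl Fs N → ∀ y ∈ N, ∀ β ∈ N, ∀ c, K.Ok c → N ∈ c.C → ∀ g ∈ K.V α, K.le c g → (g, β) ∈ K.en α y →
    ∃ g' ∈ K.V α, K.PIn N g' ∧ (g', β) ∈ K.en α y ∧ ∃ c', K.ex c' c ∧ K.le c' g'
  /-- closure under pairing -/
  Fs4 : ∀ N, K.Nice N → Cl Fs N → ∀ ζ ∈ N, ∀ n : ℕ, Ordinal.omega0 * ζ + n ∈ N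

open Classical in
/-- an enumeration of a countable nonempty set -/
noncomputable def enu (A : Set O) : ℕ → O := if h : ∃ f : ℕ → O, A = Set.range f then h.choose else fun _ => 0

theorem enu_range {A : Set O} (h : A.Countable) (h' : A.Nonempty) : Set.range (enu A) = A := by
  have h1 : ∃ f : ℕ → O, A = Set.range f := h.exists_eq_range h'
  unfold enu
  rw [dif_pos h1]
  exact h1.choose_spec.symm

/-- the stationary set of the bad case: the traces on `ω₁` of the bad nodes -/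
def TT (K : Code) (α x0 h0 lam x1 : O) (c1 : Pre) (Fs : List O → Set O) (δ : O) : Set Pre :=
  K.rg {c | K.ex c c1 ∧ ∃ N ∈ c.C, Cl Fs N ∧ lam ∈ N ∧ x1 ∈ N ∧ (∀ ξ < w1, ξ ∈ N ↔ ξ < δ) ∧ Bad K α x0 h0 N (c.res α)}

/-- some countable node above `lam` with the trace `ζ` is in `c`; its `n`-th element below `lam` is `y`; if `y` codes a dense open set, then `c` is below
some `(g, β)` in this set, and `h ≤ β` -/
def RC (K : Code) (α x0 : O) (q : O → O → Set Pre) (lam x1 : O) (c : Pre) (h ζ : O) (n : ℕ) (β : O) : Prop :=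
  ∃ N ∈ c.C, lam ∈ N ∧ x1 ∈ N ∧ (∀ ξ < w1, ξ ∈ N ↔ ξ < ζ) ∧
    (K.DO (K.V α) x0 (K.en α (enu (N ∩ Set.Iio lam) n)) →
      ∃ g ∈ K.V α, K.le c g ∧ (g, β) ∈ K.en α (enu (N ∩ Set.Iio lam) n) ∧ c ∈ q h β)

/-- no countable node above `lam` with the trace `ζ` can be added to `c` -/
def RN (K : Code) (lam x1 : O) (c : Pre) (ζ : O) : Prop :=
  ∀ c', K.ex c' c → ∀ N ∈ c'.C, lam ∈ N → x1 ∈ N → ¬ ∀ ξ < w1, ξ ∈ N ↔ ξ < ζ

/-- the name of the relation to which `SPQ` is applied in the bad case -/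
def RR (K : Code) (α x0 : O) (q : O → O → Set Pre) (lam x1 : O) (c1 : Pre) (h ξ β : O) : Set Pre :=
  K.rg {c | K.ex c c1 ∧ h < w1 ∧ β < w1 ∧ ∀ ζ, ∀ n : ℕ, ξ = Ordinal.omega0 * ζ + n →
    RC K α x0 q lam x1 c h ζ n β ∨ RN K lam x1 c ζ}

end Code

end Pool.Agent.Lib.MP_8f49b0_lc.MM
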