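import Pool.Agent.Lib.MP_8f49b0_lc.MM.M.BadDefs

/-! # The bad case: existence of the data (module M-BADEX)

First `fine_incompat`: no extension of `g0` in `K.V α` is incompatible with `c0`; take `g ≤ g0, c0` in `K.V α`. Let `x'` be a trivial good node at `α`, `lam` with `K.Tr lam` above `α`, `x'`, `K.io α`, `x1` a trivial good node
at `lam`; `c1` by `add_tr` twice. `bad`: unfold `¬ Fine`. `Fs`: the functions of `refl_PB none` for `E (y, lam, x1) = {(c, ()) | ∃ N' ∈ c.C, lam ∈ N' ∧ x1 ∈ N' ∧ y ∈ N'}` (together with `exists_node` for `c` and `{y, lam, x1}`; the reflected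
condition `c'` is in `N`, so the code of its node `N'` is in `N`) and for `E (y, β) = {(c, g) | g ∈ K.V α ∧ K.le c g ∧ (g, β) ∈ K.en α y}` (`Y = Pre`), and of `exists_sk` for `ζ`, `n`, merged. -/

namespace Pool.Agent.Lib.MP_8f49b0_lc.MM

namespace Code

variable {K : Code}

theorem exists_BD {α x0 : O} {c0 : Pre} {q : O → O → Set Pre} (hc0 : K.Ok c0) (hq : K.PreQ c0 q) (hcl : K.ClsQ α c0 q)
    (hx : K.CodeQ α x0 c0 q) {h0 : O} (hh0 : h0 < w1) {g0 : Pre} (hg0 : g0 ∈ K.V α)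
    (h : ∀ g1 ∈ K.V α, K.le g1 g0 → ¬ Fine K α x0 h0 g1) :
    ∃ lam x1 c1 Fs, BD K α x0 h0 c0 q lam x1 c1 Fs := by
  have hg0ok := (mem_V.1 hg0).2
  obtain ⟨d, hd, hdg, hdc⟩ : ∃ d ∈ K.V α, K.le d g0 ∧ K.le d c0 := by
    by_contra hcon
    push Not at hcon
    exact h g0 hg0 (le_refl_of_ok hg0ok) (fine_incompat hq hcl hx hh0 hg0 hcon)
  have hdok := (mem_V.1 hd).2
  obtain ⟨x', hx'g, -⟩ := K.exists_trivial hcl.tr
  obtain ⟨lam, hlam1, hlamT, -⟩ := K.exists_tr (fun _ => 0) (max (max α x') (K.io α))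
  have hlt : α < lam := lt_of_le_of_lt ((le_max_left _ _).trans (le_max_left _ _)) hlam1
  have hltx : x' < lam := lt_of_le_of_lt ((le_max_right _ _).trans (le_max_left _ _)) hlam1
  have hio : K.io α < lam := lt_of_le_of_lt (le_max_right _ _) hlam1
  obtain ⟨x1, hx1g, -⟩ := K.exists_trivial hlamT
  have h0w : (0 : O) < w1 := Ordinal.omega_pos 1
  obtain ⟨c', hc'd, hc'T, -, -, -, -, hc'B⟩ := add_tr hd hcl.tr hx'g h0w
  have hc'V : c' ∈ K.V lam := mem_V.2 ⟨hc'B lam hlt hltx, hc'd.1⟩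
  obtain ⟨c1, hc1c', hc1T, -, -, -, -, -⟩ := add_tr hc'V hlamT hx1g h0w
  have hc1d : K.ex c1 d := ex_trans hdok hc1c' hc'd
  have hc1c0 : K.ex c1 c0 := ex_trans hc0 hc1d ⟨hdok, hdc⟩
  obtain ⟨k, hk, -⟩ := hc1c'.2.T _ hc'T
  -- the reflection functions
  obtain ⟨F1, hF1, hF1'⟩ := K.refl_PB none (fun α' h' => by simp at h') (X := O × O × O) (Y := Unit)
    (fun p => {e | ∃ N' ∈ e.1.C, p.1 ∈ N' ∧ p.2.1 ∈ N' ∧ p.2.2 ∈ N'}) (fun p e _ => ⟨∅, trivial⟩)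
  obtain ⟨F2, hF2, hF2'⟩ := K.refl_PB none (fun α' h' => by simp at h') (X := O × O) (Y := Pre)
    (fun p => {e | e.2 ∈ K.V α ∧ K.le e.1 e.2 ∧ (e.2, p.2) ∈ K.en α p.1}) (by
      rintro p e ⟨he, -, -⟩
      obtain ⟨A, -, hA'⟩ := exists_supp K e.2 (fun N hN => ((mem_V.1 he).1.C N hN).1)
      exact ⟨A, (hA' A).2 (Set.Subset.refl A)⟩)
  obtain ⟨F3, hF3, hF3'⟩ := exists_sk K (X := O × ℕ) (Y := O) (fun x y => y = Ordinal.omega0 * x.1 + x.2)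
    (fun x y _ => ⟨{y}, rfl⟩)
  obtain ⟨F4, hF4, hF4'⟩ := exists_merge2 F1 F2 hF1 hF2
  obtain ⟨Fs, hFs, hFs'⟩ := exists_merge2 F4 F3 hF4 hF3
  refine ⟨lam, x1, c1, Fs, hq, hcl, hx, hh0, hc1c0, ⟨_, hk, rfl⟩, ⟨0, hc1T⟩, hlt, hio.le, ?_, hFs, ?_, ?_, ?_⟩
  · intro g hg hgc1 F hF
    have hgok := (mem_V.1 hg).2
    have h1 : K.le (c1.res α) d := res_le_of_le (mem_V.1 hd).1 hc1d.2
    have h2 : K.le g d := le_trans_of_ok hgok (hc1d.1.res α) hdok hgc1 h1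
    have h3 : K.le g g0 := le_trans_of_ok hgok hdok hg0ok h2 hdg
    by_contra hcon
    refine h g hg h3 ⟨F, hF, fun N hN hFN hα hx0 g' hg' hg'g htr hh => ?_⟩
    by_contra hcon2
    refine hcon ⟨N, hN, hFN, g', hg', hg'g, htr, hh, hα, hx0, fun a ha hleR hgen => ?_⟩
    exact hcon2 ⟨a, ha, hleR, hgen⟩
  · intro N hN hFN hlamN hx1N y hy c hc hNc
    have hF1N : Cl F1 N := (hF4' N (hFs' N hFN).1).1
    obtain ⟨N1, hN1, -, hAN1, -, c2, hc2, hc2c, hN1c2⟩ := K.exists_node none (fun α' h' => by simp at h')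
      (fun _ => ∅) (fun _ => Set.countable_empty) (c := c) (by rw [PB_none]; exact hc.1) {y, lam, x1}
      (Set.toFinite _).countable
    rw [PB_none] at hc2
    rw [NB_none] at hN1c2
    obtain ⟨e', ⟨N', hN', h1, h2, h3⟩, hIn, hPB, c3, hc3, hc31, hc32⟩ := hF1' N hN hF1N (y, lam, x1) ⟨hy, hlamN, hx1N⟩
      (c2, ()) ⟨N1, hN1c2, hAN1 (by simp), hAN1 (by simp), hAN1 (by simp)⟩
      (by rw [PB_none]; exact hc2) (by rw [NB_none]; exact hc2c.C hNc)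
    rw [PB_none] at hPB hc3
    exact ⟨N', hPB.chain.nice N' hN', (hIn.1.C N' hN').2, h2, h3, h1, c3,
      ex_trans hc.1 ⟨hc3, hc31⟩ ⟨hc2, hc2c⟩, hc32.C hN'⟩
  · intro N hN hFN y hy β hβ c hc hNc g hg hcg hen
    have hF2N : Cl F2 N := (hF4' N (hFs' N hFN).1).2
    obtain ⟨e', ⟨he1, he2, he3⟩, hIn, hPB, c3, hc3, hc31, hc32⟩ := hF2' N hN hF2N (y, β) ⟨hy, hβ⟩
      (c, g) ⟨hg, hcg, hen⟩ (by rw [PB_none]; exact hc) (by rw [NB_none]; exact hNc)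
    rw [PB_none] at hPB hc3
    exact ⟨e'.2, he1, hIn.2, he3, c3, ⟨hc3, hc31⟩, le_trans_of_ok hc3 hPB (mem_V.1 he1).2 hc32 he2⟩
  · intro N hN hFN ζ hζ n
    obtain ⟨y, hy, hy'⟩ := hF3' N (hFs' N hFN).2 (ζ, n) ⟨hζ, trivial⟩ ⟨_, rfl⟩
    rw [← hy']
    exact hy

end Code

end Pool.Agent.Lib.MP_8f49b0_lc.MM
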