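import Pool.Agent.Lib.MP_8f49b0_lc.MM.M.BadDefs

/-! # The bad case: the set `TT` is stationary (module M-BADSTAT)

`Bad.anti`: `Bad` is inherited by stronger `g'` in `K.V α`. `reg_TT`: `reg_rg`. `stat_TT`: let `c ≤ c1` and `f` be as in `StatF`. Apply `refl_PB none` to `E ζ = {(d, β) | K.le d c ∧ β < w1 ∧ d ∈ f ζ β}` (`X = Y = O`), and let `F` collect this function,
`Fs`, and constants: the support of `c` (`exists_supp`), `lam`, `x1`. By `BD.bad` for `c.res α` there are a closed `N` and `g' ≤ c.res α` with `Bad K α x0 h0 N g'`; `add_rel` gives `c' ≤ c` with `N ∈ c'.C`, `c'.res α ≤ g'`.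
`δ` from `Nice.exists_delta`. For `ζ < δ` and `c'' ≤ c'`: extend `c''` to `d ∈ f ζ β` and reflect: some `(d', β') ∈ E ζ` in `N` with `d'`, `d` compatible; `β' ∈ N`, so `β' < δ`. -/

namespace Pool.Agent.Lib.MP_8f49b0_lc.MM

namespace Code

variable {K : Code}

theorem Bad.anti {α x0 h0 : O} {N : Set O} {g g' : Pre} (hpre : PreR K α x0) (hg : g ∈ K.V α) (hg' : g' ∈ K.V α)
    (hh0 : h0 < w1) (hle : K.le g' g) (h : Bad K α x0 h0 N g) : Bad K α x0 h0 N g' := by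
  have _ := hpre
  have _ := hh0
  refine ⟨hle.C h.tr, h.mem_h, h.mem_α, h.mem_x, fun a ha hleR => h.bad a ha ⟨?_, hleR.L⟩⟩
  exact le_trans_of_ok (mem_V.1 ha.1).2 (mem_V.1 hg').2 (mem_V.1 hg).2 hleR.le hle

private theorem res_mem_of_ex {α x0 h0 : O} {c0 : Pre} {q : O → O → Set Pre} {lam x1 : O} {c1 : Pre} {Fs : List O → Set O}
    (hB : BD K α x0 h0 c0 q lam x1 c1 Fs) {c : Pre} (hc : K.ex c c1) : ∃ t ∈ c.T, t.1 = α := by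
  obtain ⟨t, ht, htα⟩ := hB.hα
  obtain ⟨h', h1, _⟩ := hc.2.T t ht
  exact ⟨_, h1, htα⟩

private theorem res_mem_V {α x0 h0 : O} {c0 : Pre} {q : O → O → Set Pre} {lam x1 : O} {c1 : Pre} {Fs : List O → Set O}
    (hB : BD K α x0 h0 c0 q lam x1 c1 Fs) {c : Pre} (hc : K.ex c c1) : c.res α ∈ K.V α := by
  obtain ⟨t, ht, rfl⟩ := res_mem_of_ex hB hc
  exact hc.1.res_mem ht

private theorem open_TT {α x0 h0 : O} {c0 : Pre} {q : O → O → Set Pre} {lam x1 : O} {c1 : Pre} {Fs : List O → Set O}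
    (hB : BD K α x0 h0 c0 q lam x1 c1 Fs) (δ : O) :
    ∀ c ∈ {c | K.ex c c1 ∧ ∃ N ∈ c.C, Cl Fs N ∧ lam ∈ N ∧ x1 ∈ N ∧ (∀ ξ < w1, ξ ∈ N ↔ ξ < δ) ∧
      Bad K α x0 h0 N (c.res α)}, ∀ c', K.ex c' c → c' ∈ {c | K.ex c c1 ∧ ∃ N ∈ c.C, Cl Fs N ∧ lam ∈ N ∧ x1 ∈ N ∧
      (∀ ξ < w1, ξ ∈ N ↔ ξ < δ) ∧ Bad K α x0 h0 N (c.res α)} := by
  rintro c ⟨hc, N, hN, h1, h2, h3, h4, h5⟩ c' hc'
  have hex : K.ex c' c1 := ex_trans hB.hc1.1 hc' hc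
  refine ⟨hex, N, hc'.2.C hN, h1, h2, h3, h4, ?_⟩
  exact Bad.anti (preR_of_codeQ hB.hq hB.code) (res_mem_V hB hc) (res_mem_V hB hex) hB.hh0 (hc'.2.res α) h5

theorem reg_TT {α x0 h0 : O} {c0 : Pre} {q : O → O → Set Pre} {lam x1 : O} {c1 : Pre} {Fs : List O → Set O}
    (hB : BD K α x0 h0 c0 q lam x1 c1 Fs) (δ : O) : K.Reg (TT K α x0 h0 lam x1 c1 Fs δ) := by
  exact reg_rg (open_TT hB δ)

theorem stat_TT {α x0 h0 : O} {c0 : Pre} {q : O → O → Set Pre} {lam x1 : O} {c1 : Pre} {Fs : List O → Set O}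
    (hB : BD K α x0 h0 c0 q lam x1 c1 Fs) : K.StatF c1 (TT K α x0 h0 lam x1 c1 Fs) := by
  intro c hc f hf htot
  obtain ⟨F1, hF1, hF1'⟩ := K.refl_PB none (fun α' h' => by simp at h') (X := O) (Y := O)
    (fun ζ => {e | K.le e.1 c ∧ e.2 < w1 ∧ e.1 ∈ f ζ e.2}) (fun p e _ => ⟨{e.2}, rfl⟩)
  have hcC : ∀ N ∈ c.C, N.Countable := fun N hN => (hc.1.chain.nice N hN).count
  obtain ⟨A, hA, hA'⟩ := exists_supp K c hcC
  obtain ⟨F2, hF2, hF2'⟩ := exists_const (A ∪ {lam, x1}) (hA.countable.union (Set.toFinite _).countable)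
  obtain ⟨F3, hF3, hF3'⟩ := exists_merge2 F1 F2 hF1 hF2
  obtain ⟨F, hF, hF'⟩ := exists_merge2 F3 Fs hF3 hB.Fs1
  obtain ⟨N, hN, hFN, g', hg', hle, hbad⟩ := hB.bad (c.res α) (res_mem_V hB hc) (hc.2.res α) F hF
  obtain ⟨hFN3, hFsN⟩ := hF' N hFN
  obtain ⟨hFN1, hFN2⟩ := hF3' N hFN3
  have hsub := hF2' N hFN2
  have hPIn : K.PIn N c := (hA' N).2 (Set.subset_union_left.trans hsub)
  have hlamN : lam ∈ N := hsub (Or.inr (by simp))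
  have hx1N : x1 ∈ N := hsub (Or.inr (by simp))
  obtain ⟨t, ht, htα⟩ := res_mem_of_ex hB hc
  subst htα
  obtain ⟨c', hc', hNc', hle', -⟩ := add_rel hc.1 hN hPIn ht hg' hle (fun _ => hbad.tr)
  have hc'1 : K.ex c' c1 := ex_trans hB.hc1.1 hc' hc
  obtain ⟨δ, hδ, hδ'⟩ := hN.exists_delta
  have h0w : (0 : O) < w1 := Ordinal.omega_pos 1
  have hδ0 : δ ≠ 0 := by
    intro h0
    have h1 := (hδ' 0 h0w).1 hN.zero_mem
    rw [h0] at h1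
    exact lt_irrefl _ h1
  have hPre : PreR K t.1 x0 := preR_of_codeQ hB.hq hB.code
  refine ⟨c', hc', δ, hδ, hδ0, ?_, ?_⟩
  · refine subset_rg (fun c hc => hc.1.1) (open_TT hB δ) ?_
    exact ⟨hc'1, N, hNc', hFsN, hlamN, hx1N, hδ', Bad.anti hPre hg' (res_mem_V hB hc'1) hB.hh0 hle' hbad⟩
  · intro ζ hζ c'' hc''
    have hc''c : K.ex c'' c := ex_trans hc.1 hc'' hc'
    obtain ⟨d, hd, β, hβ, hdf⟩ := htot ζ (hζ.trans hδ) c'' hc''c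
    have hdc : K.ex d c := ex_trans hc.1 hd hc''c
    have hζN : ζ ∈ N := (hδ' ζ (hζ.trans hδ)).2 hζ
    obtain ⟨e', he', hIn, hPB, e, he, he1, he2⟩ := hF1' N hN hFN1 ζ hζN (d, β) ⟨hdc.2, hβ, hdf⟩
      (by rw [PB_none]; exact hd.1) (by rw [NB_none]; exact hd.2.C (hc''.2.C hNc'))
    rw [PB_none] at hPB he
    refine ⟨e, ex_trans hc''.1 ⟨he, he1⟩ hd, e'.2, (hδ' _ he'.2.1).1 hIn.2, ?_⟩
    exact (hf ζ e'.2).opn e'.1 he'.2.2 e ⟨he, he2⟩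

end Code

end Pool.Agent.Lib.MP_8f49b0_lc.MM
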