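import Pool.Agent.Lib.MP_8f49b0_lc.MM.M.QDefs

/-! # Codes of finite sets of pairs (module M-FP)

The set of the finite sets of pairs with tuples below `w1` has cardinality `ℵ₁`. -/

namespace Pool.Agent.Lib.MP_8f49b0_lc.MM

open Cardinal in
private theorem Fp_card : #(Set.Iio w1) = ℵ_ 1 := by
  rw [Cardinal.mk_Iio_ordinal, Ordinal.card_omega, Cardinal.lift_aleph, Ordinal.lift_one]

private theorem Fp_inf : Infinite (Set.Iio w1) := by
  rw [Cardinal.infinite_iff, Fp_card]
  exact Cardinal.aleph0_le_aleph 1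

open Cardinal in
private theorem Fp_tup (ι : Type) [Finite ι] : #(ι → Set.Iio w1) ≤ #(Set.Iio w1) := by
  have := Fp_inf
  obtain ⟨n, ⟨e⟩⟩ := Finite.exists_equiv_fin ι
  have h : Function.Injective (fun f : ι → Set.Iio w1 => List.ofFn (f ∘ e.symm)) := by
    intro f g hfg
    have h1 : f ∘ e.symm = g ∘ e.symm := List.ofFn_injective hfg
    funext i
    have := congrFun h1 (e i)
    simpa using this
  calc #(ι → Set.Iio w1) ≤ #(List (Set.Iio w1)) := Cardinal.mk_le_of_injective h
    _ = #(Set.Iio w1) := Cardinal.mk_list_eq_mk _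

open Cardinal in
private theorem Fp_fin (ι : Type) [Finite ι] : #(Finset ((ι → Set.Iio w1) × ℕ)) ≤ #(Set.Iio w1) := by
  have := Fp_inf
  have : Nonempty (ι → Set.Iio w1) := ⟨fun _ => Classical.arbitrary _⟩
  have : Infinite ((ι → Set.Iio w1) × ℕ) := Prod.infinite_of_right
  rw [Cardinal.mk_finset_of_infinite, Cardinal.mk_prod]
  have h0 : ℵ₀ ≤ #(Set.Iio w1) := Cardinal.infinite_iff.1 Fp_inf
  simp only [Cardinal.mk_nat, Cardinal.lift_aleph0, Cardinal.lift_id']
  calc #(ι → Set.Iio w1) * ℵ₀ ≤ #(Set.Iio w1) * #(Set.Iio w1) := mul_le_mul' (Fp_tup ι) h0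
    _ = #(Set.Iio w1) := Cardinal.mul_eq_self h0

/-- the embedding of the tuples of elements of `Set.Iio w1` -/
private noncomputable def Fp_val (ι : Type) (e : (ι → Set.Iio w1) × ℕ) : (ι → O) × ℕ :=
  (fun i => (e.1 i : O), e.2)

theorem exists_fp (ι : Type) [Finite ι] : ∃ fp : O → Finset ((ι → O) × ℕ), FP ι fp := by
  classical
  obtain ⟨g⟩ := Fp_fin ι
  have hw : (0 : O) < w1 := Ordinal.omega_pos 1
  refine ⟨fun h => if h1 : ∃ s, Order.succ ((g s : Set.Iio w1) : O) = h then (h1.choose).image (Fp_val ι) else ∅,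
    ?_, ?_, ?_⟩
  · rw [dif_neg]
    rintro ⟨s, hs⟩
    simp at hs
  · intro h e he i
    split_ifs at he with h1
    · rw [Finset.mem_image] at he
      obtain ⟨e', _, rfl⟩ := he
      exact (e'.1 i).2
    · simp at he
  · intro s hs
    let t : Finset ((ι → Set.Iio w1) × ℕ) := s.attach.image (fun e => (fun i => ⟨e.1.1 i, hs e.1 e.2 i⟩, e.1.2))
    have ht : t.image (Fp_val ι) = s := by
      ext e
      simp only [t, Finset.mem_image, Finset.mem_attach, true_and, Subtype.exists]
      constructor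
      · rintro ⟨a, ⟨e', he', rfl⟩, rfl⟩
        exact he'
      · intro he
        exact ⟨_, ⟨e, he, rfl⟩, rfl⟩
    refine ⟨Order.succ ((g t : Set.Iio w1) : O), ?_, ?_⟩
    · exact (Cardinal.isSuccLimit_omega 1).succ_lt (g t).2
    · have h1 : ∃ s, Order.succ ((g s : Set.Iio w1) : O) = Order.succ ((g t : Set.Iio w1) : O) := ⟨t, rfl⟩
      rw [dif_pos h1]
      have h2 := h1.choose_spec
      have h3 : h1.choose = t := by
        apply g.injective
        exact Subtype.ext (Order.succ_injective h2)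
      rw [h3, ht]

/-- a coding of the tuples of countable ordinals by countable ordinals -/
theorem exists_tup (ι : Type) [Finite ι] : ∃ tp : O → (ι → O), (∀ h i, tp h i < w1) ∧
    ∀ b : ι → O, (∀ i, b i < w1) → ∃ h < w1, tp h = b := by
  classical
  obtain ⟨g⟩ := Fp_tup ι
  have hw : (0 : O) < w1 := Ordinal.omega_pos 1
  refine ⟨fun h => if h1 : ∃ s, ((g s : Set.Iio w1) : O) = h then (fun i => ((h1.choose i : Set.Iio w1) : O)) else
    fun _ => 0, ?_, ?_⟩
  · intro h i
    dsimp only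
    split_ifs with h1
    · exact (h1.choose i).2
    · exact hw
  · intro b hb
    let t : ι → Set.Iio w1 := fun i => ⟨b i, hb i⟩
    refine ⟨((g t : Set.Iio w1) : O), (g t).2, ?_⟩
    have h1 : ∃ s, ((g s : Set.Iio w1) : O) = ((g t : Set.Iio w1) : O) := ⟨t, rfl⟩
    dsimp only
    rw [dif_pos h1]
    have h3 : h1.choose = t := g.injective (Subtype.ext h1.choose_spec)
    rw [h3]

end Pool.Agent.Lib.MP_8f49b0_lc.MM
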