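import Pool.Agent.Lib.MP_8f49b0_lc.MM.M.QBasic
import Pool.Agent.Lib.MP_8f49b0_lc.MM.M.ClsEx

/-! # Closed levels for `qF` (module M-QCLS)

`exists_ClsQ`, and `exists_cls` for `X = O` three times (`decide_ex`; `FamF.bdd`; for `sep`: by induction over the finitely many pairs, unfolding `rg` in `LT`). -/

namespace Pool.Agent.Lib.MP_8f49b0_lc.MM

namespace Code

variable {K : Code} {ι : Type} {c0 : Pre} {F : (ι → O) → Set Pre} {fp : O → Finset ((ι → O) × ℕ)}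

private theorem QCls_sep {h : O} {g : Pre} (hg : K.Ok g) (hgV : g ∈ K.VF F fp h)
    (S : Finset (((ι → O) × ℕ) × ((ι → O) × ℕ))) :
    (∀ v ∈ S, v.1 ∈ fp h ∧ v.2 ∈ fp h) → ∃ c, K.ex c g ∧
      ∀ v ∈ S, v.1.2 = v.2.2 → v.1.1 ≠ v.2.1 → (Lt c.u v.1.1 v.2.1 ∨ Lt c.u v.2.1 v.1.1) := by
  classical
  induction S using Finset.induction_on with
  | empty =>
    intro _
    exact ⟨g, ex_refl hg, fun v hv => absurd hv (Finset.notMem_empty v)⟩
  | insert w S hw ih =>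
    intro hS
    obtain ⟨c, hc, hcS⟩ := ih (fun v hv => hS v (Finset.mem_insert_of_mem hv))
    by_cases hcase : w.1.2 = w.2.2 ∧ w.1.1 ≠ w.2.1
    · have hwS := hS w (Finset.mem_insert_self w S)
      have hLT : g ∈ K.LT w.1.1 w.2.1 := hgV.2.2 w.1 hwS.1 w.2 hwS.2 hcase.1 hcase.2
      obtain ⟨c'', hc'', _, hlt⟩ := hLT.2 c hc
      refine ⟨c'', ex_trans hg hc'' hc, ?_⟩
      intro v hv h1 h2
      rcases Finset.mem_insert.mp hv with rfl | hv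
      · exact hlt
      · rcases hcS v hv h1 h2 with h3 | h3
        · exact Or.inl (h3.mono hc''.2.u)
        · exact Or.inr (h3.mono hc''.2.u)
    · refine ⟨c, hc, ?_⟩
      intro v hv h1 h2
      rcases Finset.mem_insert.mp hv with rfl | hv
      · exact absurd ⟨h1, h2⟩ hcase
      · exact hcS v hv h1 h2

theorem exists_ClsF (hF : K.FamF c0 F) :
    ∃ f : O → O, ∀ α, K.Tr α → (∀ β < α, f β < α) → c0 ∈ K.V α → K.ClsF α c0 F fp := by
  classical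
  obtain ⟨f1, hf1⟩ := exists_ClsQ (K := K) c0 (K.qF F fp)
  obtain ⟨f2, hf2⟩ := K.exists_cls (X := O)
    (fun h => {c | c ∈ K.VF F fp h ∨ ∀ c', K.ex c' c → c' ∉ K.VF F fp h})
  obtain ⟨f3, hf3⟩ := K.exists_cls (X := O)
    (fun γ => {c | ∃ γ' < w1, ∀ b, ∀ c'', K.ex c'' c → c'' ∈ F b → (∀ i, γ < b i) ∨ (∀ i, b i < γ')})
  obtain ⟨f4, hf4⟩ := K.exists_cls (X := O)
    (fun h => {c | ∀ e ∈ fp h, ∀ e' ∈ fp h, e.2 = e'.2 → e.1 ≠ e'.1 →
      (Lt c.u e.1 e'.1 ∨ Lt c.u e'.1 e.1)})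
  refine ⟨fun β => max (max (f1 β) (f2 β)) (max (f3 β) (f4 β)), ?_⟩
  intro α hα hf hc0
  have e1 : ∀ β < α, f1 β < α := fun β hβ =>
    lt_of_le_of_lt ((le_max_left _ _).trans (le_max_left _ _)) (hf β hβ)
  have e2 : ∀ β < α, f2 β < α := fun β hβ =>
    lt_of_le_of_lt ((le_max_right _ _).trans (le_max_left _ _)) (hf β hβ)
  have e3 : ∀ β < α, f3 β < α := fun β hβ =>
    lt_of_le_of_lt ((le_max_left _ _).trans (le_max_right _ _)) (hf β hβ)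
  have e4 : ∀ β < α, f4 β < α := fun β hβ =>
    lt_of_le_of_lt ((le_max_right _ _).trans (le_max_right _ _)) (hf β hβ)
  refine ⟨hf1 α hα e1 hc0, ?_, ?_, ?_⟩
  · intro h hh g hg
    refine hf2 α hα e2 h (lt_trans hh hα.w1) g hg ?_
    obtain ⟨c, hc, hc'⟩ := decide_ex (K.VF F fp h) (mem_V.1 hg).2
    exact ⟨c, hc, hc'⟩
  · intro γ hγ g hg hgc0
    refine hf3 α hα e3 γ (lt_trans hγ hα.w1) g hg ?_
    exact hF.bdd γ hγ g ⟨(mem_V.1 hg).2, hgc0⟩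
  · intro h hh g hg hgV
    refine hf4 α hα e4 h (lt_trans hh hα.w1) g hg ?_
    obtain ⟨c, hc, hcS⟩ := QCls_sep (mem_V.1 hg).2 hgV (fp h ×ˢ fp h)
      (fun v hv => Finset.mem_product.mp hv)
    exact ⟨c, hc, fun e he e' he' h1 h2 => hcS (e, e') (Finset.mem_product.mpr ⟨he, he'⟩) h1 h2⟩

end Code

end Pool.Agent.Lib.MP_8f49b0_lc.MM
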