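import Pool.Agent.Lib.MP_8f49b0_lc.MM.M.QGood
import Pool.Agent.Lib.MP_8f49b0_lc.MM.M.QCls
import Pool.Agent.Lib.MP_8f49b0_lc.MM.M.FilGood
import Pool.Agent.Lib.MP_8f49b0_lc.MM.M.Fp

/-! # Families of tuples are sigma-increasing (module M-COLOR), (5.2) of the paper

`DF F fp b h`: the truth value of: `b` is not in `F`, or `h` is valid and gives a colour to `b`. `denQ_DF`: let `i` code `b = tp i`; given `c ≤ c0`, `h`: decide `F b` and `VF h`. If `b ∉ F` take `h' = h`. If `VF h` is false take `h'` with `fp h' = {(b, 0)}`. Otherwise take a new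
colour `n` and `fp h' = insert (b, n) (fp h)`. `color`: `exists_fp`, `exists_tup`, `exists_ClsF`, `exists_ClsD`, `exists_tr2`, `exists_good_qF`, `fil_of_good`; `π b n = K.rg {c | K.Ok c ∧ ∃ h < w1, c ∈ G h ∧ c ∈ VF h ∧ (b, n) ∈ fp h}`. -/

namespace Pool.Agent.Lib.MP_8f49b0_lc.MM

namespace Code

variable {K : Code} {ι : Type} {c0 : Pre} {F : (ι → O) → Set Pre} {fp : O → Finset ((ι → O) × ℕ)}

/-- `b` is not in `F`, or `h` is valid and gives a colour to `b` -/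
def DF (K : Code) (F : (ι → O) → Set Pre) (fp : O → Finset ((ι → O) × ℕ)) (b : ι → O) (h : O) : Set Pre :=
  K.rg {c | K.Ok c ∧ ((∀ c', K.ex c' c → c' ∉ F b) ∨ (c ∈ K.VF F fp h ∧ ∃ n, (b, n) ∈ fp h))}

private theorem color_open_DF (hF : K.FamF c0 F) (b : ι → O) (h : O) :
    ∀ c ∈ {c | K.Ok c ∧ ((∀ c', K.ex c' c → c' ∉ F b) ∨ (c ∈ K.VF F fp h ∧ ∃ n, (b, n) ∈ fp h))},
      ∀ c', K.ex c' c →
        c' ∈ {c | K.Ok c ∧ ((∀ c', K.ex c' c → c' ∉ F b) ∨ (c ∈ K.VF F fp h ∧ ∃ n, (b, n) ∈ fp h))} := by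
  rintro c ⟨h1, h2 | h2⟩ c' h3
  · exact ⟨h3.1, Or.inl fun c'' h4 => h2 c'' (ex_trans h1 h4 h3)⟩
  · exact ⟨h3.1, Or.inr ⟨(reg_VF hF h).opn c h2.1 c' h3, h2.2⟩⟩

theorem denQ_DF (hF : K.FamF c0 F) (hfp : FP ι fp) (hc0 : K.Ok c0) {tp : O → (ι → O)} (htp : ∀ h i, tp h i < w1) :
    K.DenQ c0 (K.qF F fp) (fun i h => DF K F fp (tp i) h) := by
  classical
  constructor
  · intro i h
    exact reg_rg (color_open_DF hF (tp i) h)
  · intro i hi h hh c hc
    have hsub : ∀ h' : O, {c | K.Ok c ∧ ((∀ c', K.ex c' c → c' ∉ F (tp i)) ∨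
        (c ∈ K.VF F fp h' ∧ ∃ n, (tp i, n) ∈ fp h'))} ⊆ DF K F fp (tp i) h' := fun h' =>
      subset_rg (fun d hd => hd.1) (color_open_DF hF (tp i) h')
    obtain ⟨c1, h1, h2⟩ := decide_ex (K := K) (F (tp i)) hc.1
    rcases h2 with h2 | h2
    · obtain ⟨c2, h3, h4⟩ := decide_ex (K := K) (K.VF F fp h) h1.1
      have hc2F : c2 ∈ F (tp i) := (hF.reg (tp i)).opn c1 h2 c2 h3
      rcases h4 with h4 | h4
      · -- a new colour
        obtain ⟨n, hn⟩ := Infinite.exists_notMem_finset ((fp h).image Prod.snd)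
        have hn' : ∀ e ∈ fp h, e.2 ≠ n := by
          intro e he h5
          apply hn
          rw [Finset.mem_image]
          exact ⟨e, he, h5⟩
        obtain ⟨h', hh', hfph'⟩ := hfp.surj (insert (tp i, n) (fp h)) (by
          intro e he
          rcases Finset.mem_insert.1 he with h5 | h5
          · rw [h5]
            exact htp i
          · exact hfp.lt h e h5)
        have hv : c2 ∈ K.VF F fp h' := by
          refine ⟨h3.1, ?_, ?_⟩
          · intro e he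
            rw [hfph'] at he
            rcases Finset.mem_insert.1 he with h5 | h5
            · rw [h5]
              exact hc2F
            · exact h4.2.1 e h5
          · intro e he e' he' h6 h7
            rw [hfph'] at he he'
            rcases Finset.mem_insert.1 he with h5 | h5 <;> rcases Finset.mem_insert.1 he' with h8 | h8
            · rw [h5, h8] at h7
              exact absurd rfl h7
            · rw [h5] at h6
              exact absurd h6.symm (hn' e' h8)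
            · rw [h8] at h6
              exact absurd h6 (hn' e h5)
            · exact h4.2.2 e h5 e' h8 h6 h7
        refine ⟨c2, ex_trans hc.1 h3 h1, h', hh', ?_, ?_⟩
        · refine mem_qF_of hF h3.1 (Or.inr (Or.inr ⟨hv, ?_⟩))
          rw [hfph']
          exact Finset.subset_insert _ _
        · refine hsub h' ⟨h3.1, Or.inr ⟨hv, n, ?_⟩⟩
          rw [hfph']
          exact Finset.mem_insert_self _ _
      · obtain ⟨h', hh', hfph'⟩ := hfp.surj {(tp i, 0)} (by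
          intro e he
          rw [Finset.mem_singleton.1 he]
          exact htp i)
        have hv : c2 ∈ K.VF F fp h' := by
          refine ⟨h3.1, ?_, ?_⟩
          · intro e he
            rw [hfph'] at he
            rw [Finset.mem_singleton.1 he]
            exact hc2F
          · intro e he e' he' h6 h7
            rw [hfph'] at he he'
            rw [Finset.mem_singleton.1 he, Finset.mem_singleton.1 he'] at h7
            exact absurd rfl h7
        refine ⟨c2, ex_trans hc.1 h3 h1, h', hh', ?_, ?_⟩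
        · exact mem_qF_of hF h3.1 (Or.inr (Or.inl h4))
        · refine hsub h' ⟨h3.1, Or.inr ⟨hv, 0, ?_⟩⟩
          rw [hfph']
          exact Finset.mem_singleton_self _
    · have hp := preQ_qF hF hfp hc0
      refine ⟨c1, h1, h, hh, ?_, ?_⟩
      · exact (hp.reg h h).opn c0 (hp.refl h hh) c1 (ex_trans hc0 h1 hc)
      · exact hsub h ⟨h1.1, Or.inl h2⟩

theorem color [Finite ι] (hc0 : K.Ok c0) (hF : K.FamF c0 F) :
    ∃ c1, K.ex c1 c0 ∧ ∃ π : (ι → O) → ℕ → Set Pre, (∀ b n, K.Reg (π b n)) ∧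
      (∀ b c, K.ex c c1 → c ∈ F b → ∃ c', K.ex c' c ∧ ∃ n, c' ∈ π b n) ∧
      ∀ b b' n c, b ≠ b' → K.ex c c1 → c ∈ F b → c ∈ F b' → c ∈ π b n → c ∈ π b' n →
        ∃ c', K.ex c' c ∧ (Lt c'.u b b' ∨ Lt c'.u b' b) := by
  obtain ⟨fp, hfp⟩ := exists_fp ι
  obtain ⟨tp, htp, htps⟩ := exists_tup ι
  have hD := denQ_DF hF hfp hc0 htp
  have hp := preQ_qF hF hfp hc0
  obtain ⟨f, hf⟩ := exists_ClsF (fp := fp) hF
  obtain ⟨g, hg⟩ := exists_ClsD hD
  obtain ⟨α0, -, hα0⟩ := hc0.exists_below 0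
  obtain ⟨α, hα1, hα2, hα3, hα4⟩ := exists_tr2 (K := K) f g α0
  have hc0α : c0 ∈ K.V α := mem_V.2 ⟨hα0.mono hα1.le, hc0⟩
  have hcl := hf α hα2 hα3 hc0α
  have hclD := hg α hα2 hα4
  obtain ⟨x, hx, hL⟩ := exists_good_qF hc0 hF hfp hcl
  obtain ⟨c2, hc2, G, hG⟩ := fil_of_good hp hcl.cls hD.reg hclD hx hL hc0α (le_refl_of_ok hc0)
  have hopen : ∀ (b : ι → O) (n : ℕ), ∀ c ∈ {c | K.Ok c ∧ ∃ h < w1, c ∈ G h ∧ c ∈ K.VF F fp h ∧ (b, n) ∈ fp h},
      ∀ c', K.ex c' c → c' ∈ {c | K.Ok c ∧ ∃ h < w1, c ∈ G h ∧ c ∈ K.VF F fp h ∧ (b, n) ∈ fp h} := by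
    rintro b n c ⟨-, h, h1, h2, h3, h4⟩ c' h5
    exact ⟨h5.1, h, h1, (hG.reg h).opn c h2 c' h5, (reg_VF hF h).opn c h3 c' h5, h4⟩
  refine ⟨c2, hc2, fun b n => K.rg {c | K.Ok c ∧ ∃ h < w1, c ∈ G h ∧ c ∈ K.VF F fp h ∧ (b, n) ∈ fp h}, ?_, ?_, ?_⟩
  · intro b n
    exact reg_rg (hopen b n)
  · intro b c hc hcF
    obtain ⟨i, hi, hib⟩ := htps b (hF.lt b c hcF)
    obtain ⟨c', h1, h, hh, h2, h3⟩ := hG.meet i hi c hc
    simp only [hib] at h3
    obtain ⟨c'', h4, h5, h6⟩ := mem_rg_self h3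
    have h7 : K.ex c'' c := ex_trans hc.1 h4 h1
    rcases h6 with h6 | h6
    · exact absurd ((hF.reg b).opn c hcF c'' h7) (h6 c'' (ex_refl h5))
    · obtain ⟨h8, n, h9⟩ := h6
      refine ⟨c'', h7, n, ?_⟩
      exact subset_rg (fun d hd => hd.1) (hopen b n) ⟨h5, h, hh, (hG.reg h).opn c' h2 c'' h4, h8, h9⟩
  · intro b b' n c hbb hc hcF hcF' hcb hcb'
    obtain ⟨d1, h1, -, i1, h2, h3, h4, h5⟩ := mem_rg_self hcb
    have h6 := (reg_rg (hopen b' n)).opn c hcb' d1 h1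
    obtain ⟨d2, h7, -, i2, h8, h9, h10, h11⟩ := mem_rg_self h6
    have hd2 : K.ex d2 c := ex_trans hc.1 h7 h1
    obtain ⟨d3, h12, i3, h13, h14, h15, h16⟩ := hG.dir i1 h2 i2 h8 d2 (ex_trans hc2.1 hd2 hc)
      ((hG.reg i1).opn d1 h3 d2 h7) h9
    have h17 : d3 ∈ K.VF F fp i1 := (reg_VF hF i1).opn d1 h4 d3 (ex_trans h1.1 h12 h7)
    have h18 : d3 ∈ K.VF F fp i2 := (reg_VF hF i2).opn d2 h10 d3 h12
    have h19 := sub_of_mem_qF hF h12.1 h15 (Finset.ne_empty_of_mem h5) h17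
    have h20 := sub_of_mem_qF hF h12.1 h16 (Finset.ne_empty_of_mem h11) h18
    have h21 : d3 ∈ K.LT b b' := h19.1.2.2 (b, n) (h19.2 h5) (b', n) (h20.2 h11) rfl hbb
    obtain ⟨d4, h22, -, h23⟩ := mem_rg_self h21
    exact ⟨d4, ex_trans hc.1 h22 (ex_trans hc.1 h12 hd2), h23⟩

end Code

end Pool.Agent.Lib.MP_8f49b0_lc.MM
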