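import Pool.Agent.Lib.MP_8f49b0_lc.MM.I.Order

/-!
# MP_8f49b0_lc: names (part M, definitions)

Truth values are regular open sets of conditions; `c ∈ A` is read as: `c` forces `A`. A name of a subset of `ω₁` is a family of truth values indexed by the ordinals below
`w1`, etc.
-/

namespace Pool.Agent.Lib.MP_8f49b0_lc.MM

namespace Code

variable (K : Code)

/-- truth values -/
structure Reg (A : Set Pre) : Prop where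
  ok : ∀ c ∈ A, K.Ok c
  opn : ∀ c ∈ A, ∀ c', K.ex c' c → c' ∈ A
  reg : ∀ c, K.Ok c → (∀ c', K.ex c' c → ∃ c'', K.ex c'' c' ∧ c'' ∈ A) → c ∈ A

/-- the truth value generated by an open set -/
def rg (A : Set Pre) : Set Pre := {c | K.Ok c ∧ ∀ c', K.ex c' c → ∃ c'', K.ex c'' c' ∧ c'' ∈ A}

/-- `c0` forces that `q` is a preorder on `ω₁` with the top `0` (`q h' h` is the truth value of `h' ≤ h`) -/
structure PreQ (c0 : Pre) (q : O → O → Set Pre) : Prop where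
  reg : ∀ h' h, K.Reg (q h' h)
  refl : ∀ h < w1, c0 ∈ q h h
  trans : ∀ h'' < w1, ∀ h' < w1, ∀ h < w1, ∀ c, K.ex c c0 → c ∈ q h'' h' → c ∈ q h' h → c ∈ q h'' h
  top : ∀ h < w1, c0 ∈ q h 0

/-- `c0` forces that `S` is a stationary subset of `ω₁`: for every name `f` of a relation on `ω₁` which is total there is a nonzero `δ` in `S` such that every
`ζ < δ` is in relation with some `β < δ` -/
def StatF (c0 : Pre) (S : O → Set Pre) : Prop :=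
  ∀ c, K.ex c c0 → ∀ f : O → O → Set Pre, (∀ ζ β, K.Reg (f ζ β)) →
    (∀ ζ < w1, ∀ c', K.ex c' c → ∃ c'', K.ex c'' c' ∧ ∃ β < w1, c'' ∈ f ζ β) →
    ∃ c', K.ex c' c ∧ ∃ δ < w1, δ ≠ 0 ∧ c' ∈ S δ ∧
      ∀ ζ < δ, ∀ c'', K.ex c'' c' → ∃ d, K.ex d c'' ∧ ∃ β < δ, d ∈ f ζ β

/-- `c0` forces that `q` preserves stationary subsets of `ω₁` -/
def SPQ (c0 : Pre) (q : O → O → Set Pre) : Prop :=
  ∀ S : O → Set Pre, (∀ δ, K.Reg (S δ)) → ∀ R : O → O → O → Set Pre, (∀ h ζ β, K.Reg (R h ζ β)) →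
    ∀ c1, K.ex c1 c0 → K.StatF c1 S →
    (∀ h' < w1, ∀ h < w1, ∀ ζ < w1, ∀ β < w1, ∀ c, K.ex c c1 → c ∈ q h' h → c ∈ R h ζ β → c ∈ R h' ζ β) →
    (∀ ζ < w1, ∀ h < w1, ∀ c, K.ex c c1 → ∃ c', K.ex c' c ∧ ∃ h' < w1, c' ∈ q h' h ∧ ∃ β < w1, c' ∈ R h' ζ β) →
    ∀ h0 < w1, ∃ c2, K.ex c2 c1 ∧ ∃ δ < w1, ∃ h < w1, c2 ∈ S δ ∧ c2 ∈ q h h0 ∧
      ∀ ζ < δ, ∀ r < w1, ∀ c, K.ex c c2 → c ∈ q r h →
        ∃ c', K.ex c' c ∧ ∃ r' < w1, c' ∈ q r' r ∧ ∃ β < δ, c' ∈ R r' ζ β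

/-- the iteration with `q` preserves that the Cohen reals are an increasing set -/
def IncQ (c0 : Pre) (q : O → O → Set Pre) : Prop :=
  ∀ (ι : Type) [Finite ι] (Z : Set (Pre × O × (ι → O))), (∀ z ∈ Z, K.Ok z.1 ∧ z.2.1 < w1) → ∀ c1, K.ex c1 c0 → ∀ h0 < w1,
    (∀ c, K.ex c c1 → ∀ h < w1, c ∈ q h h0 → ∀ γ < w1, ∃ z ∈ Z, (∀ i, γ < z.2.2 i ∧ z.2.2 i < w1) ∧
      ∃ c', K.ex c' c ∧ K.le c' z.1 ∧ ∃ h' < w1, c' ∈ q h' h ∧ c' ∈ q h' z.2.1) →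
    ∃ z1 ∈ Z, ∃ z2 ∈ Z, ∃ c', K.ex c' c1 ∧ K.le c' z1.1 ∧ K.le c' z2.1 ∧ Lt c'.u z1.2.2 z2.2.2 ∧
      ∃ h' < w1, c' ∈ q h' h0 ∧ c' ∈ q h' z1.2.1 ∧ c' ∈ q h' z2.2.1

/-- `c0` forces that the sets `D i` are dense in `q` -/
structure DenQ (c0 : Pre) (q D : O → O → Set Pre) : Prop where
  reg : ∀ i h, K.Reg (D i h)
  dense : ∀ i < w1, ∀ h < w1, ∀ c, K.ex c c0 → ∃ c', K.ex c' c ∧ ∃ h' < w1, c' ∈ q h' h ∧ c' ∈ D i h'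

/-- `c1` forces that `G` is a filter on `q` which meets all the `D i` -/
structure FilQ (c1 : Pre) (q D : O → O → Set Pre) (G : O → Set Pre) : Prop where
  reg : ∀ h, K.Reg (G h)
  top : c1 ∈ G 0
  up : ∀ h < w1, ∀ h' < w1, ∀ c, K.ex c c1 → c ∈ G h → c ∈ q h h' → c ∈ G h'
  dir : ∀ h < w1, ∀ h' < w1, ∀ c, K.ex c c1 → c ∈ G h → c ∈ G h' →
    ∃ c', K.ex c' c ∧ ∃ h'' < w1, c' ∈ G h'' ∧ c' ∈ q h'' h ∧ c' ∈ q h'' h'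
  meet : ∀ i < w1, ∀ c, K.ex c c1 → ∃ c', K.ex c' c ∧ ∃ h < w1, c' ∈ G h ∧ c' ∈ D i h

/-- the relation on `ω₁` given by `q` below `c0`: `g` forces that `h' ≤ h` if `c0` belongs to the generic filter -/
def RQ (c0 : Pre) (q : O → O → Set Pre) (g : Pre) (h' h : O) : Prop :=
  ∀ c, K.ex c g → K.le c c0 → c ∈ q h' h

/-- `x` codes the relation `RQ` at the level `α` -/
def CodeQ (α x : O) (c0 : Pre) (q : O → O → Set Pre) : Prop :=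
  ∀ g ∈ K.V α, ∀ h' < w1, ∀ h < w1, (K.L x g h' h ↔ K.RQ c0 q g h' h)

/-- the level `α` is closed for `c0` and `q` -/
structure ClsQ (α : O) (c0 : Pre) (q : O → O → Set Pre) : Prop where
  tr : K.Tr α
  c0 : c0 ∈ K.V α
  cmp : ∀ g ∈ K.V α, ∀ g' ∈ K.V α, (∃ c, K.ex c g ∧ K.le c g') → ∃ d ∈ K.V α, K.le d g ∧ K.le d g'
  dec : ∀ h' < w1, ∀ h < w1, ∀ g ∈ K.V α, ∃ d ∈ K.V α, K.le d g ∧
    (d ∈ q h' h ∨ ∀ c, K.ex c d → c ∉ q h' h)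

/-- the level `α` is closed for `D` -/
def ClsD (α : O) (c0 : Pre) (q D : O → O → Set Pre) : Prop :=
  ∀ i < w1, ∀ h < w1, ∀ g ∈ K.V α, K.le g c0 → ∃ d ∈ K.V α, K.le d g ∧ ∃ h' < w1, d ∈ q h' h ∧ d ∈ D i h'

end Code

end Pool.Agent.Lib.MP_8f49b0_lc.MM
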