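import Pool.Agent.Lib.MP_8f49b0_lc.MM.M.RQ

/-! # The dichotomy (module M-FINE), (5.1) of the paper

`Fine K α x0 h0 g1`: below `g1` all closed countable nodes can be made generic over `h0`.
`fine_incompat`: the relation is trivial below `g1`; the function is that of `refl_PB (some α)` for `E y = {(e, k) | (e, k) ∈ K.en α y, e ∈ K.V α}` (`X = Y = O`); every `(g, h0)` is generic: given `y ∈ N` and `a' ≤ (g, h0)` first extend `a'` into
`K.en α y` (dense) to `(g2, k2)`; by `refl_PB` there are `(d, k)` in `N` and `g* ≤ g2, d`, and `(g*, k2) ≤ (d, k)`, because `g*` has no extension below `c0`.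
`hp_of_fine`: choose for `g1`, `h0` with `Fine K α x0 h0 g1` a function `Φ g1 h0` (else: the constant `∅`); `F1` collects `Φ g1 h0` for all `g1`, `h0` in `N` (`exists_merge_in`), and the function of `refl_PB (some α)` for
`E h0 = {(g1, ()) | Fine K α x0 h0 g1}` (`X = O`). Given `N`, `g`, `h` as in `mk_good`, extend `g` to `g'` with `Fine K α x0 h g'`, get `d` in `N` with `Fine K α x0 h d` and `g* ≤ g', d`, and apply `Φ d h` to `g*`. -/

namespace Pool.Agent.Lib.MP_8f49b0_lc.MM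

namespace Code

/-- below `g1` all sufficiently closed countable nodes have generic extensions over `h0` -/
def Fine (K : Code) (α x0 h0 : O) (g1 : Pre) : Prop :=
  ∃ F : List O → Set O, Fn F ∧ ∀ N, K.Nice N → Cl F N → α ∈ N → x0 ∈ N → ∀ g ∈ K.V α, K.le g g1 →
    N ∩ Set.Iio α ∈ g.C → h0 ∈ N → ∃ a ∈ RS (K.V α), K.leR x0 a (g, h0) ∧ K.Gen (K.V α) α x0 N a

variable {K : Code}

theorem Fine.mono {α x0 h0 : O} {g1 g2 : Pre} (h1 : g1 ∈ K.V α) (h2 : g2 ∈ K.V α) (h : Fine K α x0 h0 g1) (hle : K.le g2 g1) :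
    Fine K α x0 h0 g2 := by
  obtain ⟨F, hF, hF2⟩ := h
  refine ⟨F, hF, fun N hN hFN hα hx g hg hg2 htr hh => ?_⟩
  exact hF2 N hN hFN hα hx g hg (le_trans_of_ok (mem_V.1 hg).2 (mem_V.1 h2).2 (mem_V.1 h1).2 hg2 hle) htr hh

theorem fine_incompat {α x0 : O} {c0 : Pre} {q : O → O → Set Pre} (hq : K.PreQ c0 q) (hcl : K.ClsQ α c0 q)
    (hx : K.CodeQ α x0 c0 q) {h0 : O} (hh0 : h0 < w1) {g1 : Pre} (hg1 : g1 ∈ K.V α)
    (h : ∀ d ∈ K.V α, K.le d g1 → ¬ K.le d c0) : Fine K α x0 h0 g1 := by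
  have _ := hq
  have hok1 := (mem_V.1 hg1).2
  have hL : ∀ d ∈ K.V α, K.le d g1 → ∀ h' < w1, ∀ k < w1, K.L x0 d h' k := by
    intro d hd hdg h' hh' k hk
    rw [hx d hd h' hh' k hk]
    intro c hcd hcc0
    exfalso
    obtain ⟨e, he, hed, hec⟩ := hcl.cmp d hd c0 hcl.c0 ⟨c, hcd, hcc0⟩
    exact h e he (le_trans_of_ok (mem_V.1 he).2 (mem_V.1 hd).2 hok1 hed hdg) hec
  obtain ⟨F, hF, hF2⟩ := K.refl_PB (some α) (fun α' h' => by
    have : α' = α := by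
      simpa using h'.symm
    rw [this]
    exact hcl.tr) (X := O) (Y := O) (fun y => {e | e ∈ K.en α y ∧ e.1 ∈ K.V α})
    (fun p e _ => ⟨{e.2}, rfl⟩)
  refine ⟨F, hF, fun N hN hFN hα hx0 g hg hgg1 htr hh => ?_⟩
  have hgok := (mem_V.1 hg).2
  refine ⟨(g, h0), ⟨hg, hh0⟩, ⟨le_refl_of_ok hgok, hL g hg hgg1 h0 hh0 h0 hh0⟩, ?_⟩
  intro y hy hDO a' ha' hleR
  obtain ⟨d0, hd0, hd0a⟩ := hDO.dense a' ha'
  have hd0R := hDO.sub hd0
  have hd0C : NB (some α) N ∈ d0.1.C := by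
    rw [NB_some]
    exact hd0a.le.C (hleR.le.C htr)
  obtain ⟨e', he', hIn, hPB, c', hc', hc1, hc2⟩ := hF2 N hN hFN y hy d0 ⟨hd0, hd0R.1⟩
    (by rw [PB_some]; exact hd0R.1) hd0C
  rw [PB_some] at hc' hPB
  have hc'ok := (mem_V.1 hc').2
  have hd0ok := (mem_V.1 hd0R.1).2
  have ha'ok := (mem_V.1 ha'.1).2
  have hle1 : K.le c' a'.1 := le_trans_of_ok hc'ok hd0ok ha'ok hc1 hd0a.le
  have hle2 : K.le c' g := le_trans_of_ok hc'ok ha'ok hgok hle1 hleR.le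
  have hle3 : K.le c' g1 := le_trans_of_ok hc'ok hgok hok1 hle2 hgg1
  have he'R := hDO.sub he'.1
  refine ⟨(c', d0.2), ⟨hc', hd0R.2⟩, ⟨hle1, hL c' hc' hle3 _ hd0R.2 _ ha'.2⟩, e', he'.1, ⟨hIn.1, hIn.2⟩,
    ⟨hc2, hL c' hc' hle3 _ hd0R.2 _ he'R.2⟩⟩

theorem hp_of_fine {α x0 : O} (hα : K.Tr α) (h0 : PreR K α x0)
    (h : ∀ h < w1, ∀ g ∈ K.V α, ∃ g1 ∈ K.V α, K.le g1 g ∧ Fine K α x0 h g1) :
    ∃ F1 : List O → Set O, Fn F1 ∧ ∀ N, K.Nice N → Cl F1 N → α ∈ N → x0 ∈ N → ∀ g ∈ K.V α, N ∩ Set.Iio α ∈ g.C → ∀ h ∈ N, h < w1 →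
      ∃ a ∈ RS (K.V α), K.leR x0 a (g, h) ∧ K.Gen (K.V α) α x0 N a := by
  classical
  have _ := h0
  let G : Pre × O → List O → Set O := fun p =>
    if hp : Fine K α x0 p.2 p.1 then hp.choose else fun _ => ∅
  have hG : ∀ p, Fn (G p) := by
    intro p
    by_cases hp : Fine K α x0 p.2 p.1
    · have : G p = hp.choose := dif_pos hp
      rw [this]
      exact hp.choose_spec.1
    · have : G p = fun _ => ∅ := dif_neg hp
      rw [this]
      exact fun _ => Set.countable_empty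
  obtain ⟨F1, hF1, hF1'⟩ := exists_merge_in K G hG
  obtain ⟨F2, hF2, hF2'⟩ := K.refl_PB (some α) (fun α' h' => by
    have : α' = α := by
      simpa using h'.symm
    rw [this]
    exact hα) (X := O) (Y := Unit) (fun k => {e | e.1 ∈ K.V α ∧ Fine K α x0 k e.1})
    (fun p e _ => ⟨∅, trivial⟩)
  obtain ⟨F, hF, hF'⟩ := exists_merge2 F1 F2 hF1 hF2
  refine ⟨F, hF, fun N hN hFN hαN hxN g hg htr k hk hkw => ?_⟩
  obtain ⟨hFN1, hFN2⟩ := hF' N hFN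
  obtain ⟨g', hg', hle, hfine⟩ := h k hkw g hg
  have hC : NB (some α) N ∈ g'.C := by
    rw [NB_some]
    exact hle.C htr
  obtain ⟨e', he', hIn, hPB, c', hc', hc1, hc2⟩ := hF2' N hN hFN2 k hk (g', ()) ⟨hg', hfine⟩
    (by rw [PB_some]; exact hg') hC
  rw [PB_some] at hc' hPB
  have hcl : Cl (G (e'.1, k)) N := hF1' N hFN1 (e'.1, k) ⟨hIn.1, hk⟩
  have hfe : Fine K α x0 k e'.1 := he'.2
  have hGe : G (e'.1, k) = hfe.choose := dif_pos hfe
  rw [hGe] at hcl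
  have hC' : N ∩ Set.Iio α ∈ c'.C := by
    rw [NB_some] at hC
    exact hc1.C hC
  obtain ⟨a, ha, hleR, hgen⟩ := hfe.choose_spec.2 N hN hcl hαN hxN c' hc' hc2 hC' hk
  refine ⟨a, ha, ⟨?_, hleR.L⟩, hgen⟩
  have hg'ok := (mem_V.1 hg').2
  exact le_trans_of_ok (mem_V.1 ha.1).2 (mem_V.1 hc').2 (mem_V.1 hg).2 hleR.le
    (le_trans_of_ok (mem_V.1 hc').2 hg'ok (mem_V.1 hg).2 hc1 hle)

end Code

end Pool.Agent.Lib.MP_8f49b0_lc.MM
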