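import Pool.Agent.Lib.MP_8f49b0_lc.MM.M.SelDefs

/-! # Failure of `IncQ`: the relation (module M-SELREL)

The generating set of `RS3` is open. `down_RS3`: `PreQ.trans`. `total_RS3`: if `ζ` is not a natural number, take `h' = h`, `β = 0`. If `ζ = n` and the second alternative fails for `c` there is `c' ≤ c`, `h'` with `HitS .. c' h' n w1`: take `β` above the finitely many
coordinates (`w1` is a limit ordinal). -/

namespace Pool.Agent.Lib.MP_8f49b0_lc.MM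

namespace Code

variable {K : Code} {ι : Type}

/-- `HitS` is preserved by extensions -/
theorem selRel_hit_ex {c0 : Pre} {q : O → O → Set Pre} {Z : Set (Pre × O × (ι → O))} {c1 : Pre} {h0 : O}
    {sel : O → O → Set (Pre × O × (ι → O))} (hs : SelD K c0 q Z c1 h0 sel)
    {π : (ι → O) → ℕ → Set Pre} (hπ : ∀ b n, K.Reg (π b n)) {c c' : Pre} (hc : K.Ok c) (hcc : K.ex c' c)
    {h : O} {n : ℕ} {β : O} (hh : HitS K q sel π c h n β) : HitS K q sel π c' h n β := by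
  obtain ⟨ξ, hξ, h'', hh'', e, he, h1, h2, h3, h4⟩ := hh
  have he1 := (hs.sub ξ hξ h'' (hh''.trans hξ) e he).1.1
  exact ⟨ξ, hξ, h'', hh'', e, he, le_trans_of_ok hcc.1 hc he1 hcc.2 h1, (hs.hq.reg h e.2.1).opn c h2 c' hcc,
    (hπ e.2.2 n).opn c h3 c' hcc, h4⟩

/-- `HitS` is monotone in the bound -/
theorem selRel_hit_mono {q : O → O → Set Pre} {sel : O → O → Set (Pre × O × (ι → O))}
    {π : (ι → O) → ℕ → Set Pre} {c : Pre} {h : O} {n : ℕ} {β β' : O} (hβ : β ≤ β')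
    (hh : HitS K q sel π c h n β) : HitS K q sel π c h n β' := by
  obtain ⟨ξ, hξ, h'', hh'', e, he, h1, h2, h3, h4⟩ := hh
  exact ⟨ξ, hξ, h'', hh'', e, he, h1, h2, h3, fun i => (h4 i).trans_le hβ⟩

/-- `HitS` is downward closed in `h` -/
theorem selRel_hit_down {c0 : Pre} {q : O → O → Set Pre} {Z : Set (Pre × O × (ι → O))} {c1 : Pre} {h0 : O}
    {sel : O → O → Set (Pre × O × (ι → O))} (hs : SelD K c0 q Z c1 h0 sel)
    {π : (ι → O) → ℕ → Set Pre} {c : Pre} (hc : K.ex c c0)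
    {h h' : O} (hh' : h' < w1) (hh : h < w1) (hq : c ∈ q h' h) {n : ℕ} {β : O}
    (hit : HitS K q sel π c h n β) : HitS K q sel π c h' n β := by
  obtain ⟨ξ, hξ, h'', hh'', e, he, h1, h2, h3, h4⟩ := hit
  have he1 := (hs.sub ξ hξ h'' (hh''.trans hξ) e he).2.1
  exact ⟨ξ, hξ, h'', hh'', e, he, h1, hs.hq.trans h' hh' h hh e.2.1 he1 c hc hq h2, h3, h4⟩

theorem selRel_open {c0 : Pre} {q : O → O → Set Pre} {Z : Set (Pre × O × (ι → O))} {c1 : Pre} {h0 : O}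
    {sel : O → O → Set (Pre × O × (ι → O))} (hs : SelD K c0 q Z c1 h0 sel) {c2 : Pre} (hc2 : K.ex c2 c1)
    {π : (ι → O) → ℕ → Set Pre} (hπ : ∀ b n, K.Reg (π b n)) (h ζ β : O) :
    ∀ c ∈ {c | K.ex c c2 ∧ h < w1 ∧ β < w1 ∧ ∀ n : ℕ, ζ = n →
      HitS K q sel π c h n β ∨ ∀ c', K.ex c' c → ∀ h' < w1, c' ∈ q h' h → ¬ HitS K q sel π c' h' n w1},
    ∀ c', K.ex c' c → c' ∈ {c | K.ex c c2 ∧ h < w1 ∧ β < w1 ∧ ∀ n : ℕ, ζ = n →
      HitS K q sel π c h n β ∨ ∀ c', K.ex c' c → ∀ h' < w1, c' ∈ q h' h → ¬ HitS K q sel π c' h' n w1} := by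
  rintro c ⟨h1, h2, h3, h4⟩ c' hc'
  refine ⟨ex_trans hc2.1 hc' h1, h2, h3, fun n hn => ?_⟩
  rcases h4 n hn with h5 | h5
  · exact Or.inl (selRel_hit_ex hs hπ h1.1 hc' h5)
  · exact Or.inr fun c'' hc'' => h5 c'' (ex_trans h1.1 hc'' hc')

theorem reg_RS3 {c0 : Pre} {q : O → O → Set Pre} {Z : Set (Pre × O × (ι → O))} {c1 : Pre} {h0 : O}
    {sel : O → O → Set (Pre × O × (ι → O))} (hs : SelD K c0 q Z c1 h0 sel) {c2 : Pre} (hc2 : K.ex c2 c1)
    {π : (ι → O) → ℕ → Set Pre} (hπ : ∀ b n, K.Reg (π b n)) (h ζ β : O) : K.Reg (RS3 K q sel π c2 h ζ β) :=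
  reg_rg (selRel_open hs hc2 hπ h ζ β)

theorem down_RS3 {c0 : Pre} {q : O → O → Set Pre} {Z : Set (Pre × O × (ι → O))} {c1 : Pre} {h0 : O}
    {sel : O → O → Set (Pre × O × (ι → O))} (hs : SelD K c0 q Z c1 h0 sel) {c2 : Pre} (hc2 : K.ex c2 c1)
    {π : (ι → O) → ℕ → Set Pre} (hπ : ∀ b n, K.Reg (π b n)) :
    ∀ h' < w1, ∀ h < w1, ∀ ζ < w1, ∀ β < w1, ∀ c, K.ex c c2 → c ∈ q h' h →
      c ∈ RS3 K q sel π c2 h ζ β → c ∈ RS3 K q sel π c2 h' ζ β := by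
  intro h' hh' h hh ζ hζ β hβ c hc hq hR
  obtain ⟨hok, hden⟩ := hR
  refine ⟨hok, fun c' hc' => ?_⟩
  obtain ⟨c'', hc'', h1, h2, h3, h4⟩ := hden c' hc'
  have hc''c : K.ex c'' c := ex_trans hok hc'' hc'
  have hq'' : c'' ∈ q h' h := (hs.hq.reg h' h).opn c hq c'' hc''c
  have hc10 : K.ex c2 c0 := ex_trans (c := c0) (by
    exact (hs.hq.reg 0 0).ok c0 (hs.hq.refl 0 (Ordinal.omega_pos 1))) hc2 hs.hc1
  have hc0ok : K.Ok c0 := (hs.hq.reg 0 0).ok c0 (hs.hq.refl 0 (Ordinal.omega_pos 1))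
  have hc''0 : K.ex c'' c0 := ex_trans hc0ok h1 hc10
  refine ⟨c'', hc'', h1, hh', h3, fun n hn => ?_⟩
  rcases h4 n hn with h5 | h5
  · exact Or.inl (selRel_hit_down hs hc''0 hh' h2 hq'' h5)
  · refine Or.inr fun d hd k hk hdq => h5 d hd k hk ?_
    exact hs.hq.trans k hk h' hh' h hh d (ex_trans hc0ok hd hc''0) hdq
      ((hs.hq.reg h' h).opn c'' hq'' d hd)

theorem total_RS3 [Finite ι] {c0 : Pre} {q : O → O → Set Pre} {Z : Set (Pre × O × (ι → O))} {c1 : Pre} {h0 : O}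
    {sel : O → O → Set (Pre × O × (ι → O))} (hs : SelD K c0 q Z c1 h0 sel) {c2 : Pre} (hc2 : K.ex c2 c1)
    {π : (ι → O) → ℕ → Set Pre} (hπ : ∀ b n, K.Reg (π b n)) :
    ∀ ζ < w1, ∀ h < w1, ∀ c, K.ex c c2 →
      ∃ c', K.ex c' c ∧ ∃ h' < w1, c' ∈ q h' h ∧ ∃ β < w1, c' ∈ RS3 K q sel π c2 h' ζ β := by
  intro ζ hζ h hh c hc
  have hc0ok : K.Ok c0 := (hs.hq.reg 0 0).ok c0 (hs.hq.refl 0 (Ordinal.omega_pos 1))
  have hc20 : K.ex c2 c0 := ex_trans hc0ok hc2 hs.hc1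
  have hcc0 : K.ex c c0 := ex_trans hc0ok hc hc20
  have hrefl : ∀ d, K.ex d c0 → ∀ k < w1, d ∈ q k k := fun d hd k hk =>
    (hs.hq.reg k k).opn c0 (hs.hq.refl k hk) d hd
  have hw0 : (0 : O) < w1 := Ordinal.omega_pos 1
  have hok : ∀ h' ζ' β' : O, ∀ d ∈ {c | K.ex c c2 ∧ h' < w1 ∧ β' < w1 ∧ ∀ n : ℕ, ζ' = n →
      HitS K q sel π c h' n β' ∨ ∀ c', K.ex c' c → ∀ h'' < w1, c' ∈ q h'' h' → ¬ HitS K q sel π c' h'' n w1},
      K.Ok d := fun h' ζ' β' d hd => hd.1.1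
  by_cases hn : ∃ n : ℕ, ζ = n
  · obtain ⟨n, rfl⟩ := hn
    by_cases hneg : ∀ c', K.ex c' c → ∀ h' < w1, c' ∈ q h' h → ¬ HitS K q sel π c' h' n w1
    · refine ⟨c, ex_refl hc.1, h, hh, hrefl c hcc0 h hh, 0, hw0, ?_⟩
      refine subset_rg (hok h _ 0) (selRel_open hs hc2 hπ h _ 0) ⟨hc, hh, hw0, fun m hm => ?_⟩
      have hmn : n = m := by exact_mod_cast hm
      subst hmn
      exact Or.inr hneg
    · push Not at hneg
      obtain ⟨c', hc', h', hh', hq', hit⟩ := hneg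
      obtain ⟨ξ, hξ, h'', hh'', e, he, h1, h2, h3, h4⟩ := hit
      obtain ⟨β, hβ, hβ2⟩ : ∃ β < w1, ∀ i, e.2.2 i < β := by
        have hfin := Set.finite_range e.2.2
        have hlim : ∀ s : Set O, s.Finite → (∀ x ∈ s, x < w1) → ∃ β < w1, ∀ x ∈ s, x < β := by
          intro s hs
          induction s, hs using Set.Finite.induction_on with
          | empty => exact fun _ => ⟨0, hw0, by simp⟩
          | @insert a s _ _ ih =>
            intro hlt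
            obtain ⟨β, hβ, hβ2⟩ := ih (fun x hx => hlt x (Set.mem_insert_of_mem a hx))
            refine ⟨max β (Order.succ a), max_lt hβ ?_, fun x hx => ?_⟩
            · exact (Cardinal.isSuccLimit_omega 1).succ_lt (hlt a (Set.mem_insert a s))
            · rcases Set.mem_insert_iff.1 hx with rfl | hx
              · exact (Order.lt_succ x).trans_le (le_max_right _ _)
              · exact (hβ2 x hx).trans_le (le_max_left _ _)
        obtain ⟨β, hβ, hβ2⟩ := hlim _ hfin (by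
          rintro x ⟨i, rfl⟩
          exact h4 i)
        exact ⟨β, hβ, fun i => hβ2 _ ⟨i, rfl⟩⟩
      refine ⟨c', hc', h', hh', hq', β, hβ, ?_⟩
      refine subset_rg (hok h' _ β) (selRel_open hs hc2 hπ h' _ β)
        ⟨ex_trans hc2.1 hc' hc, hh', hβ, fun m hm => ?_⟩
      have hmn : n = m := by exact_mod_cast hm
      subst hmn
      exact Or.inl ⟨ξ, hξ, h'', hh'', e, he, h1, h2, h3, hβ2⟩
  · push Not at hn
    refine ⟨c, ex_refl hc.1, h, hh, hrefl c hcc0 h hh, 0, hw0, ?_⟩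
    exact subset_rg (hok h _ 0) (selRel_open hs hc2 hπ h _ 0) ⟨hc, hh, hw0, fun m hm => absurd hm (hn m)⟩

end Code

end Pool.Agent.Lib.MP_8f49b0_lc.MM
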