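import Pool.Agent.Lib.MP_8f49b0_lc.MM.M.SelFam
import Pool.Agent.Lib.MP_8f49b0_lc.MM.M.SelRel
import Pool.Agent.Lib.MP_8f49b0_lc.MM.M.Color

/-! # Names of stationary set preserving preorders satisfy `IncQ` (module M-INCSP), (5.3) of the paper

By contradiction: `exists_SelD`; `color` for `c1` and `FamS K sel` gives `c1'` and `π`. Apply `SPQ` to `S δ = {c | K.Ok c ∧ Ordinal.omega0 < δ}` (`stat_gt`), `RS3 .. c1'`, `c1'`, `h0`: `c2`, `δ`, `h`. Let `ξ = max δ h + 1`. By `dense` there are `e ∈ sel ξ h` and `c3 ≤ c2, e.1`; `c3 ∈ FamS K sel e.2.2`; colour: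
`c4 ≤ c3`, `c4 ∈ π e.2.2 n`. The closure property of `c2`, `δ`, `h` for `ζ = n < δ` and `r = e.2.1` (`c4 ∈ q r h`) gives `c5 ≤ c4`, `r'`, `β < δ` with `c5 ∈ q r' r`, `c5 ∈ RS3 .. r' n β`; extend `c5` into the generating set. The second alternative is false (`e` itself is hit). So there is `e'` with
tuple below `β < δ ≤ ξ`, while the tuple of `e` is above `ξ`: different tuples (`ι` nonempty), of the same colour: `c6 ≤ c5` with `Lt c6.u` in one direction. The elements of `Z` for `e`, `e'` (`sub`) contradict `no` with `h' = r'` (`r' ≤ e.2.1 ≤ h ≤ h0`). -/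

namespace Pool.Agent.Lib.MP_8f49b0_lc.MM

namespace Code

variable {K : Code}

private theorem incSP_fam {ι : Type} {sel : O → O → Set (Pre × O × (ι → O))} {c : Pre} (hc : K.Ok c)
    {ξ h : O} (hξ : ξ < w1) (hh : h < ξ) {e : Pre × O × (ι → O)} (he : e ∈ sel ξ h) (heok : K.Ok e.1) (hle : K.le c e.1) :
    c ∈ FamS K sel e.2.2 := by
  have hex : K.ex c e.1 := ⟨hc, hle⟩
  refine ⟨hc, fun c' hc' => ⟨c', ex_refl hc'.1, hc'.1, ξ, hξ, h, hh, e, he, (ex_trans heok hc' hex).2, rfl⟩⟩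

private theorem incSP_regS (δ : O) : K.Reg {c | K.Ok c ∧ Ordinal.omega0 < δ} := by
  by_cases h : Ordinal.omega0 < δ
  · have : {c | K.Ok c ∧ Ordinal.omega0 < δ} = {c | K.Ok c} := by
      ext c
      simp [h]
    rw [this]
    exact reg_all
  · refine ⟨fun c hc => hc.1, fun c hc => absurd hc.2 h, fun c hc hcc => ?_⟩
    obtain ⟨c'', -, hc''⟩ := hcc c (ex_refl hc)
    exact absurd hc''.2 h

theorem incQ_of_SPQ {c0 : Pre} {q : O → O → Set Pre} (hc0 : K.Ok c0) (hq : K.PreQ c0 q) (hS : K.SPQ c0 q) : K.IncQ c0 q := by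
  by_contra hcon
  obtain ⟨ι, hfin, hne, Z, c1, h0, sel, hs⟩ := exists_SelD hc0 hq hcon
  have hc1 : K.ex c1 c0 := hs.hc1
  obtain ⟨c1', hc1'1, π, hπ, hcol, hinc⟩ := color (K := K) hc1.1 (famF_FamS hs)
  have hc1'0 : K.ex c1' c0 := ex_trans hc0 hc1'1 hc1
  obtain ⟨c2, hc2, δ, hδ, h, hh, hc2S, hc2q, hclos⟩ := hS (fun δ => {c | K.Ok c ∧ Ordinal.omega0 < δ}) incSP_regS
    (fun h ζ β => RS3 K q sel π c1' h ζ β) (fun h ζ β => reg_RS3 hs hc1'1 hπ h ζ β) c1' hc1'0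
    (stat_gt hc1'1.1 Ordinal.omega0_lt_omega_one) (down_RS3 hs hc1'1 hπ) (total_RS3 hs hc1'1 hπ) h0 hs.hh0
  have hωδ : Ordinal.omega0 < δ := hc2S.2
  have hc21 : K.ex c2 c1 := ex_trans hc1.1 hc2 hc1'1
  have hξ : Order.succ (max δ h) < w1 := (Cardinal.isSuccLimit_omega 1).succ_lt (max_lt hδ hh)
  have hhξ : h < Order.succ (max δ h) := (le_max_right δ h).trans_lt (Order.lt_succ _)
  have hδξ : δ < Order.succ (max δ h) := (le_max_left δ h).trans_lt (Order.lt_succ _)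
  obtain ⟨e, he, c3, hc32, hc3e⟩ := hs.dense _ hξ h hh c2 hc21 hc2q
  obtain ⟨he1, he2, he3, he4, z, hz, hze, hezl, hezq⟩ := hs.sub _ hξ h hh e he
  have hc31' : K.ex c3 c1' := ex_trans hc1'1.1 hc32 hc2
  have hc3F : c3 ∈ FamS K sel e.2.2 := incSP_fam hc32.1 hξ hhξ he he1.1 hc3e
  obtain ⟨c4, hc43, n, hc4n⟩ := hcol _ c3 hc31' hc3F
  have hc4e : K.ex c4 e.1 := ⟨hc43.1, (ex_trans he1.1 hc43 ⟨hc32.1, hc3e⟩).2⟩
  have hc42 : K.ex c4 c2 := ex_trans hc2.1 hc43 hc32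
  have hnδ : (n : O) < δ := (Ordinal.natCast_lt_omega0 n).trans hωδ
  obtain ⟨c5, hc54, r', hr', hc5q, β, hβ, hc5R⟩ := hclos n hnδ e.2.1 he2 c4 hc42 ((hq.reg _ _).opn _ he3 c4 hc4e)
  obtain ⟨c6, hc65, hc61', -, hβw, hc6⟩ := mem_rg_self hc5R
  have hc64 : K.ex c6 c4 := ex_trans hc43.1 hc65 hc54
  have hc6e : K.ex c6 e.1 := ex_trans he1.1 hc64 hc4e
  have hc60 : K.ex c6 c0 := ex_trans hc0 hc61' hc1'0
  have hc6q : c6 ∈ q r' e.2.1 := (hq.reg _ _).opn _ hc5q c6 hc65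
  have hc6n : c6 ∈ π e.2.2 n := (hπ _ _).opn _ hc4n c6 hc64
  rcases hc6 n rfl with hhit | hno
  · obtain ⟨ξ', hξ', h'', hh'', e', he', hc6e', hc6q', hc6n', hlt⟩ := hhit
    obtain ⟨he1', he2', he3', he4', z', hz', hze', hezl', hezq'⟩ := hs.sub _ hξ' h'' (hh''.trans hξ') e' he'
    have hne' : e.2.2 ≠ e'.2.2 := by
      intro heq
      obtain ⟨i⟩ := hne
      have e1 := (he4 i).1
      have e2 := hlt i
      rw [heq] at e1
      exact absurd (e1.trans (e2.trans (hβ.trans hδξ))) (lt_irrefl _)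
    have hc6ee' : K.ex c6 e'.1 := ⟨hc65.1, hc6e'⟩
    have hc6F : c6 ∈ FamS K sel e.2.2 := incSP_fam hc65.1 hξ hhξ he he1.1 hc6e.2
    have hc6F' : c6 ∈ FamS K sel e'.2.2 := incSP_fam hc65.1 hξ' hh'' he' he1'.1 hc6e'
    obtain ⟨c7, hc76, hc7⟩ := hinc _ _ n c6 hne' hc61' hc6F hc6F' hc6n hc6n'
    have hc70 : K.ex c7 c0 := ex_trans hc0 hc76 hc60
    have hc71 : K.ex c7 c1 := ex_trans hc1.1 hc76 (ex_trans hc1.1 hc61' hc1'1)
    have hc7e : K.ex c7 e.1 := ex_trans he1.1 hc76 hc6e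
    have hc7e' : K.ex c7 e'.1 := ex_trans he1'.1 hc76 hc6ee'
    have hc72 : K.ex c7 c2 := ex_trans hc2.1 hc76 (ex_trans hc2.1 hc64 hc42)
    have hz7 : K.le c7 z.1 := le_trans_of_ok hc7e.1 he1.1 (hs.Zok z hz).1 hc7e.2 hezl
    have hz7' : K.le c7 z'.1 := le_trans_of_ok hc7e.1 he1'.1 (hs.Zok z' hz').1 hc7e'.2 hezl'
    have q1 : c7 ∈ q r' e.2.1 := (hq.reg _ _).opn _ hc6q c7 hc76
    have q2 : c7 ∈ q e.2.1 h := (hq.reg _ _).opn _ he3 c7 hc7e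
    have q3 : c7 ∈ q h h0 := (hq.reg _ _).opn _ hc2q c7 hc72
    have q4 : c7 ∈ q r' h0 := hq.trans r' hr' h hh h0 hs.hh0 c7 hc70 (hq.trans r' hr' _ he2 h hh c7 hc70 q1 q2) q3
    have q5 : c7 ∈ q r' z.2.1 := hq.trans r' hr' _ he2 _ (hs.Zok z hz).2 c7 hc70 q1 ((hq.reg _ _).opn _ hezq c7 hc7e)
    have q6 : c7 ∈ q r' e'.2.1 := (hq.reg _ _).opn _ hc6q' c7 hc76
    have q7 : c7 ∈ q r' z'.2.1 := hq.trans r' hr' _ he2' _ (hs.Zok z' hz').2 c7 hc70 q6 ((hq.reg _ _).opn _ hezq' c7 hc7e')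
    rcases hc7 with hlt1 | hlt1
    · rw [← hze, ← hze'] at hlt1
      exact hs.no z hz z' hz' c7 hc71 hz7 hz7' hlt1 r' hr' q4 q5 q7
    · rw [← hze, ← hze'] at hlt1
      exact hs.no z' hz' z hz c7 hc71 hz7' hz7 hlt1 r' hr' q4 q7 q5
  · refine hno c6 (ex_refl hc65.1) r' hr' ((hq.reg _ _).opn _ (hq.refl r' hr') c6 hc60) ?_
    exact ⟨_, hξ, h, hhξ, e, he, hc6e.2, hc6q, hc6n, fun i => (he4 i).2⟩

end Code

end Pool.Agent.Lib.MP_8f49b0_lc.MM
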