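import Pool.Agent.Lib.MP_8f49b0_lc.MM.M.QDefs

/-! # The forcing notion `qF` (module M-QBASIC)

`mem_qF_of`: by `subset_rg` (the generating set is open). `mem_qF_iff`: for a condition which decides `VF h` positively, `fp h ≠ ∅`. -/

namespace Pool.Agent.Lib.MP_8f49b0_lc.MM

namespace Code

variable {K : Code} {ι : Type} {c0 : Pre} {F : (ι → O) → Set Pre} {fp : O → Finset ((ι → O) × ℕ)}

theorem reg_LT (b b' : ι → O) : K.Reg (K.LT b b') := by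
  refine reg_rg ?_
  rintro c ⟨_, hlt⟩ c' hc'
  refine ⟨hc'.1, ?_⟩
  rcases hlt with h | h
  · exact Or.inl (h.mono hc'.2.u)
  · exact Or.inr (h.mono hc'.2.u)

theorem reg_VF (hF : K.FamF c0 F) (h : O) : K.Reg (K.VF F fp h) := by
  refine ⟨fun c hc => hc.1, ?_, ?_⟩
  · rintro c ⟨_, h2, h3⟩ c' hc'
    exact ⟨hc'.1, fun e he => (hF.reg e.1).opn c (h2 e he) c' hc',
      fun e he e' he' h4 h5 => (reg_LT e.1 e'.1).opn c (h3 e he e' he' h4 h5) c' hc'⟩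
  · intro c hc H
    refine ⟨hc, fun e he => ?_, fun e he e' he' h4 h5 => ?_⟩
    · refine (hF.reg e.1).reg c hc fun c' hc' => ?_
      obtain ⟨c'', h1, h2⟩ := H c' hc'
      exact ⟨c'', h1, h2.2.1 e he⟩
    · refine (reg_LT e.1 e'.1).reg c hc fun c' hc' => ?_
      obtain ⟨c'', h1, h2⟩ := H c' hc'
      exact ⟨c'', h1, h2.2.2 e he e' he' h4 h5⟩

private theorem QBasic_open (hF : K.FamF c0 F) (h' h : O) :
    ∀ c ∈ {c | K.Ok c ∧ (fp h = ∅ ∨ (∀ c', K.ex c' c → c' ∉ K.VF F fp h) ∨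
      (c ∈ K.VF F fp h' ∧ fp h ⊆ fp h'))}, ∀ c', K.ex c' c →
      c' ∈ {c | K.Ok c ∧ (fp h = ∅ ∨ (∀ c', K.ex c' c → c' ∉ K.VF F fp h) ∨
      (c ∈ K.VF F fp h' ∧ fp h ⊆ fp h'))} := by
  rintro c ⟨hc, hA⟩ c' hc'
  refine ⟨hc'.1, ?_⟩
  rcases hA with h1 | h1 | ⟨h1, h2⟩
  · exact Or.inl h1
  · exact Or.inr (Or.inl fun d hd => h1 d (ex_trans hc hd hc'))
  · exact Or.inr (Or.inr ⟨(reg_VF hF _).opn c h1 c' hc', h2⟩)

theorem reg_qF (hF : K.FamF c0 F) (h' h : O) : K.Reg (K.qF F fp h' h) :=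
  reg_rg (QBasic_open hF h' h)

theorem mem_qF_of (hF : K.FamF c0 F) {c : Pre} (hc : K.Ok c) {h' h : O}
    (H : fp h = ∅ ∨ (∀ c', K.ex c' c → c' ∉ K.VF F fp h) ∨ (c ∈ K.VF F fp h' ∧ fp h ⊆ fp h')) : c ∈ K.qF F fp h' h :=
  subset_rg (fun _ hd => hd.1) (QBasic_open hF h' h) ⟨hc, H⟩

theorem sub_of_mem_qF (hF : K.FamF c0 F) {c : Pre} (hc : K.Ok c) {h' h : O} (H : c ∈ K.qF F fp h' h) (h1 : fp h ≠ ∅)
    (h2 : c ∈ K.VF F fp h) : c ∈ K.VF F fp h' ∧ fp h ⊆ fp h' := by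
  have key : ∀ c', K.ex c' c → ∃ c'', K.ex c'' c' ∧ c'' ∈ K.VF F fp h' ∧ fp h ⊆ fp h' := by
    intro c' hc'
    obtain ⟨c'', h3, h4, h5⟩ := H.2 c' hc'
    have h6 : c'' ∈ K.VF F fp h := (reg_VF hF _).opn c h2 c'' (ex_trans hc h3 hc')
    rcases h5 with h5 | h5 | h5
    · exact absurd h5 h1
    · exact absurd h6 (h5 c'' (ex_refl h4))
    · exact ⟨c'', h3, h5⟩
  refine ⟨(reg_VF hF _).reg c hc fun c' hc' => ?_, ?_⟩
  · obtain ⟨c'', h3, h4, _⟩ := key c' hc'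
    exact ⟨c'', h3, h4⟩
  · obtain ⟨_, _, _, h4⟩ := key c (ex_refl hc)
    exact h4

theorem preQ_qF (hF : K.FamF c0 F) (hfp : FP ι fp) (hc0 : K.Ok c0) : K.PreQ c0 (K.qF F fp) := by
  refine ⟨reg_qF hF, ?_, ?_, ?_⟩
  · intro h _
    refine ⟨hc0, fun c' hc' => ?_⟩
    obtain ⟨c'', h1, h2⟩ := decide_ex (K.VF F fp h) hc'.1
    refine ⟨c'', h1, h1.1, ?_⟩
    rcases h2 with h2 | h2
    · exact Or.inr (Or.inr ⟨h2, Finset.Subset.refl _⟩)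
    · exact Or.inr (Or.inl h2)
  · intro h'' _ h' _ h _ c hc H1 H2
    refine ⟨hc.1, fun c' hc' => ?_⟩
    obtain ⟨d, h1, h2⟩ := decide_ex (K.VF F fp h) hc'.1
    have hdc : K.ex d c := ex_trans hc.1 h1 hc'
    refine ⟨d, h1, h1.1, ?_⟩
    rcases h2 with h2 | h2
    · by_cases h3 : fp h = ∅
      · exact Or.inl h3
      · obtain ⟨h4, h5⟩ := sub_of_mem_qF hF h1.1 ((reg_qF hF _ _).opn c H2 d hdc) h3 h2
        have h6 : fp h' ≠ ∅ := by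
          intro h7
          rw [h7] at h5
          exact h3 (Finset.subset_empty.mp h5)
        obtain ⟨h7, h8⟩ := sub_of_mem_qF hF h1.1 ((reg_qF hF _ _).opn c H1 d hdc) h6 h4
        exact Or.inr (Or.inr ⟨h7, h5.trans h8⟩)
    · exact Or.inr (Or.inl h2)
  · intro h _
    exact mem_qF_of hF hc0 (Or.inl hfp.zero)

end Code

end Pool.Agent.Lib.MP_8f49b0_lc.MM
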