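import Pool.Agent.Lib.MP_8f49b0_lc.MM.M.RQ

/-! # Colourings of families of tuples: definitions, (5.2) of the paper

`F b` is the truth value of: the tuple `b` belongs to the family `F`. The forcing notion `qF` consists of (codes of) finite sets of pairs (tuple in `F`, colour)
such that different tuples with the same colour are increasing. -/

namespace Pool.Agent.Lib.MP_8f49b0_lc.MM

/-- a coding of the finite sets of pairs (tuple of countable ordinals, natural number) by countable ordinals -/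
structure FP (ι : Type) (fp : O → Finset ((ι → O) × ℕ)) : Prop where
  zero : fp 0 = ∅
  lt : ∀ h, ∀ e ∈ fp h, ∀ i, e.1 i < w1
  surj : ∀ s : Finset ((ι → O) × ℕ), (∀ e ∈ s, ∀ i, e.1 i < w1) → ∃ h < w1, fp h = s

namespace Code

variable (K : Code) {ι : Type}

/-- `c0` forces that for every `γ` there is `γ'` such that every tuple in `F` is above `γ` or below `γ'` -/
structure FamF (c0 : Pre) (F : (ι → O) → Set Pre) : Prop where
  reg : ∀ b, K.Reg (F b)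
  lt : ∀ b, ∀ c ∈ F b, ∀ i, b i < w1
  bdd : ∀ γ < w1, ∀ c, K.ex c c0 → ∃ c', K.ex c' c ∧ ∃ γ' < w1, ∀ b, ∀ c'', K.ex c'' c' → c'' ∈ F b →
    (∀ i, γ < b i) ∨ (∀ i, b i < γ')

/-- the truth value of: the tuples are increasing -/
def LT (b b' : ι → O) : Set Pre := K.rg {c | K.Ok c ∧ (Lt c.u b b' ∨ Lt c.u b' b)}

/-- the truth value of: `h` codes an element of the forcing notion -/
def VF (F : (ι → O) → Set Pre) (fp : O → Finset ((ι → O) × ℕ)) (h : O) : Set Pre :=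
  {c | K.Ok c ∧ (∀ e ∈ fp h, c ∈ F e.1) ∧ ∀ e ∈ fp h, ∀ e' ∈ fp h, e.2 = e'.2 → e.1 ≠ e'.1 → c ∈ K.LT e.1 e'.1}

/-- the truth value of `h' ≤ h` -/
def qF (F : (ι → O) → Set Pre) (fp : O → Finset ((ι → O) × ℕ)) (h' h : O) : Set Pre :=
  K.rg {c | K.Ok c ∧ (fp h = ∅ ∨ (∀ c', K.ex c' c → c' ∉ K.VF F fp h) ∨ (c ∈ K.VF F fp h' ∧ fp h ⊆ fp h'))}

/-- the level `α` is closed for `F` -/
structure ClsF (α : O) (c0 : Pre) (F : (ι → O) → Set Pre) (fp : O → Finset ((ι → O) × ℕ)) : Prop where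
  cls : K.ClsQ α c0 (K.qF F fp)
  dec : ∀ h < w1, ∀ g ∈ K.V α, ∃ d ∈ K.V α, K.le d g ∧ (d ∈ K.VF F fp h ∨ ∀ c, K.ex c d → c ∉ K.VF F fp h)
  bdd : ∀ γ < w1, ∀ g ∈ K.V α, K.le g c0 → ∃ d ∈ K.V α, K.le d g ∧ ∃ γ' < w1, ∀ b, ∀ c, K.ex c d → c ∈ F b →
    (∀ i, γ < b i) ∨ (∀ i, b i < γ')
  sep : ∀ h < w1, ∀ g ∈ K.V α, g ∈ K.VF F fp h → ∃ d ∈ K.V α, K.le d g ∧
    ∀ e ∈ fp h, ∀ e' ∈ fp h, e.2 = e'.2 → e.1 ≠ e'.1 → (Lt d.u e.1 e'.1 ∨ Lt d.u e'.1 e.1)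

end Code

end Pool.Agent.Lib.MP_8f49b0_lc.MM
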