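import Pool.Agent.Lib.MP_8f49b0_lc.MM.M.QRefl

/-! # A good node for `qF` (module M-QGOOD)

`gen_qF`: the function of `qF_refl` for `κ = Empty`, `E y = {((g, k), _, ()) | (g, k) ∈ K.en α y}` (`X = O`, `Y = Unit`); for `y ∈ N`, `a' ≤ a`: first extend `a'` into the dense set. `inc_qF`: `qF_refl` for `κ` and
`E = {(a, β, ()) | a ≤ a0, a ≤ z for some (z, β) ∈ Z}` (`X = Y = Unit`) and `exists_node (some α)` for `a0.1` (constants: `a0.2`); `γ = δ` with `N ∩ ω₁ = δ`. `exists_good_qF`: `mk_good`, `preR_of_codeQ`. -/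

namespace Pool.Agent.Lib.MP_8f49b0_lc.MM

namespace Code

variable {K : Code} {ι : Type} {c0 : Pre} {F : (ι → O) → Set Pre} {fp : O → Finset ((ι → O) × ℕ)}

private theorem QGood_trans {α x : O} (h : PreR K α x) {a b c : Pre × O} (ha : a ∈ RS (K.V α))
    (hb : b ∈ RS (K.V α)) (hc : c ∈ RS (K.V α)) (hab : K.leR x a b) (hbc : K.leR x b c) : K.leR x a c :=
  ⟨le_trans_of_ok (mem_V.1 ha.1).2 (mem_V.1 hb.1).2 (mem_V.1 hc.1).2 hab.le hbc.le,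
    h.trans a.1 ha.1 c.2 hc.2 b.2 hb.2 a.2 ha.2 hab.L
      (h.mono b.1 hb.1 a.1 ha.1 hab.le b.2 hb.2 c.2 hc.2 hbc.L)⟩

theorem gen_qF [Finite ι] {α x0 : O} (hc0 : K.Ok c0) (hF : K.FamF c0 F) (hfp : FP ι fp) (hcl : K.ClsF α c0 F fp)
    (hx : K.CodeQ α x0 c0 (K.qF F fp)) :
    ∃ Fs : List O → Set O, Fn Fs ∧ ∀ N, K.Nice N → Cl Fs N → ∀ a ∈ RS (K.V α), N ∩ Set.Iio α ∈ a.1.C →
      K.Gen (K.V α) α x0 N a := by
  have hpre : PreR K α x0 := preR_of_codeQ (preQ_qF hF hfp hc0) hx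
  obtain ⟨Fs, hFs, H⟩ := qF_refl hc0 hF hfp hcl hx (X := O) (Y := Unit) Empty
    (fun y => {e : (Pre × O) × (Empty → O) × Unit | e.1 ∈ K.en α y}) (fun _ _ _ => ⟨∅, trivial⟩)
  refine ⟨Fs, hFs, ?_⟩
  intro N hN hcN a ha hNa y hy hDO a' ha' haa
  obtain ⟨d, hd, hda⟩ := hDO.dense a' ha'
  have hdR : d ∈ RS (K.V α) := hDO.sub hd
  obtain ⟨e', he', heN, heR, _, b, hb, hbd, hbe, _⟩ := H N hN hcN y hy (d, Empty.elim, ()) hd hdR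
    (hda.le.C (haa.le.C hNa)) (fun i => i.elim)
  exact ⟨b, hb, QGood_trans hpre hb hdR ha' hbd hda, e'.1, he', ⟨heN.1.1, heN.1.2⟩, hbe⟩

theorem inc_qF [Finite ι] {α x0 : O} (hc0 : K.Ok c0) (hF : K.FamF c0 F) (hfp : FP ι fp) (hcl : K.ClsF α c0 F fp)
    (hx : K.CodeQ α x0 c0 (K.qF F fp)) : K.Inc (K.V α) x0 := by
  have hpre : PreR K α x0 := preR_of_codeQ (preQ_qF hF hfp hc0) hx
  intro κ _ Z hZ a0 ha0 HZ
  obtain ⟨Fs, hFs, H⟩ := qF_refl hc0 hF hfp hcl hx (X := Unit) (Y := Unit) κ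
    (fun _ => {e : (Pre × O) × (κ → O) × Unit | K.leR x0 e.1 a0 ∧
      ∃ z ∈ Z, z.2 = e.2.1 ∧ K.leR x0 e.1 z.1}) (fun _ _ _ => ⟨∅, trivial⟩)
  obtain ⟨N, hN, hcN, _, _, c', hc', hc'a, hNc⟩ := K.exists_node (some α)
    (fun β hβ => by cases hβ; exact hcl.cls.tr) Fs hFs (c := a0.1) (by rw [PB_some]; exact ha0.1) ∅
    Set.countable_empty
  rw [PB_some] at hc'
  rw [NB_some] at hNc
  obtain ⟨δ, hδ, hδN⟩ := hN.exists_delta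
  have hca : (c', a0.2) ∈ RS (K.V α) := ⟨hc', ha0.2⟩
  have hle : K.leR x0 (c', a0.2) a0 := ⟨hc'a, hpre.refl c' hc' a0.2 ha0.2⟩
  obtain ⟨z, hz, hzδ, a', ha', ha'1, ha'2⟩ := HZ (c', a0.2) hca hle δ hδ
  have ha'0 : K.leR x0 a' a0 := QGood_trans hpre ha' hca ha0 ha'1 hle
  obtain ⟨e', he', _, heR, _, b, hb, hba, hbe, hLt⟩ := H N hN hcN () trivial (a', z.2, ())
    ⟨ha'0, z, hz, rfl, ha'2⟩ ha' (ha'1.le.C hNc) (by
      intro i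
      refine ⟨fun hi => ?_, (hzδ i).2⟩
      exact absurd ((hδN _ (hzδ i).2).mp hi) (not_lt.mpr (hzδ i).1.le))
  obtain ⟨_, z', hz', hz'e, hez⟩ := he'
  refine ⟨z', hz', z, hz, b, hb, QGood_trans hpre hb ha' ha0 hba ha'0,
    QGood_trans hpre hb heR (hZ z' hz') hbe hez, QGood_trans hpre hb ha' (hZ z hz) hba ha'2, ?_⟩
  rw [hz'e]
  exact hLt

theorem exists_good_qF [Finite ι] {α : O} (hc0 : K.Ok c0) (hF : K.FamF c0 F) (hfp : FP ι fp) (hcl : K.ClsF α c0 F fp) :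
    ∃ x, K.Good (K.V α) α x ∧ K.CodeQ α x c0 (K.qF F fp) := by
  obtain ⟨x0, hx0⟩ := exists_codeQ (K := K) α c0 (K.qF F fp)
  have hpre : PreR K α x0 := preR_of_codeQ (preQ_qF hF hfp hc0) hx0
  obtain ⟨F1, hF1, H⟩ := gen_qF hc0 hF hfp hcl hx0
  obtain ⟨x, hxs, hxg⟩ := K.mk_good hcl.cls.tr hpre (inc_qF hc0 hF hfp hcl hx0) F1 hF1 (by
    intro N hN hcN _ _ g hg hNg h _ hh
    exact ⟨(g, h), ⟨hg, hh⟩, ⟨le_refl_of_ok (mem_V.1 hg).2, hpre.refl g hg h hh⟩,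
      H N hN hcN (g, h) ⟨hg, hh⟩ hNg⟩)
  exact ⟨x, hxg, same_of_codeQ hx0 hxs⟩

end Code

end Pool.Agent.Lib.MP_8f49b0_lc.MM
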