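import Pool.Agent.Lib.MP_8f49b0_lc.MM.M.QReflV

/-! # The K-lemma for the iteration with `qF` (module M-QREFL)

Case A: some `g1 ≤ e.1.1` in `K.V α` has no extension in `K.V α` below `c0`: the relation is trivial below `g1` (`ClsQ.cmp`); apply `kl (some α)` to `Z p = {(g, β, (g2, k, y)) | ((g2, k), β, y) ∈ E p, K.le g g2, g2 ∈ K.V α, k < w1}` and `g1`; `a = (c', e.1.2)`.
Case B: otherwise extend to `g1 ≤ e.1.1, c0` which decides `VF e.1.2` (`ClsF.dec`). If `g1 ∈ VF` use `qF_reflV`. Otherwise apply `kl (some α)` to the same `Z p` with the additional condition `∀ c, K.ex c g → c ∉ VF k`; `a = (c', 0)`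
(`mem_qF_of`: `c' ∈ qF 0 e.1.2`, `c' ∈ qF 0 k`). Merge the three functions. -/

namespace Pool.Agent.Lib.MP_8f49b0_lc.MM

namespace Code

variable {K : Code} {ι : Type} {c0 : Pre} {F : (ι → O) → Set Pre} {fp : O → Finset ((ι → O) × ℕ)}

/-- `kl` for pairs: the second coordinates are parameters and satisfy the property `P` -/
private theorem kl_pair {α : O} (hα : K.Tr α) {X Y : Type*} [Sp K X] [Sp K Y] (κ : Type) [Finite κ]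
    (E : X → Set ((Pre × O) × (κ → O) × Y)) (hE : ∀ p, ∀ e ∈ E p, ∃ A : Set O, Sp.In K A e.2.2)
    (P : Pre → O → Prop) :
    ∃ Fs : List O → Set O, Fn Fs ∧ ∀ N, K.Nice N → Cl Fs N → ∀ p, Sp.In K N p → ∀ e ∈ E p, e.1 ∈ RS (K.V α) →
      ∀ g1 ∈ K.V α, K.le g1 e.1.1 → N ∩ Set.Iio α ∈ g1.C → P g1 e.1.2 →
      (∀ i, e.2.1 i ∉ N ∧ e.2.1 i < w1) →
      ∃ e' ∈ E p, Sp.In K N e' ∧ e'.1 ∈ RS (K.V α) ∧ (∀ i, e'.2.1 i < w1) ∧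
        ∃ g', g' ∈ K.V α ∧ P g' e'.1.2 ∧ ∃ c' ∈ K.V α, K.le c' g1 ∧ K.le c' g' ∧ K.le c' e.1.1 ∧ K.le c' e'.1.1 ∧
          Lt c'.u e'.2.1 e.2.1 := by
  let Z : X → Set (Pre × (κ → O) × (Pre × O × Y)) := fun p =>
    {z | ((z.2.2.1, z.2.2.2.1), z.2.1, z.2.2.2.2) ∈ E p ∧ K.le z.1 z.2.2.1 ∧ z.2.2.1 ∈ K.V α ∧
      z.2.2.2.1 < w1 ∧ P z.1 z.2.2.2.1}
  have hZ : ∀ p, ∀ z ∈ Z p, ∃ A : Set O, Sp.In K A z.2.2 := by
    rintro p ⟨g, β, g2, k, y⟩ ⟨h1, h2, h3, h4, h5⟩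
    obtain ⟨A, hA⟩ := hE p _ h1
    refine ⟨Set.univ, ?_, ?_, Sp.mono (Set.subset_univ _) hA⟩
    · have h6 := (mem_V.1 h3).1
      exact ⟨fun t _ => ⟨trivial, trivial, trivial⟩, fun M hM => ⟨(h6.C M hM).1, trivial⟩,
        fun v _ => trivial⟩
    · exact trivial
  obtain ⟨Fs, hFs, hk⟩ := K.kl (some α) (by rintro _ ⟨⟩; exact hα) κ Z hZ
  refine ⟨Fs, hFs, ?_⟩
  rintro N hN hcl p hp ⟨⟨g0, k0⟩, β0, y0⟩ he heR g1 hg1 hle hNg hP hβ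
  have h1 : g1 ∈ PB K (some α) := by rw [PB_some]; exact hg1
  have h2 : NB (some α) N ∈ g1.C := by rw [NB_some]; exact hNg
  obtain ⟨⟨g', β', g2, k, y⟩, hz', hin, hg', hβ', c', hc', hc1, hc2, hLt⟩ :=
    hk N hN hcl p hp (g1, β0, (g0, k0, y0)) ⟨he, hle, heR.1, heR.2, hP⟩ h1 h2 hβ
  rw [PB_some] at hg' hc'
  obtain ⟨hz1, hz2, hz3, hz4, hz5⟩ := hz'
  obtain ⟨hi1, hi2, hi3, hi4, hi5⟩ := hin
  have okc' := (mem_V.1 hc').2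
  refine ⟨((g2, k), β', y), hz1, ⟨⟨hi3, hi4⟩, hi2, hi5⟩, ⟨hz3, hz4⟩, hβ', g', hg', hz5, c', hc', hc1, hc2,
    ?_, ?_, hLt⟩
  · exact le_trans_of_ok okc' (mem_V.1 hg1).2 (mem_V.1 heR.1).2 hc1 hle
  · exact le_trans_of_ok okc' (mem_V.1 hg').2 (mem_V.1 hz3).2 hc2 hz2

theorem qF_refl [Finite ι] {α x0 : O} (hc0 : K.Ok c0) (hF : K.FamF c0 F) (hfp : FP ι fp) (hcl : K.ClsF α c0 F fp)
    (hx : K.CodeQ α x0 c0 (K.qF F fp)) {X Y : Type*} [Sp K X] [Sp K Y] (κ : Type) [Finite κ]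
    (E : X → Set ((Pre × O) × (κ → O) × Y)) (hE : ∀ p, ∀ e ∈ E p, ∃ A : Set O, Sp.In K A e.2.2) :
    ∃ Fs : List O → Set O, Fn Fs ∧ ∀ N, K.Nice N → Cl Fs N → ∀ p, Sp.In K N p → ∀ e ∈ E p, e.1 ∈ RS (K.V α) →
      N ∩ Set.Iio α ∈ e.1.1.C → (∀ i, e.2.1 i ∉ N ∧ e.2.1 i < w1) →
      ∃ e' ∈ E p, Sp.In K N e' ∧ e'.1 ∈ RS (K.V α) ∧ (∀ i, e'.2.1 i < w1) ∧
        ∃ a ∈ RS (K.V α), K.leR x0 a e.1 ∧ K.leR x0 a e'.1 ∧ Lt a.1.u e'.2.1 e.2.1 := by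
  have hα := hcl.cls.tr
  obtain ⟨F1, hF1, hk1⟩ := qF_reflV hc0 hF hfp hcl hx κ E hE
  obtain ⟨F2, hF2, hk2⟩ := kl_pair hα κ E hE (fun _ _ => True)
  obtain ⟨F3, hF3, hk3⟩ := kl_pair hα κ E hE (fun g k => ∀ c, K.ex c g → c ∉ K.VF F fp k)
  obtain ⟨F12, hF12, hm12⟩ := exists_merge2 F1 F2 hF1 hF2
  obtain ⟨Fs, hFs, hm⟩ := exists_merge2 F12 F3 hF12 hF3
  refine ⟨Fs, hFs, ?_⟩
  intro N hN hclN p hp e he heR hNe hβ
  obtain ⟨hcl12, hcl3⟩ := hm N hclN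
  obtain ⟨hcl1, hcl2⟩ := hm12 N hcl12
  have oke := (mem_V.1 heR.1).2
  by_cases hA : ∃ d ∈ K.V α, K.le d e.1.1 ∧ K.le d c0
  · obtain ⟨d, hd, hde, hdc⟩ := hA
    have okd := (mem_V.1 hd).2
    obtain ⟨d', hd', hdd, hdec⟩ := hcl.dec e.1.2 heR.2 d hd
    have okd' := (mem_V.1 hd').2
    have hd'e : K.le d' e.1.1 := le_trans_of_ok okd' okd oke hdd hde
    have hd'c : K.le d' c0 := le_trans_of_ok okd' okd hc0 hdd hdc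
    have hNd : N ∩ Set.Iio α ∈ d'.C := hd'e.C hNe
    rcases hdec with hdec | hdec
    · exact hk1 N hN hcl1 p hp e he heR d' hd' hd'e hNd hd'c hdec hβ
    · obtain ⟨e', he', hin, heR', hβ', g', hg', hP, c', hc', hc1, hc2, hc3, hc4, hLt⟩ :=
        hk3 N hN hcl3 p hp e he heR d' hd' hd'e hNd hdec hβ
      have okc' := (mem_V.1 hc').2
      have h0 : (0 : O) < w1 := Ordinal.omega_pos 1
      refine ⟨e', he', hin, heR', hβ', (c', 0), ⟨hc', h0⟩, ⟨hc3, ?_⟩, ⟨hc4, ?_⟩, hLt⟩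
      · refine (hx c' hc' 0 h0 e.1.2 heR.2).2 ?_
        intro c hc _
        refine mem_qF_of hF hc.1 (Or.inr (Or.inl ?_))
        intro c'' hc''
        exact hdec c'' (ex_trans okd' (ex_trans okc' hc'' hc) ⟨okc', hc1⟩)
      · refine (hx c' hc' 0 h0 e'.1.2 heR'.2).2 ?_
        intro c hc _
        refine mem_qF_of hF hc.1 (Or.inr (Or.inl ?_))
        intro c'' hc''
        exact hP c'' (ex_trans (mem_V.1 hg').2 (ex_trans okc' hc'' hc) ⟨okc', hc2⟩)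
  · obtain ⟨e', he', hin, heR', hβ', g', hg', hP, c', hc', hc1, hc2, hc3, hc4, hLt⟩ :=
      hk2 N hN hcl2 p hp e he heR e.1.1 heR.1 (le_refl_of_ok oke) hNe trivial hβ
    have okc' := (mem_V.1 hc').2
    have hvac : ∀ h < w1, K.L x0 c' e.1.2 h := by
      intro h hh
      refine (hx c' hc' e.1.2 heR.2 h hh).2 ?_
      intro c hc hcc
      exfalso
      obtain ⟨d, hd, hd1, hd2⟩ := hcl.cls.cmp c' hc' c0 hcl.cls.c0 ⟨c, hc, hcc⟩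
      exact hA ⟨d, hd, le_trans_of_ok (mem_V.1 hd).2 okc' oke hd1 hc3, hd2⟩
    exact ⟨e', he', hin, heR', hβ', (c', e.1.2), ⟨hc', heR.2⟩, ⟨hc3, hvac _ heR.2⟩,
      ⟨hc4, hvac _ heR'.2⟩, hLt⟩

end Code

end Pool.Agent.Lib.MP_8f49b0_lc.MM
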