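import Pool.Agent.Lib.MP_8f49b0_lc.MM.M.QSplit

/-! # The K-lemma for the iteration with `qF`: valid elements (module M-QREFLV)

Let `h = e.1.2`. Extend `g1` by `ClsF.sep` such that `Lt g1.u _ _` (in one direction) for all pairs of different tuples with the same colour in `fp h`. Let `s0` be the part of `fp h` with tuples in `N`, and `(b j, n j)`, `j : Fin m`, an (injective)
enumeration of the rest; all `b j i ∉ N` (`split_F`). For every `m` apply `kl (some α)` to `κ ⊕ (Fin m × ι)`, the parameters `(p, s0, n, pat)`, and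
the set `QReflV_Z`; merge over `m`. The reflected element has tuples `b' j` with `b' j i < b j i` (as reals, decided by the common extension `c'`), and `b' j` has the same digits as `b j` up to where `b j` is separated from the others. Let `h*` code `fp h ∪ fp k`;
then `c' ∈ VF h*` (`Lt` for `b' j` and `b i`: if `i = j` by the K-lemma, otherwise by the pattern), and `(c', h*)` is below both (`mem_qF_of`, `CodeQ`). -/

namespace Pool.Agent.Lib.MP_8f49b0_lc.MM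

namespace Code

variable {K : Code} {ι : Type} {c0 : Pre} {F : (ι → O) → Set Pre} {fp : O → Finset ((ι → O) × ℕ)}

/-- the sets to which the K-lemma is applied -/
private def QReflV_Z (K : Code) {ι κ : Type} (F : (ι → O) → Set Pre) (fp : O → Finset ((ι → O) × ℕ))
    (α : O) {X Y : Type*} (E : X → Set ((Pre × O) × (κ → O) × Y)) (m : ℕ)
    (q : X × Finset ((ι → O) × ℕ) × (Fin m → ℕ) × (Fin m × ι → Finset (ℕ × Bool))) :
    Set (Pre × ((κ ⊕ Fin m × ι) → O) × (Pre × O × Y)) :=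
  {z | z.1 ∈ K.VF F fp z.2.2.2.1 ∧ K.le z.1 z.2.2.1 ∧
    ((z.2.2.1, z.2.2.2.1), (fun i => z.2.1 (Sum.inl i)), z.2.2.2.2) ∈ E q.1 ∧ z.2.2.1 ∈ K.V α ∧
    z.2.2.2.1 < w1 ∧
    (∀ e, e ∈ fp z.2.2.2.1 ↔ e ∈ q.2.1 ∨ ∃ j, e = (fun i => z.2.1 (Sum.inr (j, i)), q.2.2.1 j)) ∧
    ∀ j i, ∀ v ∈ q.2.2.2 (j, i), (z.2.1 (Sum.inr (j, i)), v.1, v.2) ∈ z.1.u}

private theorem QReflV_PIn {α : O} {g : Pre} (hg : g ∈ K.V α) : K.PIn Set.univ g :=
  ⟨fun _ _ => ⟨trivial, trivial, trivial⟩, fun M hM => ⟨((mem_V.1 hg).1.C M hM).1, trivial⟩,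
    fun _ _ => trivial⟩

private theorem QReflV_lt {u u' : Finset (O × ℕ × Bool)} (h : u ⊆ u') {ι : Type} {b b' : ι → O}
    (hb : Lt u b b') : Lt u' b b' := by
  intro i
  obtain ⟨n, h1, h2, h3⟩ := hb i
  refine ⟨n, fun m hm => ?_, h h2, h h3⟩
  obtain ⟨e, he, he'⟩ := h1 m hm
  exact ⟨e, h he, h he'⟩

private theorem QReflV_LT {c : Pre} (hc : K.Ok c) {b b' : ι → O} (h : Lt c.u b b' ∨ Lt c.u b' b) :
    c ∈ K.LT b b' := by
  refine ⟨hc, fun c' hc' => ⟨c', ex_refl hc'.1, hc'.1, ?_⟩⟩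
  rcases h with h | h
  · exact Or.inl (QReflV_lt hc'.2.u h)
  · exact Or.inr (QReflV_lt hc'.2.u h)

theorem qF_reflV [Finite ι] {α x0 : O} (hc0 : K.Ok c0) (hF : K.FamF c0 F) (hfp : FP ι fp) (hcl : K.ClsF α c0 F fp)
    (hx : K.CodeQ α x0 c0 (K.qF F fp)) {X Y : Type*} [Sp K X] [Sp K Y] (κ : Type) [Finite κ]
    (E : X → Set ((Pre × O) × (κ → O) × Y)) (hE : ∀ p, ∀ e ∈ E p, ∃ A : Set O, Sp.In K A e.2.2) :
    ∃ Fs : List O → Set O, Fn Fs ∧ ∀ N, K.Nice N → Cl Fs N → ∀ p, Sp.In K N p → ∀ e ∈ E p, e.1 ∈ RS (K.V α) →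
      ∀ g1 ∈ K.V α, K.le g1 e.1.1 → N ∩ Set.Iio α ∈ g1.C → K.le g1 c0 → g1 ∈ K.VF F fp e.1.2 →
      (∀ i, e.2.1 i ∉ N ∧ e.2.1 i < w1) →
      ∃ e' ∈ E p, Sp.In K N e' ∧ e'.1 ∈ RS (K.V α) ∧ (∀ i, e'.2.1 i < w1) ∧
        ∃ a ∈ RS (K.V α), K.leR x0 a e.1 ∧ K.leR x0 a e'.1 ∧ Lt a.1.u e'.2.1 e.2.1 := by
  classical
  obtain ⟨F0, hF0, hF0'⟩ := split_F (fp := fp) hF hcl
  have hkl : ∀ m : ℕ, ∃ Fs : List O → Set O, Fn Fs ∧ ∀ N, K.Nice N → Cl Fs N →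
      ∀ q : X × Finset ((ι → O) × ℕ) × (Fin m → ℕ) × (Fin m × ι → Finset (ℕ × Bool)), Sp.In K N q →
      ∀ z ∈ QReflV_Z K F fp α E m q, z.1 ∈ PB K (some α) → NB (some α) N ∈ z.1.C →
      (∀ i, z.2.1 i ∉ N ∧ z.2.1 i < w1) →
      ∃ z' ∈ QReflV_Z K F fp α E m q, Sp.In K N z' ∧ z'.1 ∈ PB K (some α) ∧ (∀ i, z'.2.1 i < w1) ∧
        ∃ c' ∈ PB K (some α), K.le c' z.1 ∧ K.le c' z'.1 ∧ Lt c'.u z'.2.1 z.2.1 := by
    intro m
    refine kl K (some α) (fun β hβ => ?_) (κ ⊕ Fin m × ι) (QReflV_Z K F fp α E m) ?_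
    · cases hβ
      exact hcl.cls.tr
    · intro q z hz
      obtain ⟨_, _, h3, h4, _⟩ := hz
      obtain ⟨A, hA⟩ := hE _ _ h3
      exact ⟨Set.univ, QReflV_PIn h4, trivial, Sp.mono (Set.subset_univ A) hA⟩
  choose G hG hG' using hkl
  obtain ⟨G1, hG1, hG1'⟩ := exists_merge G hG
  obtain ⟨Fs, hFs, hFs'⟩ := exists_merge2 F0 G1 hF0 hG1
  refine ⟨Fs, hFs, ?_⟩
  intro N hN hcN p hp e he heR g1 hg1 hg1e hNg1 hg1c0 hg1V hβ
  obtain ⟨hcN0, hcN1⟩ := hFs' N hcN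
  have hcNm := hG1' N hcN1
  have hok1 : K.Ok g1 := (mem_V.1 hg1).2
  obtain ⟨g, hg, hgg1, hsep⟩ := hcl.sep e.1.2 heR.2 g1 hg1 hg1V
  have hokg : K.Ok g := (mem_V.1 hg).2
  have hoke : K.Ok e.1.1 := (mem_V.1 heR.1).2
  have hge : K.le g e.1.1 := le_trans_of_ok hokg hok1 hoke hgg1 hg1e
  have hgc0 : K.le g c0 := le_trans_of_ok hokg hok1 hc0 hgg1 hg1c0
  have hNg : N ∩ Set.Iio α ∈ g.C := hgg1.C hNg1
  have hgV : g ∈ K.VF F fp e.1.2 := (reg_VF hF _).opn g1 hg1V g ⟨hokg, hgg1⟩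
  -- the tuples outside `N`
  obtain ⟨s1, hs1⟩ : ∃ s1 : Finset ((ι → O) × ℕ), s1 = (fp e.1.2).filter (fun v => ¬ ∀ i, v.1 i ∈ N) :=
    ⟨_, rfl⟩
  obtain ⟨s0, hs0⟩ : ∃ s0 : Finset ((ι → O) × ℕ), s0 = (fp e.1.2).filter (fun v => ∀ i, v.1 i ∈ N) :=
    ⟨_, rfl⟩
  have hs1N : ∀ v ∈ s1, ∀ i, v.1 i ∉ N := by
    intro v hv
    rw [hs1, Finset.mem_filter] at hv
    rcases hF0' N hN hcN0 g hg hgc0 hNg v.1 (hgV.2.1 v hv.1) with h | h
    · exact absurd h hv.2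
    · exact h
  have hs1fp : ∀ v ∈ s1, v ∈ fp e.1.2 := by
    intro v hv
    rw [hs1, Finset.mem_filter] at hv
    exact hv.1
  obtain ⟨m, bn, hbn, hbn', hbninj⟩ : ∃ (m : ℕ) (bn : Fin m → (ι → O) × ℕ), (∀ j, bn j ∈ s1) ∧
      (∀ v ∈ s1, ∃ j, bn j = v) ∧ Function.Injective bn := by
    refine ⟨s1.card, fun j => (s1.equivFin.symm j : (ι → O) × ℕ), fun j => (s1.equivFin.symm j).2, ?_, ?_⟩
    · intro v hv
      exact ⟨s1.equivFin ⟨v, hv⟩, by simp⟩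
    · intro j j' hjj
      exact s1.equivFin.symm.injective (Subtype.ext hjj)
  obtain ⟨pat, hpat⟩ : ∃ pat : Fin m × ι → Finset (ℕ × Bool), ∀ j i v, v ∈ pat (j, i) ↔
      ((bn j).1 i, v.1, v.2) ∈ g.u := by
    refine ⟨fun ji => (g.u.filter (fun v => v.1 = (bn ji.1).1 ji.2)).image (fun v => v.2), ?_⟩
    intro j i v
    rw [Finset.mem_image]
    constructor
    · rintro ⟨w, hw, rfl⟩
      rw [Finset.mem_filter] at hw
      simp only at hw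
      rw [← hw.2]
      exact hw.1
    · intro hv
      exact ⟨((bn j).1 i, v.1, v.2), Finset.mem_filter.mpr ⟨hv, rfl⟩, rfl⟩
  have hfpiff : ∀ v, v ∈ fp e.1.2 ↔ v ∈ s0 ∨ ∃ j, v = bn j := by
    intro v
    constructor
    · intro hv
      by_cases hvN : ∀ i, v.1 i ∈ N
      · left
        rw [hs0, Finset.mem_filter]
        exact ⟨hv, hvN⟩
      · right
        obtain ⟨j, hj⟩ := hbn' v (by rw [hs1, Finset.mem_filter]; exact ⟨hv, hvN⟩)
        exact ⟨j, hj.symm⟩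
    · rintro (hv | ⟨j, rfl⟩)
      · rw [hs0, Finset.mem_filter] at hv
        exact hv.1
      · exact hs1fp _ (hbn j)
  -- the application of the K-lemma
  have hz := hG' m N hN (hcNm m) (p, s0, (fun j => (bn j).2), pat) ?_
    (g, (Sum.elim e.2.1 (fun ji => (bn ji.1).1 ji.2)), (e.1.1, e.1.2, e.2.2)) ?_ ?_ ?_ ?_
  rotate_left
  · refine ⟨hp, ?_, ?_, ?_⟩
    · intro v hv
      rw [hs0, Finset.mem_filter] at hv
      exact ⟨fun i => hv.2 i, trivial⟩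
    · intro j
      trivial
    · intro ji v _
      exact ⟨trivial, trivial⟩
  · refine ⟨hgV, hge, he, heR.1, heR.2, ?_, ?_⟩
    · intro v
      exact hfpiff v
    · intro j i v hv
      exact (hpat j i v).mp hv
  · rw [PB_some]
    exact hg
  · rw [NB_some]
    exact hNg
  · rintro (i | ⟨j, i⟩)
    · exact hβ i
    · exact ⟨hs1N _ (hbn j) i, hfp.lt _ _ (hs1fp _ (hbn j)) i⟩
  obtain ⟨⟨g', β', g2, k, y⟩, hz', hzN, hg'V, hβ', c', hc', hc'g, hc'g', hLt⟩ := hz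
  obtain ⟨hg'k, hg'g2, hzE, hg2, hk, hfpk, hpat'⟩ := hz'
  simp only at hg'k hg'g2 hzE hg2 hk hfpk hpat' hc'g hc'g' hg'V hβ'
  rw [PB_some] at hg'V hc'
  have hokc' : K.Ok c' := (mem_V.1 hc').2
  have hokg' : K.Ok g' := (mem_V.1 hg'V).2
  have hokg2 : K.Ok g2 := (mem_V.1 hg2).2
  -- the common extension
  obtain ⟨hs, hsw, hfs⟩ := hfp.surj (fp e.1.2 ∪ fp k) (by
    intro v hv
    rcases Finset.mem_union.mp hv with hv | hv
    · exact hfp.lt _ v hv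
    · exact hfp.lt _ v hv)
  have hexg : K.ex c' g := ⟨hokc', hc'g⟩
  have hexg' : K.ex c' g' := ⟨hokc', hc'g'⟩
  have hVg : c' ∈ K.VF F fp e.1.2 := (reg_VF hF _).opn g hgV c' hexg
  have hVg' : c' ∈ K.VF F fp k := (reg_VF hF _).opn g' hg'k c' hexg'
  -- comparison of the two kinds of tuples
  have hcomp : ∀ j j', (bn j).2 = (bn j').2 →
      (Lt c'.u (bn j).1 (fun i => β' (Sum.inr (j', i))) ∨
        Lt c'.u (fun i => β' (Sum.inr (j', i))) (bn j).1) := by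
    intro j j' hjj
    by_cases hj : j = j'
    · subst hj
      right
      intro i
      exact hLt (Sum.inr (j, i))
    · have hne : (bn j).1 ≠ (bn j').1 := by
        intro h1
        exact hj (hbninj (Prod.ext h1 hjj))
      have htr : ∀ i v1 v2, ((bn j').1 i, v1, v2) ∈ g.u → (β' (Sum.inr (j', i)), v1, v2) ∈ c'.u := by
        intro i v1 v2 hv
        exact hc'g'.u (hpat' j' i (v1, v2) ((hpat j' i (v1, v2)).mpr hv))
      rcases hsep _ (hs1fp _ (hbn j)) _ (hs1fp _ (hbn j')) hjj hne with h1 | h1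
      · left
        intro i
        obtain ⟨n, h2, h3, h4⟩ := h1 i
        refine ⟨n, fun r hr => ?_, hc'g.u h3, htr i _ _ h4⟩
        obtain ⟨b, hb1, hb2⟩ := h2 r hr
        exact ⟨b, hc'g.u hb1, htr i _ _ hb2⟩
      · right
        intro i
        obtain ⟨n, h2, h3, h4⟩ := h1 i
        refine ⟨n, fun r hr => ?_, htr i _ _ h3, hc'g.u h4⟩
        obtain ⟨b, hb1, hb2⟩ := h2 r hr
        exact ⟨b, htr i _ _ hb1, hc'g.u hb2⟩
  have hmix : ∀ v ∈ fp e.1.2, ∀ v' ∈ fp k, v.2 = v'.2 → v.1 ≠ v'.1 →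
      c' ∈ K.LT v.1 v'.1 ∧ c' ∈ K.LT v'.1 v.1 := by
    intro v hv v' hv' h2 h1
    rcases (hfpiff v).mp hv with h3 | ⟨j, rfl⟩
    · have h4 : v ∈ fp k := (hfpk v).mpr (Or.inl h3)
      exact ⟨hVg'.2.2 v h4 v' hv' h2 h1, hVg'.2.2 v' hv' v h4 h2.symm (Ne.symm h1)⟩
    · rcases (hfpk v').mp hv' with h3 | ⟨j', rfl⟩
      · have h4 : v' ∈ fp e.1.2 := (hfpiff v').mpr (Or.inl h3)
        exact ⟨hVg.2.2 _ hv v' h4 h2 h1, hVg.2.2 v' h4 _ hv h2.symm (Ne.symm h1)⟩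
      · have h4 := hcomp j j' h2
        exact ⟨QReflV_LT hokc' h4, QReflV_LT hokc' h4.symm⟩
  have hVs : c' ∈ K.VF F fp hs := by
    refine ⟨hokc', ?_, ?_⟩
    · intro v hv
      rw [hfs, Finset.mem_union] at hv
      rcases hv with hv | hv
      · exact hVg.2.1 v hv
      · exact hVg'.2.1 v hv
    · intro v hv v' hv' h2 h1
      rw [hfs, Finset.mem_union] at hv hv'
      rcases hv with hv | hv
      · rcases hv' with hv' | hv'
        · exact hVg.2.2 v hv v' hv' h2 h1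
        · exact (hmix v hv v' hv' h2 h1).1
      · rcases hv' with hv' | hv'
        · exact (hmix v' hv' v hv h2.symm (Ne.symm h1)).2
        · exact hVg'.2.2 v hv v' hv' h2 h1
  have hL : ∀ h < w1, fp h ⊆ fp hs → K.L x0 c' hs h := by
    intro h hh hsub
    rw [hx c' hc' hs hsw h hh]
    intro c hc _
    exact mem_qF_of hF hc.1 (Or.inr (Or.inr ⟨(reg_VF hF _).opn c' hVs c hc, hsub⟩))
  refine ⟨((g2, k), (fun i => β' (Sum.inl i)), y), hzE, ?_, ⟨hg2, hk⟩, fun i => hβ' (Sum.inl i),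
    (c', hs), ⟨hc', hsw⟩, ⟨le_trans_of_ok hokc' hokg hoke hc'g hge, hL _ heR.2 ?_⟩,
    ⟨le_trans_of_ok hokc' hokg' hokg2 hc'g' hg'g2, hL _ hk ?_⟩, ?_⟩
  · obtain ⟨_, h2, h3, h4, h5⟩ := hzN
    exact ⟨⟨h3, h4⟩, fun i => h2 (Sum.inl i), h5⟩
  · rw [hfs]
    exact Finset.subset_union_left
  · rw [hfs]
    exact Finset.subset_union_right
  · intro i
    exact hLt (Sum.inl i)

end Code

end Pool.Agent.Lib.MP_8f49b0_lc.MM
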