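import Pool.Agent.Lib.MP_8f49b0_lc.MM.M.QBasic
import Pool.Agent.Lib.MP_8f49b0_lc.MM.I.KlCor2

/-! # Tuples in `F` are inside or above a closed node (module M-QSPLIT)

The function is that of `refl_PB (some α)` for `E γ = {(d, γ') | γ' < w1 ∧ ∀ b c, K.ex c d → c ∈ F b → (∀ i, γ < b i) ∨ ∀ i, b i < γ'}` (`X = Y = O`). If `b i ∈ N` for some `i`, let `γ = b i`; extend `g` (`ClsF.bdd`) to
`d` with `(d, γ') ∈ E γ`; then there are `(d', γ'') ∈ E γ` in `N` and `g* ≤ d, d'`; `g* ∈ F b`, so `b j < γ''` for all `j`, and `γ'' ∈ N`, `Nice0.seg`. -/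

namespace Pool.Agent.Lib.MP_8f49b0_lc.MM

namespace Code

variable {K : Code} {ι : Type} {c0 : Pre} {F : (ι → O) → Set Pre} {fp : O → Finset ((ι → O) × ℕ)}

theorem split_F {α : O} (hF : K.FamF c0 F) (hcl : K.ClsF α c0 F fp) :
    ∃ Fs : List O → Set O, Fn Fs ∧ ∀ N, K.Nice N → Cl Fs N → ∀ g ∈ K.V α, K.le g c0 → N ∩ Set.Iio α ∈ g.C →
      ∀ b, g ∈ F b → (∀ i, b i ∈ N) ∨ (∀ i, b i ∉ N) := by
  obtain ⟨Fs, hFs, H⟩ := refl_PB K (some α) (fun β hβ => by cases hβ; exact hcl.cls.tr)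
    (X := O) (Y := O)
    (fun γ => {e : Pre × O | e.2 < w1 ∧ ∀ b c, K.ex c e.1 → c ∈ F b → (∀ i, γ < b i) ∨ ∀ i, b i < e.2})
    (fun γ e _ => ⟨Set.univ, trivial⟩)
  refine ⟨Fs, hFs, ?_⟩
  intro N hN hcN g hg hgc0 hNg b hgb
  by_cases hb : ∃ i, b i ∈ N
  · left
    obtain ⟨i, hi⟩ := hb
    have hokg : K.Ok g := (mem_V.1 hg).2
    have hbi : b i < w1 := hF.lt b g hgb i
    obtain ⟨d, hd, hdg, γ', hγ', hdE⟩ := hcl.bdd (b i) hbi g hg hgc0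
    obtain ⟨e', he', heN, _, c', hc', hc'1, hc'2⟩ := H N hN hcN (b i) hi (d, γ') ⟨hγ', hdE⟩
      (by rw [PB_some]; exact hd) (by rw [NB_some]; exact hdg.C hNg)
    rw [PB_some] at hc'
    have hokc' : K.Ok c' := (mem_V.1 hc').2
    have hokd : K.Ok d := (mem_V.1 hd).2
    have h1 : c' ∈ F b := (hF.reg b).opn g hgb c' ⟨hokc', le_trans_of_ok hokc' hokd hokg hc'1 hdg⟩
    rcases he'.2 b c' ⟨hokc', hc'2⟩ h1 with h2 | h2
    · exact absurd (h2 i) (lt_irrefl _)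
    · intro j
      exact hN.seg e'.2 heN.2 he'.1 (h2 j)
  · right
    intro i hi
    exact hb ⟨i, hi⟩

end Code

end Pool.Agent.Lib.MP_8f49b0_lc.MM
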