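import Pool.Agent.Lib.MP_8f49b0_lc.MM.M.Reg
import Pool.Agent.Lib.MP_8f49b0_lc.MM.J.MkGood

/-! # The relation given by a name at a closed level (module M-RQ)

`exists_codeQ`: `K.exists_code_cl` (or `K.code`). `pos_of_mem`: by `ClsQ.dec` there is `d ≤ c.res α` in `K.V α` with `d ∈ q h' h` or negative; glue `d` into `c` at `t` (`exists_glue_fst`): the result is in
`q h' h` (`opn`), so `d` is not negative. `compat_of_node`: `c.res α` and `c` with `K.le c c0` : by `ClsQ.cmp`. -/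

namespace Pool.Agent.Lib.MP_8f49b0_lc.MM

namespace Code

variable {K : Code}

theorem exists_codeQ (α : O) (c0 : Pre) (q : O → O → Set Pre) : ∃ x, K.CodeQ α x c0 q := by
  obtain ⟨x, -, hx⟩ := K.code α (fun _ => ∅) (K.RQ c0 q) (fun _ => Set.countable_empty)
    (fun _ => Set.empty_subset _)
  exact ⟨x, fun g hg h' hh' h hh => hx g h' h (mem_V.1 hg).1 hh' hh⟩

theorem preR_of_codeQ {α x : O} {c0 : Pre} {q : O → O → Set Pre} (hq : K.PreQ c0 q) (hx : K.CodeQ α x c0 q) :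
    PreR K α x := by
  refine ⟨?_, ?_, ?_, ?_⟩
  · intro g hg g' hg' hle h' hh' h hh hL
    rw [hx g' hg' h' hh' h hh]
    rw [hx g hg h' hh' h hh] at hL
    intro c hc hc0
    exact hL c (ex_trans (mem_V.1 hg).2 hc ⟨(mem_V.1 hg').2, hle⟩) hc0
  · intro g hg h hh
    rw [hx g hg h hh h hh]
    intro c hc hc0
    exact (hq.reg h h).opn c0 (hq.refl h hh) c ⟨hc.1, hc0⟩
  · intro g hg h hh h' hh' h'' hh'' h1 h2
    rw [hx g hg h'' hh'' h' hh'] at h1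
    rw [hx g hg h' hh' h hh] at h2
    rw [hx g hg h'' hh'' h hh]
    intro c hc hc0
    exact hq.trans h'' hh'' h' hh' h hh c ⟨hc.1, hc0⟩ (h1 c hc hc0) (h2 c hc hc0)
  · intro g hg h hh
    rw [hx g hg h hh 0 (Ordinal.omega_pos 1)]
    intro c hc hc0
    exact (hq.reg h 0).opn c0 (hq.top h hh) c ⟨hc.1, hc0⟩

/-- all codes of `RQ` are `Same` -/
theorem same_of_codeQ {α x x' : O} {c0 : Pre} {q : O → O → Set Pre} (hx : K.CodeQ α x c0 q)
    (hx' : Same K α x' x) : K.CodeQ α x' c0 q := by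
  intro g hg h' hh' h hh
  rw [hx' g (mem_V.1 hg).1 h' hh' h hh]
  exact hx g hg h' hh' h hh

theorem rq_of_mem {c0 : Pre} {q : O → O → Set Pre} (hq : K.PreQ c0 q) {d : Pre} {h' h : O} (hd : d ∈ q h' h) :
    K.RQ c0 q d h' h :=
  fun c hc _ => (hq.reg h' h).opn d hd c hc

/-- positive decisions below a transitive node of height `α` -/
theorem pos_of_mem {α : O} {c0 : Pre} {q : O → O → Set Pre} (hq : K.PreQ c0 q) (hcl : K.ClsQ α c0 q) {c : Pre} (hc : K.Ok c)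
    {t : O × O × O} (ht : t ∈ c.T) (htα : t.1 = α) {h' h : O} (hh' : h' < w1) (hh : h < w1) (hcq : c ∈ q h' h) :
    ∃ d ∈ K.V α, K.le d (c.res α) ∧ d ∈ q h' h := by
  subst htα
  obtain ⟨d, hd, hle, hdec⟩ := hcl.dec h' hh' h hh (c.res t.1) (hc.res_mem ht)
  rcases hdec with hdec | hdec
  · exact ⟨d, hd, hle, hdec⟩
  · exfalso
    obtain ⟨c', h1, h2, h3, h4, h5⟩ := exists_glue_fst hc ht hd hle
    exact hdec c' ⟨h1.1, h4⟩ ((hq.reg h' h).opn c hcq c' h1)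

/-- the same for finitely many (here three) decisions and an arbitrary extension of the restriction which is compatible with `c` -/
theorem pos_of_mem3 {α : O} {c0 : Pre} {q : O → O → Set Pre} (hq : K.PreQ c0 q) (hcl : K.ClsQ α c0 q) {c : Pre} (hc : K.Ok c)
    {t : O × O × O} (ht : t ∈ c.T) (htα : t.1 = α) {h1 h2 h3 h4 h5 h6 : O} (hh1 : h1 < w1) (hh2 : h2 < w1) (hh3 : h3 < w1)
    (hh4 : h4 < w1) (hh5 : h5 < w1) (hh6 : h6 < w1) (hc1 : c ∈ q h1 h2) (hc2 : c ∈ q h3 h4) (hc3 : c ∈ q h5 h6) :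
    ∃ d ∈ K.V α, K.le d (c.res α) ∧ d ∈ q h1 h2 ∧ d ∈ q h3 h4 ∧ d ∈ q h5 h6 := by
  subst htα
  have hres := mem_V.1 (hc.res_mem ht)
  obtain ⟨d1, hd1, hle1, hq1⟩ := pos_of_mem hq hcl hc ht rfl hh1 hh2 hc1
  obtain ⟨e1, he1, hr1, ht1, -, -⟩ := exists_glue_fst hc ht hd1 hle1
  obtain ⟨d2, hd2, hle2, hq2⟩ := pos_of_mem hq hcl he1.1 ht1 rfl hh3 hh4 ((hq.reg h3 h4).opn c hc2 e1 he1)
  obtain ⟨e2, he2, hr2, ht2, -, -⟩ := exists_glue_fst he1.1 ht1 hd2 hle2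
  obtain ⟨d3, hd3, hle3, hq3⟩ := pos_of_mem hq hcl he2.1 ht2 rfl hh5 hh6
    ((hq.reg h5 h6).opn e1 ((hq.reg h5 h6).opn c hc3 e1 he1) e2 he2)
  rw [hr1] at hle2
  rw [hr2] at hle3
  have k1 := (mem_V.1 hd1).2
  have k2 := (mem_V.1 hd2).2
  have k3 := (mem_V.1 hd3).2
  refine ⟨d3, hd3, ?_, ?_, ?_, hq3⟩
  · exact le_trans_of_ok k3 k1 hres.2 (le_trans_of_ok k3 k2 k1 hle3 hle2) hle1
  · exact (hq.reg h1 h2).opn d2 ((hq.reg h1 h2).opn d1 hq1 d2 ⟨k2, hle2⟩) d3 ⟨k3, hle3⟩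
  · exact (hq.reg h3 h4).opn d2 hq2 d3 ⟨k3, hle3⟩

/-- glue a pair of the iteration at the level `α` into a condition with a transitive node of height `α` -/
theorem mem_of_glue {α x : O} {c0 : Pre} {q : O → O → Set Pre} (hx : K.CodeQ α x c0 q) {c g : Pre} {h' h : O}
    (hg : g ∈ K.V α) (hh' : h' < w1) (hh : h < w1) (hL : K.L x g h' h) (hcg : K.ex c g) (hc0 : K.le c c0) : c ∈ q h' h :=
  (hx g hg h' hh' h hh).1 hL c hcg hc0

end Code

end Pool.Agent.Lib.MP_8f49b0_lc.MM
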