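import Pool.Agent.Lib.MP_8f49b0_lc.MM.M.Defs

/-! # Truth values (module M-REG) -/

namespace Pool.Agent.Lib.MP_8f49b0_lc.MM

namespace Code

variable {K : Code}

theorem reg_rg {A : Set Pre} (hA : ∀ c ∈ A, ∀ c', K.ex c' c → c' ∈ A) : K.Reg (K.rg A) := by
  refine ⟨fun c hc => hc.1, ?_, ?_⟩
  · intro c hc c' hc'
    exact ⟨hc'.1, fun c'' hc'' => hc.2 c'' (ex_trans hc.1 hc'' hc')⟩
  · intro c hc h
    refine ⟨hc, fun c' hc' => ?_⟩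
    obtain ⟨c'', h1, h2⟩ := h c' hc'
    obtain ⟨d, h3, h4⟩ := h2.2 c'' (ex_refl h2.1)
    exact ⟨d, ex_trans hc'.1 h3 h1, h4⟩

theorem subset_rg {A : Set Pre} (h0 : ∀ c ∈ A, K.Ok c) (hA : ∀ c ∈ A, ∀ c', K.ex c' c → c' ∈ A) : A ⊆ K.rg A := by
  intro c hc
  exact ⟨h0 c hc, fun c' hc' => ⟨c', ex_refl hc'.1, hA c hc c' hc'⟩⟩

theorem mem_rg_self {A : Set Pre} {c : Pre} (hc : c ∈ K.rg A) : ∃ c', K.ex c' c ∧ c' ∈ A := by
  exact hc.2 c (ex_refl hc.1)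

theorem reg_inter {A B : Set Pre} (hA : K.Reg A) (hB : K.Reg B) : K.Reg (A ∩ B) := by
  refine ⟨fun c hc => hA.ok c hc.1, fun c hc c' hc' => ⟨hA.opn c hc.1 c' hc', hB.opn c hc.2 c' hc'⟩, ?_⟩
  intro c hc h
  refine ⟨hA.reg c hc fun c' hc' => ?_, hB.reg c hc fun c' hc' => ?_⟩
  · obtain ⟨c'', h1, h2⟩ := h c' hc'
    exact ⟨c'', h1, h2.1⟩
  · obtain ⟨c'', h1, h2⟩ := h c' hc'
    exact ⟨c'', h1, h2.2⟩

/-- every condition has an extension which decides `A` -/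
theorem decide_ex (A : Set Pre) {c : Pre} (hc : K.Ok c) : ∃ c', K.ex c' c ∧ (c' ∈ A ∨ ∀ c'', K.ex c'' c' → c'' ∉ A) := by
  by_cases h : ∃ c', K.ex c' c ∧ c' ∈ A
  · obtain ⟨c', h1, h2⟩ := h
    exact ⟨c', h1, Or.inl h2⟩
  · refine ⟨c, ex_refl hc, Or.inr fun c'' h1 h2 => h ⟨c'', h1, h2⟩⟩

/-- the negation -/
theorem reg_not {A : Set Pre} (hA : K.Reg A) : K.Reg {c | K.Ok c ∧ ∀ c', K.ex c' c → c' ∉ A} := by
  refine ⟨fun c hc => hc.1, ?_, ?_⟩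
  · intro c hc c' hc'
    exact ⟨hc'.1, fun c'' hc'' => hc.2 c'' (ex_trans hc.1 hc'' hc')⟩
  · intro c hc h
    refine ⟨hc, fun c' hc' hA' => ?_⟩
    obtain ⟨c'', h1, h2⟩ := h c' hc'
    exact h2.2 c'' (ex_refl h2.1) (hA.opn c' hA' c'' h1)

theorem reg_all : K.Reg {c | K.Ok c} := by
  exact ⟨fun c hc => hc, fun c _ c' hc' => hc'.1, fun c hc _ => hc⟩

theorem Reg.le {A : Set Pre} (hA : K.Reg A) {c c' : Pre} (hc : c ∈ A) (h : K.ex c' c) : c' ∈ A := hA.opn c hc c' h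

/-- the truth value of `r_{b i} < r_{b' i}` for all `i` -/
theorem reg_Lt {ι : Type} (b b' : ι → O) : K.Reg (K.rg {c | K.Ok c ∧ Lt c.u b b'}) := by
  refine reg_rg ?_
  intro c hc c' hc'
  refine ⟨hc'.1, fun i => ?_⟩
  obtain ⟨n, h1, h2, h3⟩ := hc.2 i
  refine ⟨n, fun m hm => ?_, hc'.2.u h2, hc'.2.u h3⟩
  obtain ⟨e, h4, h5⟩ := h1 m hm
  exact ⟨e, hc'.2.u h4, hc'.2.u h5⟩

end Code

theorem Lt.mono {ι : Type} {u u' : Finset (O × ℕ × Bool)} {b b' : ι → O} (h : Lt u b b') (huu : u ⊆ u') : Lt u' b b' := by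
  intro i
  obtain ⟨n, h1, h2, h3⟩ := h i
  refine ⟨n, fun m hm => ?_, huu h2, huu h3⟩
  obtain ⟨e, h4, h5⟩ := h1 m hm
  exact ⟨e, huu h4, huu h5⟩

theorem Lt.trans {ι : Type} {u : Finset (O × ℕ × Bool)} (hu : ∀ ξ n b b', (ξ, n, b) ∈ u → (ξ, n, b') ∈ u → b = b')
    {b b' b'' : ι → O} (h : Lt u b b') (h' : Lt u b' b'') : Lt u b b'' := by
  intro i
  obtain ⟨n, h1, h2, h3⟩ := h i
  obtain ⟨k, g1, g2, g3⟩ := h' i
  rcases lt_trichotomy n k with hnk | hnk | hnk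
  · refine ⟨n, fun m hm => ?_, h2, ?_⟩
    · obtain ⟨e, h4, h5⟩ := h1 m hm
      obtain ⟨e', h6, h7⟩ := g1 m (hm.trans hnk)
      have := hu _ _ _ _ h5 h6
      subst this
      exact ⟨e, h4, h7⟩
    · obtain ⟨e', h6, h7⟩ := g1 n hnk
      have := hu _ _ _ _ h3 h6
      subst this
      exact h7
  · subst hnk
    exact absurd (hu _ _ _ _ h3 g2) (by simp)
  · refine ⟨k, fun m hm => ?_, ?_, g3⟩
    · obtain ⟨e, h4, h5⟩ := h1 m (hm.trans hnk)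
      obtain ⟨e', h6, h7⟩ := g1 m hm
      have := hu _ _ _ _ h5 h6
      subst this
      exact ⟨e, h4, h7⟩
    · obtain ⟨e, h4, h5⟩ := h1 k hnk
      have := hu _ _ _ _ h5 g2
      subst this
      exact h4

theorem Lt.asymm {ι : Type} [Nonempty ι] {u : Finset (O × ℕ × Bool)} (hu : ∀ ξ n b b', (ξ, n, b) ∈ u → (ξ, n, b') ∈ u → b = b')
    {b b' : ι → O} (h : Lt u b b') (h' : Lt u b' b) : False := by
  obtain ⟨i⟩ := (inferInstance : Nonempty ι)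
  obtain ⟨n, _, h2, h3⟩ := (Lt.trans hu h h') i
  exact absurd (hu _ _ _ _ h2 h3) (by simp)

end Pool.Agent.Lib.MP_8f49b0_lc.MM
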