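import Pool.Agent.Lib.MP_8f49b0_lc.MM.M.Reg

/-! # Failure of `IncQ`: definitions, (5.3) of the paper -/

namespace Pool.Agent.Lib.MP_8f49b0_lc.MM

namespace Code

/-- names of elements `e.2.1 ≤ h` of `q` with tuples `e.2.2` above `ξ`, below an element of `Z` with the same tuple, for all `ξ` and `h`; there is no increasing
pair in `Z` -/
structure SelD (K : Code) (c0 : Pre) (q : O → O → Set Pre) {ι : Type} (Z : Set (Pre × O × (ι → O))) (c1 : Pre) (h0 : O)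
    (sel : O → O → Set (Pre × O × (ι → O))) : Prop where
  hq : K.PreQ c0 q
  hc1 : K.ex c1 c0
  hh0 : h0 < w1
  Zok : ∀ z ∈ Z, K.Ok z.1 ∧ z.2.1 < w1
  sub : ∀ ξ < w1, ∀ h < w1, ∀ e ∈ sel ξ h, K.ex e.1 c1 ∧ e.2.1 < w1 ∧ e.1 ∈ q e.2.1 h ∧ (∀ i, ξ < e.2.2 i ∧ e.2.2 i < w1) ∧
    ∃ z ∈ Z, z.2.2 = e.2.2 ∧ K.le e.1 z.1 ∧ e.1 ∈ q e.2.1 z.2.1
  anti : ∀ ξ < w1, ∀ h < w1, ∀ e ∈ sel ξ h, ∀ e' ∈ sel ξ h, (∃ c, K.Ok c ∧ K.le c e.1 ∧ K.le c e'.1) → e = e'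
  dense : ∀ ξ < w1, ∀ h < w1, ∀ c, K.ex c c1 → c ∈ q h h0 → ∃ e ∈ sel ξ h, ∃ c', K.ex c' c ∧ K.le c' e.1
  no : ∀ z1 ∈ Z, ∀ z2 ∈ Z, ∀ c', K.ex c' c1 → K.le c' z1.1 → K.le c' z2.1 → Lt c'.u z1.2.2 z2.2.2 →
    ∀ h' < w1, c' ∈ q h' h0 → c' ∈ q h' z1.2.1 → c' ∉ q h' z2.2.1

/-- the family of all the chosen tuples -/
def FamS (K : Code) {ι : Type} (sel : O → O → Set (Pre × O × (ι → O))) (b : ι → O) : Set Pre :=
  K.rg {c | K.Ok c ∧ ∃ ξ < w1, ∃ h < ξ, ∃ e ∈ sel ξ h, K.le c e.1 ∧ e.2.2 = b}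

/-- `c` is below a chosen element with colour `n` and tuple below `β`, and `h` is below its second component -/
def HitS (K : Code) (q : O → O → Set Pre) {ι : Type} (sel : O → O → Set (Pre × O × (ι → O))) (π : (ι → O) → ℕ → Set Pre)
    (c : Pre) (h : O) (n : ℕ) (β : O) : Prop :=
  ∃ ξ < w1, ∃ h'' < ξ, ∃ e ∈ sel ξ h'', K.le c e.1 ∧ c ∈ q h e.2.1 ∧ c ∈ π e.2.2 n ∧ ∀ i, e.2.2 i < β

/-- the name of the relation to which `SPQ` is applied -/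
def RS3 (K : Code) (q : O → O → Set Pre) {ι : Type} (sel : O → O → Set (Pre × O × (ι → O))) (π : (ι → O) → ℕ → Set Pre)
    (c1 : Pre) (h ζ β : O) : Set Pre :=
  K.rg {c | K.ex c c1 ∧ h < w1 ∧ β < w1 ∧ ∀ n : ℕ, ζ = n →
    HitS K q sel π c h n β ∨ ∀ c', K.ex c' c → ∀ h' < w1, c' ∈ q h' h → ¬ HitS K q sel π c' h' n w1}

end Code

end Pool.Agent.Lib.MP_8f49b0_lc.MM
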