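import Pool.Agent.Lib.MP_8f49b0_lc.MM.M.Reg
import Pool.Agent.Lib.MP_8f49b0_lc.MM.I.KlCor2

/-! # Final segments of `ω₁` are stationary; maximal antichains (module M-STATALL)

`stat_gt`: as in M-BADSTAT: `refl_PB none` for `E ζ = {(d, β) | K.le d c ∧ β < w1 ∧ d ∈ f ζ β}`, `exists_node none` for `c` and `Set.Iic γ` (a countable set). `exists_sel`: Zorn's lemma (`zorn_subset`). -/

namespace Pool.Agent.Lib.MP_8f49b0_lc.MM

namespace Code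

variable {K : Code}

private theorem statall_ctb {γ : O} (hγ : γ < w1) : (Set.Iic γ).Countable := by
  have h1 : γ.card < Cardinal.aleph 1 := by
    have h2 : γ < (Cardinal.aleph 1).ord := by
      rw [Cardinal.ord_aleph]
      exact hγ
    exact Cardinal.lt_ord.1 h2
  have h3 : γ.card ≤ Cardinal.aleph0 := by
    rw [← Cardinal.succ_aleph0] at h1
    exact Order.lt_succ_iff.1 h1
  have h4 : (Set.Iio γ).Countable := by
    rw [← Cardinal.le_aleph0_iff_set_countable, Cardinal.mk_Iio_ordinal]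
    exact Cardinal.lift_le_aleph0.2 h3
  have h5 : Set.Iic γ = insert γ (Set.Iio γ) := by
    ext x
    simp [le_iff_eq_or_lt]
  rw [h5]
  exact h4.insert γ

theorem stat_gt {c0 : Pre} (hc0 : K.Ok c0) {γ : O} (hγ : γ < w1) : K.StatF c0 (fun δ => {c | K.Ok c ∧ γ < δ}) := by
  intro c hc f hf htot
  have hb : ∀ α, (none : Option O) = some α → K.Tr α := by
    intro α hα
    simp at hα
  have hPB : ∀ d : Pre, K.Ok d → d ∈ PB K none := by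
    intro d hd
    rw [PB_none]
    exact hd
  obtain ⟨F, hF, hFN⟩ := refl_PB K none hb (X := O) (Y := O) (fun ζ => {e | e.2 < w1 ∧ e.1 ∈ f ζ e.2})
    (fun p e _ => ⟨{e.2}, Set.mem_singleton _⟩)
  obtain ⟨N, hN, hCl, hγN, -, c', hc', hle, hNc⟩ := exists_node K none hb F hF (hPB c hc.1) (Set.Iic γ)
    (statall_ctb hγ)
  rw [NB_none] at hNc
  obtain ⟨δ, hδ, hδN⟩ := hN.exists_delta
  have hγδ : γ < δ := (hδN γ hγ).1 (hγN (Set.mem_Iic.2 le_rfl))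
  refine ⟨c', ⟨hc'.1, hle⟩, δ, hδ, ((zero_le (a := γ)).trans_lt hγδ).ne', ⟨hc'.1, hγδ⟩, ?_⟩
  intro ζ hζ c'' hc''
  obtain ⟨d, hd, β, hβ, hdf⟩ := htot ζ (hζ.trans hδ) c'' (ex_trans hc.1 hc'' ⟨hc'.1, hle⟩)
  obtain ⟨e, he, heN, heP, c3, hc3, h1, h2⟩ := hFN N hN hCl ζ ((hδN ζ (hζ.trans hδ)).2 hζ) (d, β) ⟨hβ, hdf⟩
    (hPB d hd.1) (by
      rw [NB_none]
      exact hd.2.C (hc''.2.C hNc))
  refine ⟨c3, ex_trans hc''.1 ⟨hc3.1, h1⟩ hd, e.2, (hδN _ he.1).1 heN.2, ?_⟩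
  exact (hf ζ e.2).opn e.1 he.2 c3 ⟨hc3.1, h2⟩

theorem exists_sel {Y : Type*} (Q : Set (Pre × Y)) (hQ : ∀ e ∈ Q, K.Ok e.1) :
    ∃ A ⊆ Q, (∀ e ∈ A, ∀ e' ∈ A, (∃ c, K.Ok c ∧ K.le c e.1 ∧ K.le c e'.1) → e = e') ∧
      ∀ e ∈ Q, ∃ e' ∈ A, ∃ c, K.Ok c ∧ K.le c e.1 ∧ K.le c e'.1 := by
  obtain ⟨A, hA⟩ := zorn_subset {A : Set (Pre × Y) | A ⊆ Q ∧
      ∀ e ∈ A, ∀ e' ∈ A, (∃ c, K.Ok c ∧ K.le c e.1 ∧ K.le c e'.1) → e = e'} (by
    intro C hC hchain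
    refine ⟨⋃₀ C, ⟨Set.sUnion_subset fun s hs => (hC hs).1, ?_⟩, fun s hs => Set.subset_sUnion_of_mem hs⟩
    rintro e ⟨s, hs, hes⟩ e' ⟨s', hs', hes'⟩ hcomp
    rcases hchain.total hs hs' with h | h
    · exact (hC hs').2 e (h hes) e' hes' hcomp
    · exact (hC hs).2 e hes e' (h hes') hcomp)
  refine ⟨A, hA.prop.1, hA.prop.2, fun e he => ?_⟩
  by_contra hno
  have hno' : ∀ e' ∈ A, ∀ c, K.Ok c → K.le c e.1 → ¬ K.le c e'.1 := by
    intro e' he' c hc h1 h2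
    exact hno ⟨e', he', c, hc, h1, h2⟩
  have hins : insert e A ∈ {A : Set (Pre × Y) | A ⊆ Q ∧
      ∀ e ∈ A, ∀ e' ∈ A, (∃ c, K.Ok c ∧ K.le c e.1 ∧ K.le c e'.1) → e = e'} := by
    refine ⟨Set.insert_subset he hA.prop.1, ?_⟩
    rintro a (rfl | ha) a' (rfl | ha') ⟨c, hc, h1, h2⟩
    · rfl
    · exact absurd h2 (hno' a' ha' c hc h1)
    · exact absurd h1 (hno' a ha c hc h2)
    · exact hA.prop.2 a ha a' ha' ⟨c, hc, h1, h2⟩
  have heA : e ∈ A := hA.le_of_ge hins (Set.subset_insert _ _) (Set.mem_insert _ _)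
  have hle := le_refl_of_ok (hQ e he)
  exact hno' e heA e.1 (hQ e he) hle hle

end Code

end Pool.Agent.Lib.MP_8f49b0_lc.MM
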