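import Pool.Agent.Lib.MP_8f49b0_lc.MM.M.SelDefs
import Pool.Agent.Lib.MP_8f49b0_lc.MM.M.QDefs
import Pool.Agent.Lib.MP_8f49b0_lc.MM.M.StatAll

/-! # Failure of `IncQ`: the family and the data (module M-SELFAM)

`exists_SelD`: unfold `¬ IncQ`; `sel ξ h` is a maximal antichain (`exists_sel`) of the set `Q` of the triples satisfying the clause `sub`; `dense`: for `c ∈ q h h0` the hypothesis on `Z` gives a triple in `Q` with first
component `≤ c`. `famF_FamS`: `bdd`: let `γ < w1`. The tuples for `ξ ≥ γ` are above `γ`. For `ξ < γ` apply `bdd_PB none` to `E m = {(e.1, β) | e ∈ sel ξ h, (ξ, h) the m-th pair, β < w1 the least ordinal above all e.2.2 i}`; by `anti` the value is unique. -/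

namespace Pool.Agent.Lib.MP_8f49b0_lc.MM

namespace Code

variable {K : Code} {ι : Type}

private theorem SelFam_Iio {ξ : O} (h : ξ < w1) : (Set.Iio ξ).Countable := by
  rw [← Cardinal.le_aleph0_iff_set_countable, Cardinal.mk_Iio_ordinal, ← Cardinal.lift_aleph0.{1, 0},
    Cardinal.lift_le, ← Cardinal.lt_aleph_one_iff, ← Cardinal.lt_ord, Cardinal.ord_aleph]
  exact h

/-- a strict bound of a finite tuple -/
private theorem SelFam_bound [Finite ι] (b : ι → O) (hb : ∀ i, b i < w1) : ∃ β < w1, ∀ i, b i < β := by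
  rcases isEmpty_or_nonempty ι with h | h
  · exact ⟨0, Ordinal.omega_pos 1, fun i => h.elim i⟩
  · obtain ⟨i0, hi0⟩ := Finite.exists_max b
    exact ⟨Order.succ (b i0), (Cardinal.isSuccLimit_omega 1).succ_lt (hb i0),
      fun i => Order.lt_succ_iff.2 (hi0 i)⟩

theorem exists_SelD {c0 : Pre} {q : O → O → Set Pre} (hc0 : K.Ok c0) (hq : K.PreQ c0 q) (h : ¬ K.IncQ c0 q) :
    ∃ (ι : Type) (_ : Finite ι) (_ : Nonempty ι) (Z : Set (Pre × O × (ι → O))) (c1 : Pre) (h0 : O)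
      (sel : O → O → Set (Pre × O × (ι → O))), SelD K c0 q Z c1 h0 sel := by
  unfold IncQ at h
  push Not at h
  obtain ⟨ι, hι, Z, hZ, c1, hc1, h0, hh0, hden, hno⟩ := h
  have hne : Nonempty ι := by
    by_contra hne
    rw [not_nonempty_iff] at hne
    have hr : c1 ∈ q h0 h0 := (hq.reg h0 h0).opn c0 (hq.refl h0 hh0) c1 hc1
    obtain ⟨z, hz, -, c', hc', hcz, h', hh', hq1, hq2⟩ := hden c1 (ex_refl hc1.1) h0 hh0 hr 0
      (lt_of_le_of_lt zero_le hh0)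
    exact hno z hz z hz c' hc' hcz hcz (fun i => hne.elim i) h' hh' hq1 hq2 hq2
  have hsel : ∀ ξ h : O, ∃ A ⊆ {e : Pre × O × (ι → O) | K.ex e.1 c1 ∧ e.2.1 < w1 ∧ e.1 ∈ q e.2.1 h ∧
      (∀ i, ξ < e.2.2 i ∧ e.2.2 i < w1) ∧ ∃ z ∈ Z, z.2.2 = e.2.2 ∧ K.le e.1 z.1 ∧ e.1 ∈ q e.2.1 z.2.1},
      (∀ e ∈ A, ∀ e' ∈ A, (∃ c, K.Ok c ∧ K.le c e.1 ∧ K.le c e'.1) → e = e') ∧
      ∀ e ∈ {e : Pre × O × (ι → O) | K.ex e.1 c1 ∧ e.2.1 < w1 ∧ e.1 ∈ q e.2.1 h ∧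
        (∀ i, ξ < e.2.2 i ∧ e.2.2 i < w1) ∧ ∃ z ∈ Z, z.2.2 = e.2.2 ∧ K.le e.1 z.1 ∧ e.1 ∈ q e.2.1 z.2.1},
        ∃ e' ∈ A, ∃ c, K.Ok c ∧ K.le c e.1 ∧ K.le c e'.1 := fun ξ h =>
    exists_sel _ (fun e he => he.1.1)
  choose sel hsub hanti hmax using hsel
  refine ⟨ι, hι, hne, Z, c1, h0, sel, ⟨hq, hc1, hh0, hZ, ?_, ?_, ?_, ?_⟩⟩
  · intro ξ _ h _ e he
    exact hsub ξ h he
  · intro ξ _ h _ e he e' he' hc
    exact hanti ξ h e he e' he' hc
  · intro ξ hξ h hh c hc hch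
    obtain ⟨z, hz, hz2, c', hc', hcz, h', hh', hq1, hq2⟩ := hden c hc h hh hch ξ hξ
    obtain ⟨e', he', d, hd, hd1, hd2⟩ := hmax ξ h (c', h', z.2.2)
      ⟨ex_trans hc1.1 hc' hc, hh', hq1, hz2, z, hz, rfl, hcz, hq2⟩
    exact ⟨e', he', d, ex_trans hc.1 ⟨hd, hd1⟩ hc', hd2⟩
  · intro z1 hz1 z2 hz2 c' hc' h1 h2 h3 h' hh' h4 h5 h6
    exact hno z1 hz1 z2 hz2 c' hc' h1 h2 h3 h' hh' h4 h5 h6

theorem famF_FamS [Finite ι] {c0 : Pre} {q : O → O → Set Pre} {Z : Set (Pre × O × (ι → O))} {c1 : Pre} {h0 : O}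
    {sel : O → O → Set (Pre × O × (ι → O))} (hs : SelD K c0 q Z c1 h0 sel) : K.FamF c1 (FamS K sel) := by
  have hc1 : K.Ok c1 := hs.hc1.1
  have hopn : ∀ b : ι → O, ∀ c ∈ {c | K.Ok c ∧ ∃ ξ < w1, ∃ h < ξ, ∃ e ∈ sel ξ h, K.le c e.1 ∧ e.2.2 = b},
      ∀ c', K.ex c' c → c' ∈ {c | K.Ok c ∧ ∃ ξ < w1, ∃ h < ξ, ∃ e ∈ sel ξ h, K.le c e.1 ∧ e.2.2 = b} := by
    rintro b c ⟨hc, ξ, hξ, h, hh, e, he, hle, hb⟩ c' hc'
    have he1 := (hs.sub ξ hξ h (hh.trans hξ) e he).1.1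
    exact ⟨hc'.1, ξ, hξ, h, hh, e, he, le_trans_of_ok hc'.1 hc he1 hc'.2 hle, hb⟩
  refine ⟨fun b => reg_rg (hopn b), ?_, ?_⟩
  · intro b c hc i
    obtain ⟨c', hc', h1⟩ := mem_rg_self hc
    obtain ⟨-, ξ, hξ, h, hh, e, he, -, rfl⟩ := h1
    exact ((hs.sub ξ hξ h (hh.trans hξ) e he).2.2.2.1 i).2
  · intro γ hγ c hc
    -- the pairs below `γ`
    obtain ⟨P, hP⟩ : ∃ P : Set (O × O), P = Set.Iio γ ×ˢ Set.Iio γ := ⟨_, rfl⟩
    have hPc : P.Countable := by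
      rw [hP]
      exact (SelFam_Iio hγ).prod (SelFam_Iio hγ)
    rcases P.eq_empty_or_nonempty with hP0 | hP0
    · refine ⟨c, ex_refl hc.1, 0, lt_of_le_of_lt zero_le hγ, fun b c'' hc'' hb => Or.inl fun i => ?_⟩
      have hγ0 : γ = 0 := by
        by_contra hne
        have h1 : (0 : O) < γ := pos_of_ne_zero hne
        have h2 : ((0 : O), (0 : O)) ∈ P := by
          rw [hP]
          exact ⟨h1, h1⟩
        rw [hP0] at h2
        exact h2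
      obtain ⟨c', hc', h1⟩ := mem_rg_self hb
      obtain ⟨-, ξ, hξ, h, hh, e, he, -, rfl⟩ := h1
      have h2 := ((hs.sub ξ hξ h (hh.trans hξ) e he).2.2.2.1 i).1
      rw [hγ0]
      exact lt_of_le_of_lt zero_le h2
    · obtain ⟨f, hf⟩ := hPc.exists_eq_range hP0
      have hfP : ∀ n, f n ∈ P := fun n => by
        rw [hf]
        exact Set.mem_range_self n
      obtain ⟨a1, ha1, hle1, γ', hγ', hbd⟩ := bdd_PB K none (fun α hα => by simp at hα)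
        (fun n => {p : Pre × O | ∃ e ∈ sel (f n).1 (f n).2, p.1 = e.1 ∧ p.2 < w1 ∧ ∀ i, e.2.2 i < p.2})
        (fun n e he => by
          obtain ⟨_, _, _, h1, _⟩ := he
          exact h1) c (by
          rw [PB_none]
          exact hc.1)
      rw [PB_none] at ha1
      refine ⟨a1, ⟨ha1, hle1⟩, γ', hγ', fun b c'' hc'' hb => ?_⟩
      obtain ⟨c3, hc3, h1⟩ := mem_rg_self hb
      obtain ⟨-, ξ, hξ, h, hh, e, he, hle, rfl⟩ := h1
      have hsub := hs.sub ξ hξ h (hh.trans hξ) e he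
      rcases le_or_gt γ ξ with hγξ | hγξ
      · exact Or.inl fun i => lt_of_le_of_lt hγξ (hsub.2.2.2.1 i).1
      · right
        have hmem : (ξ, h) ∈ P := by
          rw [hP]
          exact ⟨hγξ, hh.trans hγξ⟩
        rw [hf] at hmem
        obtain ⟨n, hn⟩ := hmem
        obtain ⟨β, hβ, hβ2⟩ := SelFam_bound e.2.2 (fun i => (hsub.2.2.2.1 i).2)
        have hc3a : K.le c3 a1 := (ex_trans ha1 hc3 hc'').2
        obtain ⟨p, hp, hpγ, a', ha', hle2, hle3⟩ := hbd n c3 (by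
          rw [PB_none]
          exact hc3.1) hc3a ⟨(e.1, β), ⟨e, by rw [hn]; exact he, rfl, hβ, hβ2⟩, hsub.1.1, hle⟩
        rw [PB_none] at ha'
        obtain ⟨e1, he1, hpe, -, hpb⟩ := hp
        rw [hn] at he1
        rw [hpe] at hle3
        have heq : e = e1 := hs.anti ξ hξ h (hh.trans hξ) e he e1 he1
          ⟨a', ha', le_trans_of_ok ha' hc3.1 hsub.1.1 hle2 hle, hle3⟩
        intro i
        rw [heq]
        exact (hpb i).trans hpγ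

end Code

end Pool.Agent.Lib.MP_8f49b0_lc.MM
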