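import Pool.Agent.Lib.MP_8f49b0_lc.MM.M.SeqA

/-! # The sequence is cofinal if there are no closure points (module M-SEQB)

Assume that below `(c0, h0)` there is no closure point above `γ` (`hno`). `seq_unb`: suppose that for some `ε < w1` and `(c, h) ≤ (c0, h0)` no `(c', h') ≤ (c, h)` has `Sq .. c' h' k σ` with `ε < σ k`. Let `δ` be the least ordinal such that for some `(c', h') ≤ (c, h)`
no `(c'', h'') ≤ (c', h')` has `Sq .. c'' h'' k σ` with `δ < σ k`; so `δ ≤ ε < w1`. Then `(c', h')` forces that `δ` is closed: let `ζ < δ`, `(c2, r) ≤ (c', h')`. By the minimality of `δ` there are `(c3, r3) ≤ (c2, r)` and `k`, `σ` with `ζ < σ k`; let `ζ = en1 (σ k) i`,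
`m = Nat.pair i k` (`k ≤ m`); extend (`Sq.extend`) to `m + 1`: `σ' (m + 1) = succ (max _ β)` with `FV .. ζ β`, and `σ' (m + 1) ≤ δ`, so `β < δ`; `FV.dense` gives the element of `R`. Finally `γ < σ 0 ≤ δ`. This contradicts `hno`.
`CN_closed`: for `δ ≠ 0` it is impossible that `(c, h) ≤ (c0, h0)` forces that the range is unbounded in `δ`: extend to `(c', h')` with `Sq .. k σ`, `δ < σ k` (`seq_unb`), let `γ'` be the largest `σ m < δ` (or `0`); an `ε` with `γ' < ε < δ` forced in the range is `σ' k'` for some stronger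
`Sq .. k' σ'`; compare (`Sq.extend`, `Sq.unique`, `Sq.mono`). -/

namespace Pool.Agent.Lib.MP_8f49b0_lc.MM

namespace Code

variable {K : Code} {c1 : Pre} {q : O → O → Set Pre} {R : O → O → O → Set Pre}

private theorem M_SeqB_refl (hR : RelQ K c1 q R) {c : Pre} (hc : K.ex c c1) {h : O} (hh : h < w1) : c ∈ q h h :=
  (hR.hq.reg h h).opn c1 (hR.hq.refl h hh) c hc

theorem seq_unb (hR : RelQ K c1 q R) {γ : O} (hγ : γ < w1) {c0 : Pre} (hc0 : K.ex c0 c1) {h0 : O} (hh0 : h0 < w1)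
    (hno : ∀ c, K.ex c c0 → ∀ h < w1, c ∈ q h h0 → ∀ δ, γ < δ → ¬ CLo K c1 q R c h δ) :
    ∀ ε < w1, ∀ c, K.ex c c0 → ∀ h < w1, c ∈ q h h0 →
      ∃ c', K.ex c' c ∧ ∃ h' < w1, c' ∈ q h' h ∧ ∃ k σ, Sq K c1 q R γ c' h' k σ ∧ ε < σ k := by
  intro ε hε c hc h hh hch
  by_contra hcon
  set Δ : Set O := {δ | ∃ c', K.ex c' c0 ∧ ∃ h' < w1, c' ∈ q h' h0 ∧ ∀ c'', K.ex c'' c' → ∀ h'' < w1, c'' ∈ q h'' h' →
    ∀ k σ, Sq K c1 q R γ c'' h'' k σ → σ k ≤ δ} with hΔ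
  have hεΔ : ε ∈ Δ := by
    refine ⟨c, hc, h, hh, hch, fun c'' hc'' h'' hh'' hq'' k σ hS => ?_⟩
    by_contra hlt
    exact hcon ⟨c'', hc'', h'', hh'', hq'', k, σ, hS, not_le.1 hlt⟩
  have hmem : sInf Δ ∈ Δ := csInf_mem ⟨ε, hεΔ⟩
  have hle : sInf Δ ≤ ε := csInf_le' hεΔ
  have hmin : ∀ ζ < sInf Δ, ζ ∉ Δ := fun ζ hζ hζΔ => absurd (csInf_le' hζΔ) (not_le.2 hζ)
  generalize sInf Δ = δ at hmem hle hmin
  obtain ⟨c', hc', h', hh', hq', hbd⟩ := hmem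
  have hc'1 : K.ex c' c1 := ex_trans hR.ok hc' hc0
  have hγδ : γ < δ := by
    obtain ⟨c'', h1, h'', h2, h3, σ, h4⟩ := Sq.total hR hγ 0 hc'1 hh'
    have h5 := hbd c'' h1 h'' h2 h3 0 σ h4
    rw [h4.zero] at h5
    exact lt_of_lt_of_le (Order.lt_succ γ) h5
  refine hno c' hc' h' hh' hq' δ hγδ ⟨hc'1, hh', lt_of_le_of_lt hle hε, ?_, ?_⟩
  · exact (lt_of_le_of_lt zero_le hγδ).ne'
  · intro ζ hζ r hr c2 hc2 hq2
    have hc21 : K.ex c2 c1 := ex_trans hR.ok hc2 hc'1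
    have hc20 : K.ex c2 c0 := ex_trans hc0.1 hc2 hc'
    have hq2' : c2 ∈ q r h0 := hR.hq.trans r hr h' hh' h0 hh0 c2 hc21 hq2 ((hR.hq.reg h' h0).opn c' hq' c2 hc2)
    have hζn := hmin ζ hζ
    have : ∃ c3, K.ex c3 c2 ∧ ∃ r3 < w1, c3 ∈ q r3 r ∧ ∃ k σ, Sq K c1 q R γ c3 r3 k σ ∧ ζ < σ k := by
      by_contra hcon2
      refine hζn ⟨c2, hc20, r, hr, hq2', fun c'' hc'' h'' hh'' hq'' k σ hS => ?_⟩
      by_contra hlt
      exact hcon2 ⟨c'', hc'', h'', hh'', hq'', k, σ, hS, not_le.1 hlt⟩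
    obtain ⟨c3, hc3, r3, hr3, hq3, k, σ, hS3, hζσ⟩ := this
    have hc31 : K.ex c3 c1 := ex_trans hR.ok hc3 hc21
    obtain ⟨i, hi⟩ := en1_surj (hS3.lt hγ k le_rfl) hζσ
    have hkm : k ≤ Nat.pair i k := Nat.right_le_pair i k
    obtain ⟨c4, hc4, r4, hr4, hq4, σ', hS4, hσ'⟩ := Sq.extend hR hγ hc31 hr3 hS3 (Nat.pair i k + 1) (hkm.trans (Nat.le_succ _))
    have hc41 : K.ex c4 c1 := ex_trans hR.ok hc4 hc31
    obtain ⟨β, hF, hσ1⟩ := hS4.step (Nat.pair i k) (Nat.lt_succ_self _)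
    rw [Nat.unpair_pair, hσ' k le_rfl, hi] at hF
    have hq3' : c3 ∈ q r3 h' :=
      hR.hq.trans r3 hr3 r hr h' hh' c3 hc31 hq3 ((hR.hq.reg r h').opn c2 hq2 c3 hc3)
    have hq4' : c4 ∈ q r4 h' :=
      hR.hq.trans r4 hr4 r3 hr3 h' hh' c4 hc41 hq4 ((hR.hq.reg r3 h').opn c3 hq3' c4 hc4)
    have hc4' : K.ex c4 c' := ex_trans hc'.1 (ex_trans hc2.1 hc4 hc3) hc2
    have hle2 := hbd c4 hc4' r4 hr4 hq4' _ σ' hS4
    rw [hσ1] at hle2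
    have hβ : β < δ := lt_of_le_of_lt (le_max_right _ _) (Order.succ_le_iff.1 hle2)
    obtain ⟨c5, hc5, r5, hr5, hq5, hR5⟩ := hF.dense c4 (ex_refl hc4.1) r4 hr4 (M_SeqB_refl hR hc41 hr4)
    refine ⟨c5, ex_trans hc2.1 (ex_trans hc3.1 hc5 hc4) hc3, r5, hr5, ?_, β, hβ, hR5⟩
    have hc51 : K.ex c5 c1 := ex_trans hR.ok hc5 hc41
    have h6 : c4 ∈ q r4 r := hR.hq.trans r4 hr4 r3 hr3 r hr c4 hc41 hq4 ((hR.hq.reg r3 r).opn c3 hq3 c4 hc4)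
    exact hR.hq.trans r5 hr5 r4 hr4 r hr c5 hc51 hq5 ((hR.hq.reg r4 r).opn c4 h6 c5 hc5)

theorem CN_closed (hR : RelQ K c1 q R) {γ : O} (hγ : γ < w1) {c0 : Pre} (hc0 : K.ex c0 c1) {h0 : O} (hh0 : h0 < w1)
    (hno : ∀ c, K.ex c c0 → ∀ h < w1, c ∈ q h h0 → ∀ δ, γ < δ → ¬ CLo K c1 q R c h δ) :
    ∀ δ < w1, δ ≠ 0 → ∀ c, K.ex c c0 → ∀ h < w1, c ∈ q h h0 →
      ¬ ∀ γ' < δ, ∀ c', K.ex c' c → ∀ r < w1, c' ∈ q r h →
        ∃ c'', K.ex c'' c' ∧ ∃ r' < w1, c'' ∈ q r' r ∧ ∃ ε < δ, γ' < ε ∧ c'' ∈ CN K c1 q R γ r' ε := by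
  intro δ hδ hδ0 c hc h hh hch H
  obtain ⟨c', hc', h', hh', hq', k, σ, hS, hδσ⟩ := seq_unb hR hγ hc0 hh0 hno δ hδ c hc h hh hch
  classical
  set γ' : O := (Finset.range (k + 1)).sup (fun m => if σ m < δ then σ m else 0) with hγ'
  have hγ'δ : γ' < δ := by
    rw [hγ', Finset.sup_lt_iff (by rw [Ordinal.bot_eq_zero]; exact lt_of_le_of_ne zero_le hδ0.symm)]
    intro m _
    split_ifs with hm
    · exact hm
    · exact lt_of_le_of_ne zero_le hδ0.symm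
  have hγ'le : ∀ m ≤ k, σ m < δ → σ m ≤ γ' := by
    intro m hm hlt
    have := Finset.le_sup (f := fun m => if σ m < δ then σ m else 0) (Finset.mem_range.2 (Nat.lt_succ_of_le hm))
    simp only [if_pos hlt] at this
    exact this
  have hcc1 : K.ex c c1 := ex_trans hR.ok hc hc0
  have hc'1 : K.ex c' c1 := ex_trans hR.ok hc' hcc1
  obtain ⟨c'', hc'', r', hr', hq'', ε, hεδ, hγε, hCN⟩ := H γ' hγ'δ c' hc' h' hh' hq'
  have hc''1 : K.ex c'' c1 := ex_trans hR.ok hc'' hc'1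
  obtain ⟨c3, hc3, r3, hr3, hq3, k', σ', hc31, hS', hσ'⟩ :=
    hCN.2 c'' (ex_refl hc''.1) r' hr' (M_SeqB_refl hR hc''1 hr')
  have hq3' : c3 ∈ q r3 h' :=
    hR.hq.trans r3 hr3 r' hr' h' hh' c3 hc31 hq3 ((hR.hq.reg r' h').opn c'' hq'' c3 hc3)
  have hS3 : Sq K c1 q R γ c3 r3 k σ := hS.down hR (ex_trans hc'.1 hc3 hc'') hr3 hq3'
  rcases le_or_gt k' k with hk | hk
  · have h1 := hS3.unique hR hS' k' hk le_rfl
    rw [hσ'] at h1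
    have h2 := hγ'le k' hk (by rw [h1]; exact hεδ)
    rw [h1] at h2
    exact absurd hγε (not_lt.2 h2)
  · have h1 := hS3.unique hR hS' k le_rfl hk.le
    have h2 := hS'.mono k' le_rfl k hk
    rw [hσ', ← h1] at h2
    exact absurd (hδσ.trans (h2.trans hεδ)) (lt_irrefl _)

end Code

end Pool.Agent.Lib.MP_8f49b0_lc.MM
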