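import Pool.Agent.Lib.MP_8f49b0_lc.MM.M.ClubDefs

/-! # Closure points of names of functions: definitions

`R` is a name of a total relation on `ω₁` in the extension by `q`; `f ζ` is the least `β` with `R ζ β`. If `f` had no closure points above `γ`, then the sequence `s 0 = γ + 1`, `s (m + 1) = max (s m) (f ζ) + 1`,
where `ζ` is the `i`-th element of `s j` and `(i, j) = Nat.unpair m`, would be cofinal in `ω₁`. -/

namespace Pool.Agent.Lib.MP_8f49b0_lc.MM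

namespace Code

/-- the assumptions on `R` -/
structure RelQ (K : Code) (c1 : Pre) (q : O → O → Set Pre) (R : O → O → O → Set Pre) : Prop where
  hq : K.PreQ c1 q
  ok : K.Ok c1
  reg : ∀ h ζ β, K.Reg (R h ζ β)
  down : ∀ h' < w1, ∀ h < w1, ∀ ζ < w1, ∀ β < w1, ∀ c, K.ex c c1 → c ∈ q h' h → c ∈ R h ζ β → c ∈ R h' ζ β
  total : ∀ ζ < w1, ∀ h < w1, ∀ c, K.ex c c1 → ∃ c', K.ex c' c ∧ ∃ h' < w1, c' ∈ q h' h ∧ ∃ β < w1, c' ∈ R h' ζ β

/-- `c` forces that `h` forces `f ζ = β` -/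
structure FV (K : Code) (c1 : Pre) (q : O → O → Set Pre) (R : O → O → O → Set Pre) (c : Pre) (h ζ β : O) : Prop where
  ex : K.ex c c1
  h_lt : h < w1
  β_lt : β < w1
  dense : ∀ c', K.ex c' c → ∀ r < w1, c' ∈ q r h → ∃ c'', K.ex c'' c' ∧ ∃ r' < w1, c'' ∈ q r' r ∧ c'' ∈ R r' ζ β
  least : ∀ β' < β, ∀ c', K.ex c' c → ∀ r < w1, c' ∈ q r h → c' ∉ R r ζ β'

/-- `c` forces that `h` forces that `δ` is closed -/
def CLo (K : Code) (c1 : Pre) (q : O → O → Set Pre) (R : O → O → O → Set Pre) (c : Pre) (h δ : O) : Prop :=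
  K.ex c c1 ∧ h < w1 ∧ δ < w1 ∧ δ ≠ 0 ∧ ∀ ζ < δ, ∀ r < w1, ∀ c', K.ex c' c → c' ∈ q r h →
    ∃ c'', K.ex c'' c' ∧ ∃ r' < w1, c'' ∈ q r' r ∧ ∃ β < δ, c'' ∈ R r' ζ β

/-- the `i`-th element of the ordinal `α` -/
noncomputable def en1 (α : O) (i : ℕ) : O :=
  open Classical in if h : ∃ f : ℕ → O, Set.Iio α = Set.range f then h.choose i else 0

/-- `c` forces that `h` forces that the first members of the sequence are `σ 0, ..., σ k` -/
structure Sq (K : Code) (c1 : Pre) (q : O → O → Set Pre) (R : O → O → O → Set Pre) (γ : O) (c : Pre) (h : O) (k : ℕ)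
    (σ : ℕ → O) : Prop where
  zero : σ 0 = Order.succ γ
  step : ∀ m < k, ∃ β, FV K c1 q R c h (en1 (σ (Nat.unpair m).2) (Nat.unpair m).1) β ∧
    σ (m + 1) = Order.succ (max (σ m) β)

/-- the name of the range of the sequence -/
def CN (K : Code) (c1 : Pre) (q : O → O → Set Pre) (R : O → O → O → Set Pre) (γ h δ : O) : Set Pre :=
  {c | K.Ok c ∧ ∀ c', K.ex c' c → ∀ r < w1, c' ∈ q r h → ∃ c'', K.ex c'' c' ∧ ∃ r' < w1, c'' ∈ q r' r ∧
    ∃ k σ, K.ex c'' c1 ∧ Sq K c1 q R γ c'' r' k σ ∧ σ k = δ}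

end Code

end Pool.Agent.Lib.MP_8f49b0_lc.MM
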